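import Pool.Agent.MP_3ee8cb_gt.TB.Spec

/-! Gauss-Bonnet for Legendrian spheres in dimension three: definitions and row statements.
Functions on the round sphere are functions on `ℝ³ ∖ 0` that are homogeneous of degree zero, and
integrals over the sphere are integrals over the unit ball. -/

namespace Pool.Agent.MP_3ee8cb_gt.D3GB

open Pool.Agent.MP_3ee8cb_gt.CR Pool.Agent.MP_3ee8cb_gt.TB Set MeasureTheory Metric
open scoped RealInnerProductSpace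

abbrev V := E 3

/-- the coordinate vectors -/
noncomputable def bv (i : Fin 3) : V := EuclideanSpace.single i 1

/-- the cross product -/
noncomputable def cr (a b : V) : V :=
  WithLp.toLp 2 ![a 1 * b 2 - a 2 * b 1, a 2 * b 0 - a 0 * b 2, a 0 * b 1 - a 1 * b 0]

/-- the triple product -/
def trip (a b c : V) : ℝ := a 0 * (b 1 * c 2 - b 2 * c 1) + a 1 * (b 2 * c 0 - b 0 * c 2) +
  a 2 * (b 0 * c 1 - b 1 * c 0)

/-- the value of a two-form `b` on the positive area element of the sphere through `v`, scaled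
to the unit sphere -/
noncomputable def ev (v : V) (b : V → V → ℝ) : ℝ :=
  ‖v‖ * (v 0 * b (bv 1) (bv 2) + v 1 * b (bv 2) (bv 0) + v 2 * b (bv 0) (bv 1))

/-- the linear map `e ↦ ‖v‖ D e + ⟪v / ‖v‖, e⟫ w` -/
noncomputable def ext (v w : V) (D : V →L[ℝ] V) : V →L[ℝ] V :=
  ‖v‖ • D + (innerSL ℝ (‖v‖⁻¹ • v)).smulRight w

/-- the Jacobian of a map of the sphere -/
noncomputable def jac (H : V → V) (v : V) : ℝ := (ext v (H v) (fderiv ℝ H v)).det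

/-- the form `df ∧ dg` -/
noncomputable def br (f g : V → ℝ) (v : V) : ℝ :=
  ev v fun a b => fderiv ℝ f v a * fderiv ℝ g v b - fderiv ℝ f v b * fderiv ℝ g v a

/-- the Riemannian density -/
noncomputable def dens (h : Met 3) (y : V) : ℝ :=
  √(Matrix.of fun i j : Fin 3 => h y (EuclideanSpace.single i 1) (EuclideanSpace.single j 1)).det

/-- the covariant derivative of `W` along `Y` -/
noncomputable def cvd (C : Chr 3) (Y W : V → V) (v : V) : V →L[ℝ] V :=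
  fderiv ℝ W v + ((C (Y v)).flip (W v)).comp (fderiv ℝ Y v)

/-- `det A` -/
noncomputable def dA (h : Met 3) (Y W : V → V) (v : V) : ℝ :=
  dens h (Y v) * (ext v (W v) (fderiv ℝ Y v)).det

/-- `det A'` -/
noncomputable def dP (h : Met 3) (C : Chr 3) (Y W : V → V) (v : V) : ℝ :=
  dens h (Y v) * (ext v (W v) (cvd C Y W v)).det

/-- a `C¹` function on the sphere -/
structure Hom0 {F : Type} [NormedAddCommGroup F] [NormedSpace ℝ F] (H : V → F) : Prop where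
  c1 : ContDiffOn ℝ 1 H {0}ᶜ
  hom : ∀ (v : V) (t : ℝ), 0 < t → H (t • v) = H v

/-- a continuous function on the sphere -/
structure Con0 (J : V → ℝ) : Prop where
  c0 : ContinuousOn J {0}ᶜ
  hom : ∀ (v : V) (t : ℝ), 0 < t → J (t • v) = J v

/-- a Legendrian sphere in the unit tangent bundle: foot `Y`, unit normal `W` -/
structure Front (h : Met 3) (Y W : V → V) : Prop where
  hY : Hom0 Y
  hW : Hom0 W
  unit : ∀ v, v ≠ 0 → h (Y v) (W v) (W v) = 1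
  leg : ∀ v, v ≠ 0 → ∀ e, h (Y v) (W v) (fderiv ℝ Y v e) = 0

/-- a homotopy in `ℝ³ ∖ 0`, up to positive factors at the ends -/
structure Htp (W W₁ : V → V) (K : ℝ × V → V) : Prop where
  cont : ContinuousOn K (Icc 0 1 ×ˢ sphere 0 1)
  ne : ∀ s ∈ Icc (0 : ℝ) 1, ∀ p ∈ sphere (0 : V) 1, K (s, p) ≠ 0
  zero : ∀ p ∈ sphere (0 : V) 1, ∃ t : ℝ, 0 < t ∧ K (0, p) = t • W p
  one : ∀ p ∈ sphere (0 : V) 1, ∃ t : ℝ, 0 < t ∧ K (1, p) = t • W₁ p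

/-- different points of the sphere go to different rays -/
def RayInj (W₁ : V → V) : Prop := ∀ p ∈ sphere (0 : V) 1, ∀ q ∈ sphere (0 : V) 1, ∀ t : ℝ,
  0 < t → W₁ p = t • W₁ q → p = q

/-- all sectional curvatures lie in `[-hi, -lo]` -/
def Pinch (h : Met 3) (C : Chr 3) (lo hi : ℝ) : Prop := ∀ x u v,
  -hi * (h x u u * h x v v - h x u v ^ 2) ≤ h x (Rm C x u v v) u ∧
  h x (Rm C x u v v) u ≤ -lo * (h x u u * h x v v - h x u v ^ 2)

/-! the statements that the block exports -/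

/-- Gauss-Bonnet -/
def SGB : Prop := ∀ (h : Met 3) (C : Chr 3) (lo hi ε : ℝ) (Y W W₁ : V → V) (K : ℝ × V → V),
  Riem h → GamP h C → lo ≤ hi → Pinch h C lo hi → Front h Y W → Hom0 W₁ → RayInj W₁ →
  Htp W W₁ K → (ε = 1 ∨ ε = -1) →
  ∫ v in ball (0 : V) 1, (ε * dP h C Y W v - (lo + hi) / 2 * (ε * dA h Y W v) -
    (hi - lo) / 2 * |dA h Y W v|) ≤ volume.real (ball (0 : V) 1)

/-- the two determinants are continuous functions on the sphere -/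
def SCD : Prop := ∀ (h : Met 3) (C : Chr 3) (Y W : V → V), Riem h → GamP h C → Hom0 Y → Hom0 W →
  Con0 (dA h Y W) ∧ Con0 (dP h C Y W)

/-- continuous functions on the sphere are integrable -/
def SCI : Prop := ∀ J : V → ℝ, Con0 J → IntegrableOn J (ball (0 : V) 1)

/-- the determinants in orthonormal frames -/
def SFR : Prop := ∀ (h : Met 3) (y v e₁ e₂ w f₁ f₂ : V), Riem h → ‖v‖ = 1 → ‖e₁‖ = 1 →
  ‖e₂‖ = 1 → ⟪v, e₁⟫ = 0 → ⟪v, e₂⟫ = 0 → ⟪e₁, e₂⟫ = 0 → h y w w = 1 → h y f₁ f₁ = 1 →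
  h y f₂ f₂ = 1 → h y w f₁ = 0 → h y w f₂ = 0 → h y f₁ f₂ = 0 → ∃ σ : ℝ, (σ = 1 ∨ σ = -1) ∧
    ∀ (D : V →L[ℝ] V) (a b c d : ℝ), D v = 0 → D e₁ = a • f₁ + c • f₂ → D e₂ = b • f₁ + d • f₂ →
      dens h y * (ext v w D).det = σ * (a * d - b * c)

/-- a `C¹` map that preserves a one-form preserves its exterior derivative -/
def SGREEN : Prop := ∀ (Z F F' : Type) [NormedAddCommGroup Z] [NormedSpace ℝ Z]
  [NormedAddCommGroup F] [NormedSpace ℝ F] [NormedAddCommGroup F'] [NormedSpace ℝ F']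
  (q : Z → F) (r : Z → F →L[ℝ] ℝ) (q' : Z → F') (r' : Z → F' →L[ℝ] ℝ) (z : Z),
  ContDiffAt ℝ 1 q z → ContDiffAt ℝ 1 r z → ContDiffAt ℝ 1 q' z → ContDiffAt ℝ 1 r' z →
  (∀ᶠ x in nhds z, ∀ e, r x (fderiv ℝ q x e) = r' x (fderiv ℝ q' x e)) → ∀ a b : Z,
    fderiv ℝ r z a (fderiv ℝ q z b) - fderiv ℝ r z b (fderiv ℝ q z a) =
    fderiv ℝ r' z a (fderiv ℝ q' z b) - fderiv ℝ r' z b (fderiv ℝ q' z a)

/-! the rows -/

def SNL : Prop := ∀ A : V → V, ContDiff ℝ 1 A → HasCompactSupport A →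
  ∫ v, (fderiv ℝ A v).det = 0

def SPOL : Prop := ∀ (J : V → ℝ) (f : ℝ → ℝ) (a b : ℝ), Con0 J → Continuous f → 0 < a →
  (∀ r, r ∉ Icc a b → f r = 0) → Integrable (fun v : V => f ‖v‖ * J v) ∧
    ∫ v : V, f ‖v‖ * J v = 3 * (∫ r, f r * r ^ 2) * ∫ v in ball (0 : V) 1, J v

def SHOM : Prop := ∀ (F : Type) [NormedAddCommGroup F] [NormedSpace ℝ F] (H : V → F), Hom0 H →
  ContinuousOn (fderiv ℝ H) {0}ᶜ ∧ (∀ v, v ≠ 0 → DifferentiableAt ℝ H v) ∧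
  (∀ v, v ≠ 0 → fderiv ℝ H v v = 0) ∧
  ∀ (v : V) (t : ℝ), 0 < t → ‖t • v‖ • fderiv ℝ H (t • v) = ‖v‖ • fderiv ℝ H v

def SDET : Prop := ∀ (v w : V) (D : V →L[ℝ] V), v ≠ 0 → D v = 0 →
  (ext v w D).det = ev v fun a b => trip w (D a) (D b)

def SDET3 : Prop := ∀ D : V →L[ℝ] V, D.det = trip (D (bv 0)) (D (bv 1)) (D (bv 2))

def SJC : Prop := (∀ H : V → V, Hom0 H → Con0 (jac H)) ∧
  ∀ f g : V → ℝ, Hom0 f → Hom0 g → Con0 (br f g)

def SBR : Prop := ∀ f g : V → ℝ, Hom0 f → Hom0 g → ∫ v in ball (0 : V) 1, br f g v = 0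

/-- a `C¹` self map of the sphere -/
structure Sph (H : V → V) : Prop where
  h0 : Hom0 H
  unit : ∀ v, v ≠ 0 → ‖H v‖ = 1

def SNA : Prop := ∀ H₀ H₁ : V → V, Sph H₀ → Sph H₁ → (∀ v, v ≠ 0 → H₀ v + H₁ v ≠ 0) →
  ∫ v in ball (0 : V) 1, jac H₀ v = ∫ v in ball (0 : V) 1, jac H₁ v

def SAPP : Prop := ∀ k : V → V, ContinuousOn k (sphere 0 1) → (∀ p ∈ sphere (0 : V) 1, ‖k p‖ = 1) →
  ∃ H, Sph H ∧ ∀ p ∈ sphere (0 : V) 1, ‖H p - k p‖ ≤ 1 / 2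

def SCH : Prop := ∀ (H₀ H₁ : V → V) (K : ℝ × V → V), Sph H₀ → Sph H₁ → Htp H₀ H₁ K →
  ∫ v in ball (0 : V) 1, jac H₀ v = ∫ v in ball (0 : V) 1, jac H₁ v

def SINJ : Prop := ∀ H : V → V, Sph H → InjOn H (sphere 0 1) →
  |∫ v in ball (0 : V) 1, jac H v| ≤ volume.real (ball (0 : V) 1)

/-- an orthonormal coframe -/
structure FrP (h : Met 3) (θ : V → V →L[ℝ] V) : Prop where
  smooth : ContDiff ℝ 2 θ
  iso : ∀ y u v, ⟪θ y u, θ y v⟫ = h y u v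
  det : ∀ y, (θ y).det = dens h y
  pos : ∀ (y w : V) (t : ℝ), 0 ≤ t → θ y w + t • w = 0 → w = 0

def SFRAME : Prop := ∀ h : Met 3, Riem h → ∃ θ, FrP h θ

/-- the connection form of the coframe -/
structure CoP (C : Chr 3) (θ Ξ : V → V →L[ℝ] V) : Prop where
  smooth : ContDiff ℝ 1 Ξ
  conn : ∀ y u w, θ y (C y u w) - fderiv ℝ θ y u w = cr (Ξ y u) (θ y w)

def SCONN : Prop := ∀ (h : Met 3) (C : Chr 3) (θ : V → V →L[ℝ] V), GamP h C → FrP h θ →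
  ∃ Ξ, CoP C θ Ξ

/-- the curvature form -/
noncomputable def Om (Ξ : V → V →L[ℝ] V) (y u v : V) : V :=
  fderiv ℝ Ξ y u v - fderiv ℝ Ξ y v u + cr (Ξ y u) (Ξ y v)

def SCURV : Prop := ∀ (h : Met 3) (C : Chr 3) (θ Ξ : V → V →L[ℝ] V), GamP h C → FrP h θ →
  CoP C θ Ξ → ∀ y u v w, θ y (Rm C y u v w) = cr (Om Ξ y u v) (θ y w)

def SKP : Prop := ∀ (h : Met 3) (C : Chr 3) (θ Ξ : V → V →L[ℝ] V) (lo hi : ℝ) (y w : V),
  FrP h θ → (∀ u v x, θ y (Rm C y u v x) = cr (Om Ξ y u v) (θ y x)) → lo ≤ hi →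
  Pinch h C lo hi → h y w w = 1 → ∃ κ : ℝ, lo ≤ κ ∧ κ ≤ hi ∧ ∀ u v, h y w u = 0 → h y w v = 0 →
    ⟪θ y w, Om Ξ y u v⟫ = κ * trip (θ y w) (θ y u) (θ y v)

/-- the normal in the frame -/
noncomputable def gs (θ : V → V →L[ℝ] V) (Y W : V → V) (v : V) : V := θ (Y v) (W v)

/-- the coefficients of the potential -/
noncomputable def be (θ Ξ : V → V →L[ℝ] V) (Y W : V → V) (j : Fin 3) (v : V) : ℝ :=
  ⟪gs θ Y W v, Ξ (Y v) (bv j)⟫

def SGS : Prop := ∀ (h : Met 3) (θ Ξ : V → V →L[ℝ] V) (Y W : V → V), FrP h θ → ContDiff ℝ 1 Ξ →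
  Front h Y W → Sph (gs θ Y W) ∧ (∀ j, Hom0 (be θ Ξ Y W j)) ∧ ∀ j, Hom0 fun v => Y v j

def SPT : Prop := ∀ (h : Met 3) (C : Chr 3) (θ Ξ : V → V →L[ℝ] V) (Y W : V → V) (v : V) (κ : ℝ),
  FrP h θ → CoP C θ Ξ → Front h Y W → v ≠ 0 →
  (∀ a b, h (Y v) (W v) a = 0 → h (Y v) (W v) b = 0 → ⟪θ (Y v) (W v), Om Ξ (Y v) a b⟫ =
    κ * trip (θ (Y v) (W v)) (θ (Y v) a) (θ (Y v) b)) →
  dP h C Y W v - κ * dA h Y W v =
    jac (gs θ Y W) v - ∑ j, br (be θ Ξ Y W j) (fun x => Y x j) v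

end Pool.Agent.MP_3ee8cb_gt.D3GB
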