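import Pool.Agent.MP_3ee8cb_gt.D3GB.Spec

/-! Homogeneous functions of degree zero and determinants in dimension three. -/

namespace Pool.Agent.MP_3ee8cb_gt.D3GB

open Pool.Agent.MP_3ee8cb_gt.CR Pool.Agent.MP_3ee8cb_gt.TB Set MeasureTheory Metric
open scoped RealInnerProductSpace

namespace RHOM

variable {F : Type} [NormedAddCommGroup F] [NormedSpace ℝ F] {H : V → F}

lemma diff (hH : Hom0 H) {v : V} (hv : v ≠ 0) : DifferentiableAt ℝ H v :=
  (hH.c1.contDiffAt (isOpen_compl_singleton.mem_nhds hv)).differentiableAt one_ne_zero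

lemma cont (hH : Hom0 H) : ContinuousOn (fderiv ℝ H) {0}ᶜ :=
  hH.c1.continuousOn_fderiv_of_isOpen isOpen_compl_singleton le_rfl

lemma scale (hH : Hom0 H) {v : V} (hv : v ≠ 0) {t : ℝ} (ht : 0 < t) :
    fderiv ℝ H v = t • fderiv ℝ H (t • v) := by
  have h1 : HasFDerivAt (fun x : V => t • x) (t • ContinuousLinearMap.id ℝ V) v :=
    (hasFDerivAt_id v).const_smul t
  have h2 := (diff hH (smul_ne_zero ht.ne' hv)).hasFDerivAt.comp v h1
  have e : (H ∘ fun x : V => t • x) = H := funext fun x => hH.hom x t ht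
  rw [e] at h2
  rw [h2.fderiv]
  ext a
  simp

lemma radial (hH : Hom0 H) {v : V} (hv : v ≠ 0) : fderiv ℝ H v v = 0 := by
  have h1 : HasDerivAt (fun s : ℝ => s • v) v 1 := by
    simpa using (hasDerivAt_id (1 : ℝ)).smul_const v
  have h0 : HasFDerivAt H (fderiv ℝ H v) ((fun s : ℝ => s • v) 1) := by
    simpa using (diff hH hv).hasFDerivAt
  have h2 := h0.comp_hasDerivAt (1 : ℝ) h1
  have e : (H ∘ fun s : ℝ => s • v) =ᶠ[nhds 1] fun _ => H v :=
    (lt_mem_nhds (zero_lt_one' ℝ)).mono fun s hs => hH.hom v s hs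
  exact (h2.congr_of_eventuallyEq e.symm).unique (hasDerivAt_const _ _)

lemma nsm (v : V) {t : ℝ} (ht : 0 < t) : ‖t • v‖ = t * ‖v‖ := by
  rw [norm_smul, Real.norm_of_nonneg ht.le]

lemma scale' (hH : Hom0 H) (v : V) {t : ℝ} (ht : 0 < t) :
    ‖t • v‖ • fderiv ℝ H (t • v) = ‖v‖ • fderiv ℝ H v := by
  rcases eq_or_ne v 0 with rfl | hv
  · rw [smul_zero]
  · rw [scale hH hv ht, nsm v ht, smul_smul, mul_comm]

lemma dec (v : V) : v = v 0 • bv 0 + v 1 • bv 1 + v 2 • bv 2 := by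
  ext i
  fin_cases i <;> simp [bv]

lemma ext_bv (v w : V) (D : V →L[ℝ] V) (i j : Fin 3) :
    ext v w D (bv i) j = ‖v‖ * D (bv i) j + ‖v‖⁻¹ * v i * w j := by
  simp [ext, bv, EuclideanSpace.inner_single_right]

end RHOM

open RHOM

theorem rHOM : SHOM := fun _ _ _ _ hH =>
  ⟨cont hH, fun _ hv => diff hH hv, fun _ hv => radial hH hv, fun v _ ht => scale' hH v ht⟩

theorem rDET3 : SDET3 := by
  intro D
  have e := LinearMap.det_toMatrix (EuclideanSpace.basisFun (Fin 3) ℝ).toBasis (D : V →ₗ[ℝ] V)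
  rw [ContinuousLinearMap.det, ← e, Matrix.det_fin_three]
  simp only [LinearMap.toMatrix_apply, OrthonormalBasis.coe_toBasis,
    OrthonormalBasis.coe_toBasis_repr_apply, EuclideanSpace.basisFun_repr,
    EuclideanSpace.basisFun_apply, ContinuousLinearMap.coe_coe, trip, bv]
  ring

theorem rDET : SDET := by
  intro v w D hv hD
  have hn : ‖v‖ ≠ 0 := norm_ne_zero_iff.2 hv
  have h : ∀ j, v 0 * D (bv 0) j + v 1 * D (bv 1) j + v 2 * D (bv 2) j = 0 := fun j => by
    have h1 : D (v 0 • bv 0 + v 1 • bv 1 + v 2 • bv 2) j = 0 := by rw [← dec v, hD]; rfl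
    simpa using h1
  have hs : ‖v‖ ^ 2 = v 0 ^ 2 + v 1 ^ 2 + v 2 ^ 2 := by
    rw [EuclideanSpace.norm_sq_eq, Fin.sum_univ_three]; simp
  have hT : trip (D (bv 0)) (D (bv 1)) (D (bv 2)) = 0 := by
    refine (mul_eq_zero.1 (?_ : ‖v‖ ^ 2 * _ = 0)).resolve_left (pow_ne_zero 2 hn)
    have h0 := h 0
    have h1 := h 1
    have h2 := h 2
    rw [hs, trip]
    generalize D (bv 0) = a at *
    generalize D (bv 1) = b at *
    generalize D (bv 2) = c at *
    linear_combination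
      (v 0 * (b 1 * c 2 - b 2 * c 1) + v 1 * (c 1 * a 2 - c 2 * a 1) +
        v 2 * (a 1 * b 2 - a 2 * b 1)) * h0 +
      (v 0 * (b 2 * c 0 - b 0 * c 2) + v 1 * (c 2 * a 0 - c 0 * a 2) +
        v 2 * (a 2 * b 0 - a 0 * b 2)) * h1 +
      (v 0 * (b 0 * c 1 - b 1 * c 0) + v 1 * (c 0 * a 1 - c 1 * a 0) +
        v 2 * (a 0 * b 1 - a 1 * b 0)) * h2
  have hi : ‖v‖ * ‖v‖⁻¹ = 1 := mul_inv_cancel₀ hn
  rw [rDET3]
  simp only [trip, ev, ext_bv] at hT ⊢
  generalize D (bv 0) = a at *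
  generalize D (bv 1) = b at *
  generalize D (bv 2) = c at *
  generalize ‖v‖⁻¹ = m at *
  generalize ‖v‖ = n at *
  linear_combination n ^ 3 * hT + n * (v 0 * (w 0 * (b 1 * c 2 - b 2 * c 1) +
      w 1 * (b 2 * c 0 - b 0 * c 2) + w 2 * (b 0 * c 1 - b 1 * c 0)) +
    v 1 * (w 0 * (c 1 * a 2 - c 2 * a 1) + w 1 * (c 2 * a 0 - c 0 * a 2) +
      w 2 * (c 0 * a 1 - c 1 * a 0)) +
    v 2 * (w 0 * (a 1 * b 2 - a 2 * b 1) + w 1 * (a 2 * b 0 - a 0 * b 2) +
      w 2 * (a 0 * b 1 - a 1 * b 0))) * hi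

theorem rJC : SJC := by
  have hx : ∀ i : Fin 3, ContinuousOn (fun v : V => v i) {0}ᶜ := fun i => by fun_prop
  refine ⟨fun H hH => ⟨?_, fun v t ht => ?_⟩, fun f g hf hg => ⟨?_, fun v t ht => ?_⟩⟩
  · have hd : ∀ i j : Fin 3, ContinuousOn (fun v : V => fderiv ℝ H v (bv i) j) {0}ᶜ := fun i j =>
      (by fun_prop : Continuous fun x : V => x j).comp_continuousOn
        ((cont hH).clm_apply continuousOn_const)
    have hh : ∀ j : Fin 3, ContinuousOn (fun v : V => H v j) {0}ᶜ := fun j =>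
      (by fun_prop : Continuous fun x : V => x j).comp_continuousOn hH.c1.continuousOn
    have ht : ∀ i k : Fin 3, ContinuousOn
        (fun v : V => trip (H v) (fderiv ℝ H v (bv i)) (fderiv ℝ H v (bv k))) {0}ᶜ := fun i k =>
      (((hh 0).mul (((hd i 1).mul (hd k 2)).sub ((hd i 2).mul (hd k 1)))).add
        ((hh 1).mul (((hd i 2).mul (hd k 0)).sub ((hd i 0).mul (hd k 2))))).add
        ((hh 2).mul (((hd i 0).mul (hd k 1)).sub ((hd i 1).mul (hd k 0))))
    refine ContinuousOn.congr (f := fun v => ev v fun a b =>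
      trip (H v) (fderiv ℝ H v a) (fderiv ℝ H v b)) ?_ fun v hv => rDET v _ _ hv (radial hH hv)
    exact continuous_norm.continuousOn.mul ((((hx 0).mul (ht 1 2)).add ((hx 1).mul (ht 2 0))).add
      ((hx 2).mul (ht 0 1)))
  · have e : ‖t • v‖⁻¹ • t • v = ‖v‖⁻¹ • v := by
      rw [nsm v ht, smul_smul, mul_inv, mul_comm t⁻¹, mul_assoc, inv_mul_cancel₀ ht.ne', mul_one]
    rw [jac, jac, ext, ext, scale' hH v ht, e, hH.hom v t ht]
  · have hd : ∀ i : Fin 3, ContinuousOn (fun v : V => fderiv ℝ f v (bv i)) {0}ᶜ := fun i =>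
      (cont hf).clm_apply continuousOn_const
    have he : ∀ i : Fin 3, ContinuousOn (fun v : V => fderiv ℝ g v (bv i)) {0}ᶜ := fun i =>
      (cont hg).clm_apply continuousOn_const
    exact continuous_norm.continuousOn.mul
      ((((hx 0).mul (((hd 1).mul (he 2)).sub ((hd 2).mul (he 1)))).add
        ((hx 1).mul (((hd 2).mul (he 0)).sub ((hd 0).mul (he 2))))).add
        ((hx 2).mul (((hd 0).mul (he 1)).sub ((hd 1).mul (he 0)))))
  · rcases eq_or_ne v 0 with rfl | hv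
    · rw [smul_zero]
    · rw [br, br, scale hf hv ht, scale hg hv ht]
      simp only [ev, nsm v ht, PiLp.smul_apply, smul_apply, smul_eq_mul]
      ring

end Pool.Agent.MP_3ee8cb_gt.D3GB
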