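import Pool.Agent.MP_3ee8cb_gt.D3GB.Spec

/-! The triangular orthonormal coframe of a metric. -/

namespace Pool.Agent.MP_3ee8cb_gt.D3GB

open Pool.Agent.MP_3ee8cb_gt.CR Pool.Agent.MP_3ee8cb_gt.TB
open scoped RealInnerProductSpace

namespace RFRAME

/-- the elementary map -/
noncomputable def el (i j : Fin 3) : V →L[ℝ] V :=
  (EuclideanSpace.proj j : V →L[ℝ] ℝ).smulRight (bv i)

/-- the triangular map -/
noncomputable def tri (a b c d e f : ℝ) : V →L[ℝ] V :=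
  a • el 0 0 + b • el 0 1 + c • el 0 2 + d • el 1 1 + e • el 1 2 + f • el 2 2

variable {a b c d e f : ℝ}

theorem tri0 (u : V) : tri a b c d e f u 0 = a * u 0 + b * u 1 + c * u 2 := by simp [tri, el, bv]

theorem tri1 (u : V) : tri a b c d e f u 1 = d * u 1 + e * u 2 := by simp [tri, el, bv]

theorem tri2 (u : V) : tri a b c d e f u 2 = f * u 2 := by simp [tri, el, bv]

theorem tri_det : (tri a b c d e f).det = a * d * f := by
  rw [ContinuousLinearMap.det, ← LinearMap.det_toMatrix (EuclideanSpace.basisFun (Fin 3) ℝ).toBasis,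
    Matrix.det_fin_three]
  simp [LinearMap.toMatrix_apply, tri0, tri1, tri2]

theorem dec (u : V) : u = u 0 • bv 0 + u 1 • bv 1 + u 2 • bv 2 := by
  ext i
  fin_cases i <;> simp [bv]

theorem expand (B : V →L[ℝ] V →L[ℝ] ℝ) (hs : ∀ u v, B u v = B v u) (u v : V) :
    B u v = u 0 * v 0 * B (bv 0) (bv 0) + (u 0 * v 1 + u 1 * v 0) * B (bv 0) (bv 1) +
      (u 0 * v 2 + u 2 * v 0) * B (bv 0) (bv 2) + u 1 * v 1 * B (bv 1) (bv 1) +
      (u 1 * v 2 + u 2 * v 1) * B (bv 1) (bv 2) + u 2 * v 2 * B (bv 2) (bv 2) := by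
  conv_lhs => rw [dec u, dec v]
  simp only [map_add, map_smul, add_apply, smul_apply, smul_eq_mul]
  rw [hs (bv 1) (bv 0), hs (bv 2) (bv 0), hs (bv 2) (bv 1)]
  ring

end RFRAME

open RFRAME in
theorem rFRAME : SFRAME := by
  intro h H
  have sm : ∀ i j, ContDiff ℝ 2 fun y => h y (bv i) (bv j) := fun i j =>
    (H.smooth.clm_apply contDiff_const).clm_apply contDiff_const
  have po : ∀ (y : V) (x₀ x₁ x₂ : ℝ), (x₀ = 1 ∨ x₁ = 1 ∨ x₂ = 1) →
      0 < x₀ * x₀ * h y (bv 0) (bv 0) + (x₀ * x₁ + x₁ * x₀) * h y (bv 0) (bv 1) +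
        (x₀ * x₂ + x₂ * x₀) * h y (bv 0) (bv 2) + x₁ * x₁ * h y (bv 1) (bv 1) +
        (x₁ * x₂ + x₂ * x₁) * h y (bv 1) (bv 2) + x₂ * x₂ * h y (bv 2) (bv 2) := by
    intro y x₀ x₁ x₂ hx
    have := H.pos y (WithLp.toLp 2 ![x₀, x₁, x₂]) fun z => by
      have h0 : x₀ = 0 := congrArg (fun u : V => u 0) z
      have h1 : x₁ = 0 := congrArg (fun u : V => u 1) z
      have h2 : x₂ = 0 := congrArg (fun u : V => u 2) z
      simp [h0, h1, h2] at hx
    rwa [expand _ (H.symm y)] at this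
  obtain ⟨a, sa, a0, ea⟩ : ∃ a : V → ℝ, ContDiff ℝ 2 a ∧ (∀ y, 0 < a y) ∧
      ∀ y, h y (bv 0) (bv 0) = a y * a y := by
    have : ∀ y, 0 < h y (bv 0) (bv 0) := fun y => by simpa using po y 1 0 0 (Or.inl rfl)
    exact ⟨_, (sm 0 0).sqrt fun y => (this y).ne', fun y => Real.sqrt_pos.2 (this y),
      fun y => (Real.mul_self_sqrt (this y).le).symm⟩
  obtain ⟨b, sb, eb⟩ : ∃ b : V → ℝ, ContDiff ℝ 2 b ∧ ∀ y, h y (bv 0) (bv 1) = a y * b y :=
    ⟨_, (sm 0 1).div sa fun y => (a0 y).ne', fun y => (mul_div_cancel₀ _ (a0 y).ne').symm⟩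
  obtain ⟨c, sc, ec⟩ : ∃ c : V → ℝ, ContDiff ℝ 2 c ∧ ∀ y, h y (bv 0) (bv 2) = a y * c y :=
    ⟨_, (sm 0 2).div sa fun y => (a0 y).ne', fun y => (mul_div_cancel₀ _ (a0 y).ne').symm⟩
  obtain ⟨d, sd, d0, ed⟩ : ∃ d : V → ℝ, ContDiff ℝ 2 d ∧ (∀ y, 0 < d y) ∧
      ∀ y, h y (bv 1) (bv 1) = b y * b y + d y * d y := by
    have : ∀ y, 0 < h y (bv 1) (bv 1) - b y * b y := fun y => by
      obtain ⟨x, hx⟩ : ∃ x, b y = -(a y * x) :=
        ⟨-(b y / a y), by rw [mul_neg, neg_neg, mul_div_cancel₀ _ (a0 y).ne']⟩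
      have := po y x 1 0 (Or.inr (Or.inl rfl))
      rw [ea, eb] at this
      rw [hx] at this ⊢
      linarith
    exact ⟨_, ((sm 1 1).sub (sb.mul sb)).sqrt fun y => (this y).ne',
      fun y => Real.sqrt_pos.2 (this y), fun y => by rw [Real.mul_self_sqrt (this y).le]; ring⟩
  obtain ⟨e, se, ee⟩ : ∃ e : V → ℝ, ContDiff ℝ 2 e ∧
      ∀ y, h y (bv 1) (bv 2) = b y * c y + d y * e y :=
    ⟨_, ((sm 1 2).sub (sb.mul sc)).div sd fun y => (d0 y).ne', fun y => by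
      rw [Pi.div_apply, mul_div_cancel₀ _ (d0 y).ne']; ring⟩
  obtain ⟨f, sf, f0, ef⟩ : ∃ f : V → ℝ, ContDiff ℝ 2 f ∧ (∀ y, 0 < f y) ∧
      ∀ y, h y (bv 2) (bv 2) = c y * c y + e y * e y + f y * f y := by
    have : ∀ y, 0 < h y (bv 2) (bv 2) - (c y * c y + e y * e y) := fun y => by
      obtain ⟨x₁, h1⟩ : ∃ x, e y = -(d y * x) :=
        ⟨-(e y / d y), by rw [mul_neg, neg_neg, mul_div_cancel₀ _ (d0 y).ne']⟩
      obtain ⟨x₀, h0⟩ : ∃ x, c y = -(a y * x) - b y * x₁ :=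
        ⟨-((c y + b y * x₁) / a y), by rw [mul_neg, neg_neg, mul_div_cancel₀ _ (a0 y).ne']; ring⟩
      have := po y x₀ x₁ 1 (Or.inr (Or.inr rfl))
      rw [ea, eb, ec, ed, ee] at this
      rw [h0, h1] at this ⊢
      linarith
    exact ⟨_, ((sm 2 2).sub ((sc.mul sc).add (se.mul se))).sqrt fun y => (this y).ne',
      fun y => Real.sqrt_pos.2 (this y), fun y => by rw [Real.mul_self_sqrt (this y).le]; ring⟩
  refine ⟨fun y => tri (a y) (b y) (c y) (d y) (e y) (f y), ?_, fun y u v => ?_, fun y => ?_,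
    fun y w t ht hw => ?_⟩
  · exact (((((sa.smul contDiff_const).add (sb.smul contDiff_const)).add
      (sc.smul contDiff_const)).add (sd.smul contDiff_const)).add (se.smul contDiff_const)).add
      (sf.smul contDiff_const)
  · rw [expand _ (H.symm y), ea, eb, ec, ed, ee, ef, PiLp.inner_apply, Fin.sum_univ_three]
    simp only [tri0, tri1, tri2, RCLike.inner_apply, conj_trivial]
    ring
  · rw [tri_det, dens, Matrix.det_fin_three]
    refine ((Real.sqrt_eq_iff_mul_self_eq_of_pos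
      (mul_pos (mul_pos (a0 y) (d0 y)) (f0 y))).2 ?_).symm
    change _ = h y (bv 0) (bv 0) * h y (bv 1) (bv 1) * h y (bv 2) (bv 2) -
      h y (bv 0) (bv 0) * h y (bv 1) (bv 2) * h y (bv 2) (bv 1) -
      h y (bv 0) (bv 1) * h y (bv 1) (bv 0) * h y (bv 2) (bv 2) +
      h y (bv 0) (bv 1) * h y (bv 1) (bv 2) * h y (bv 2) (bv 0) +
      h y (bv 0) (bv 2) * h y (bv 1) (bv 0) * h y (bv 2) (bv 1) -
      h y (bv 0) (bv 2) * h y (bv 1) (bv 1) * h y (bv 2) (bv 0)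
    rw [H.symm y (bv 1) (bv 0), H.symm y (bv 2) (bv 0), H.symm y (bv 2) (bv 1), ea, eb, ec, ed, ee,
      ef]
    ring
  · have h0 : a y * w 0 + b y * w 1 + c y * w 2 + t * w 0 = 0 := by
      rw [← tri0 (d := d y) (e := e y) (f := f y)]
      exact congrArg (fun u : V => u 0) hw
    have h1 : d y * w 1 + e y * w 2 + t * w 1 = 0 := by
      rw [← tri1 (a := a y) (b := b y) (c := c y) (f := f y)]
      exact congrArg (fun u : V => u 1) hw
    have h2 : f y * w 2 + t * w 2 = 0 := by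
      rw [← tri2 (a := a y) (b := b y) (c := c y) (d := d y) (e := e y)]
      exact congrArg (fun u : V => u 2) hw
    have k2 : w 2 = 0 := (mul_eq_zero.1 (by linarith : (f y + t) * w 2 = 0)).resolve_left
      (add_pos_of_pos_of_nonneg (f0 y) ht).ne'
    rw [k2] at h0 h1
    have k1 : w 1 = 0 := (mul_eq_zero.1 (by linarith : (d y + t) * w 1 = 0)).resolve_left
      (add_pos_of_pos_of_nonneg (d0 y) ht).ne'
    rw [k1] at h0
    have k0 : w 0 = 0 := (mul_eq_zero.1 (by linarith : (a y + t) * w 0 = 0)).resolve_left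
      (add_pos_of_pos_of_nonneg (a0 y) ht).ne'
    rw [dec w, k0, k1, k2]
    simp

end Pool.Agent.MP_3ee8cb_gt.D3GB
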