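import Pool.Agent.MP_3ee8cb_gt.D3GB.Spec

/-! Approximation of a continuous self map of the sphere by a `C¹` one. -/

namespace Pool.Agent.MP_3ee8cb_gt.D3GB

open Pool.Agent.MP_3ee8cb_gt.CR Pool.Agent.MP_3ee8cb_gt.TB Set MeasureTheory Metric
open scoped RealInnerProductSpace

namespace RAPP

theorem extend (k : V → V) (hk : ContinuousOn k (sphere 0 1)) :
    ∃ f : V → V, Continuous f ∧ ∀ p ∈ sphere (0 : V) 1, f p = k p := by
  have : TietzeExtension.{0, 0} V := TietzeExtension.of_tvs ℝ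
  let k' : C(sphere (0 : V) 1, V) := ⟨fun p => k p, hk.domRestrict⟩
  obtain ⟨g, hg⟩ := ContinuousMap.exists_restrict_eq (isClosed_sphere) k'
  refine ⟨g, g.continuous, fun p hp => ?_⟩
  exact DFunLike.congr_fun hg ⟨p, hp⟩

theorem unit_mem {v : V} (hv : v ≠ 0) : ‖v‖⁻¹ • v ∈ sphere (0 : V) 1 := by
  have : ‖v‖ ≠ 0 := norm_ne_zero_iff.mpr hv
  rw [mem_sphere_zero_iff_norm, norm_smul, norm_inv, norm_norm, inv_mul_cancel₀ this]

theorem unit_hom (v : V) (t : ℝ) (ht : 0 < t) : ‖t • v‖⁻¹ • (t • v) = ‖v‖⁻¹ • v := by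
  rw [norm_smul, Real.norm_of_nonneg ht.le, smul_smul, mul_inv, mul_comm t⁻¹, mul_assoc,
    inv_mul_cancel₀ ht.ne', mul_one]

theorem unit_cd {v : V} (hv : v ≠ 0) : ContDiffAt ℝ 1 (fun v : V => ‖v‖⁻¹ • v) v :=
  ((contDiffAt_norm ℝ hv).inv (norm_ne_zero_iff.mpr hv)).smul contDiffAt_id

theorem close {a b : V} (hb : ‖b‖ = 1) (hab : ‖a - b‖ < 1 / 4) :
    a ≠ 0 ∧ ‖‖a‖⁻¹ • a - b‖ ≤ 1 / 2 := by
  have h1 : |‖a‖ - 1| < 1 / 4 := by
    have := (abs_norm_sub_norm_le a b).trans_lt hab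
    rwa [hb] at this
  have h2 : 0 < ‖a‖ := by have := (abs_lt.mp h1).1; linarith
  refine ⟨norm_pos_iff.mp h2, ?_⟩
  have h3 : ‖‖a‖⁻¹ • a - a‖ = |‖a‖ - 1| := by
    have e : ‖a‖⁻¹ • a - a = (‖a‖⁻¹ - 1) • a := by rw [sub_smul, one_smul]
    rw [e, norm_smul, Real.norm_eq_abs, ← abs_of_pos h2, ← abs_mul, abs_of_pos h2, sub_mul,
      inv_mul_cancel₀ h2.ne', one_mul, abs_sub_comm]
  have h4 : ‖a‖⁻¹ • a - b = (‖a‖⁻¹ • a - a) + (a - b) := by abel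
  rw [h4]
  have := norm_add_le (‖a‖⁻¹ • a - a) (a - b)
  linarith

end RAPP

open RAPP in
theorem rAPP : SAPP := by
  intro k hk h1
  obtain ⟨f, hf, hfk⟩ := extend k hk
  obtain ⟨g, hg, hgf, -⟩ := hf.exists_contDiff_approx 1 (ε := fun _ => (1 / 4 : ℝ))
    continuous_const (fun _ => by norm_num)
  have hc : ∀ p ∈ sphere (0 : V) 1, g p ≠ 0 ∧ ‖‖g p‖⁻¹ • g p - k p‖ ≤ 1 / 2 := by
    intro p hp
    refine close (h1 p hp) ?_
    have := hgf p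
    rwa [dist_eq_norm, hfk p hp] at this
  refine ⟨fun v => ‖g (‖v‖⁻¹ • v)‖⁻¹ • g (‖v‖⁻¹ • v), ⟨⟨?_, ?_⟩, ?_⟩, ?_⟩
  · intro v hv
    have hv' : v ≠ 0 := hv
    have a1 : ContDiffAt ℝ 1 (fun v : V => g (‖v‖⁻¹ • v)) v :=
      ContDiffAt.comp v (g := g) (by exact_mod_cast hg.contDiffAt) (unit_cd hv')
    exact (ContDiffAt.comp v (g := fun w : V => ‖w‖⁻¹ • w)
      (unit_cd (hc _ (unit_mem hv')).1) a1).contDiffWithinAt
  · intro v t ht
    simp only [unit_hom v t ht]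
  · intro v hv
    exact mem_sphere_zero_iff_norm.mp (unit_mem (hc _ (unit_mem hv)).1)
  · intro p hp
    have e : ‖p‖⁻¹ • p = p := by
      rw [mem_sphere_zero_iff_norm.mp hp, inv_one, one_smul]
    simp only [e]
    exact (hc p hp).2

end Pool.Agent.MP_3ee8cb_gt.D3GB
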