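import Pool.Agent.MP_3ee8cb_gt.D3GB.Spec

/-! The integral of `df ∧ dg` over the sphere vanishes. -/

namespace Pool.Agent.MP_3ee8cb_gt.D3GB

open Pool.Agent.MP_3ee8cb_gt.CR Pool.Agent.MP_3ee8cb_gt.TB Set MeasureTheory Metric Filter Topology
open scoped RealInnerProductSpace

namespace RBR

noncomputable def chi : ContDiffBump (2 : ℝ) := ⟨1 / 4, 1 / 2, by norm_num, by norm_num⟩

noncomputable def eta : ContDiffBump (2 : ℝ) := ⟨3 / 4, 1, by norm_num, by norm_num⟩

theorem chi_zero {r : ℝ} (h : r ∉ Icc (1 : ℝ) 3) : chi r = 0 := by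
  apply chi.zero_of_le_dist
  have e : chi.rOut = 1 / 2 := rfl
  rw [e, Real.dist_eq]
  simp only [mem_Icc, not_and_or, not_le] at h
  rcases h with h | h
  · rw [abs_of_neg (by linarith)]; linarith
  · rw [abs_of_pos (by linarith)]; linarith

theorem eta_zero {r : ℝ} (h : r ∉ Icc (1 : ℝ) 3) : eta r = 0 := by
  apply eta.zero_of_le_dist
  have e : eta.rOut = 1 := rfl
  rw [e, Real.dist_eq]
  simp only [mem_Icc, not_and_or, not_le] at h
  rcases h with h | h
  · rw [abs_of_neg (by linarith)]; linarith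
  · rw [abs_of_pos (by linarith)]; linarith

theorem psi_der (r : ℝ) : ∃ d, HasDerivAt (fun s => eta s * s ^ 3) d r ∧
    chi r ^ 2 * d = 3 * chi r ^ 2 * r ^ 2 := by
  by_cases h : chi r = 0
  · have h1 : ContDiff ℝ 1 (fun s => eta s * s ^ 3) := eta.contDiff.mul (contDiff_id.pow 3)
    exact ⟨_, (h1.differentiable one_ne_zero r).hasDerivAt, by simp [h]⟩
  · have h1 : r ∈ ball (2 : ℝ) chi.rOut := by
      rw [← chi.support_eq]; exact h
    have h2 : r ∈ ball (2 : ℝ) eta.rIn := by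
      have e : chi.rOut = 1 / 2 := rfl
      have e' : eta.rIn = 3 / 4 := rfl
      rw [e] at h1
      rw [e']
      exact ball_subset_ball (by norm_num) h1
    refine ⟨3 * r ^ 2, ?_, by ring⟩
    have h3 : HasDerivAt (fun s : ℝ => s ^ 3) (3 * r ^ 2) r := by
      simpa using hasDerivAt_pow 3 r
    refine h3.congr_of_eventuallyEq ?_
    filter_upwards [eta.eventuallyEq_one_of_mem_ball h2] with s hs
    simp [hs]

theorem norm_der {v : V} (hv : v ≠ 0) :
    HasFDerivAt (fun x : V => ‖x‖) (‖v‖⁻¹ • innerSL ℝ v) v := by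
  have h0 : ‖v‖ ≠ 0 := norm_ne_zero_iff.2 hv
  have h := (hasStrictFDerivAt_norm_sq v).hasFDerivAt.sqrt (pow_ne_zero 2 h0)
  simp only [Real.sqrt_sq (norm_nonneg _)] at h
  refine h.congr_fderiv ?_
  ext e
  simp
  field_simp

theorem cut {c : ℝ → ℝ} (hc : ContDiff ℝ 1 c) (h0 : ∀ r, r ∉ Icc (1 : ℝ) 3 → c r = 0)
    {u : V → ℝ} (hu : ContDiffOn ℝ 1 u {0}ᶜ) : ContDiff ℝ 1 fun v : V => c ‖v‖ * u v := by
  refine contDiff_iff_contDiffAt.2 fun v => ?_
  by_cases hv : v = 0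
  · subst hv
    refine (contDiffAt_const (c := (0 : ℝ))).congr_of_eventuallyEq ?_
    filter_upwards [ball_mem_nhds (0 : V) one_pos] with x hx
    rw [mem_ball_zero_iff] at hx
    rw [h0 _ (fun h => absurd h.1 (not_le.2 hx)), zero_mul]
  · exact (hc.contDiffAt.comp v (contDiffAt_norm ℝ hv)).mul
      (hu.contDiffAt (isOpen_compl_singleton.mem_nhds hv))

noncomputable def A (f g : V → ℝ) (v : V) : V :=
  WithLp.toLp 2 ![chi ‖v‖ * f v, chi ‖v‖ * g v, eta ‖v‖ * ‖v‖ ^ 3]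

theorem A_zero (f g : V → ℝ) {v : V} (h : ‖v‖ ∉ Icc (1 : ℝ) 3) : A f g v = 0 := by
  ext i
  fin_cases i <;> simp [A, chi_zero h, eta_zero h]

theorem A_c1 {f g : V → ℝ} (hf : Hom0 f) (hg : Hom0 g) : ContDiff ℝ 1 (A f g) := by
  refine contDiff_euclidean.2 fun i => ?_
  fin_cases i
  · exact cut chi.contDiff (fun _ => chi_zero) hf.c1
  · exact cut chi.contDiff (fun _ => chi_zero) hg.c1
  · exact cut eta.contDiff (fun _ => eta_zero) (u := fun v => ‖v‖ ^ 3)
      fun v hv => ((contDiffAt_norm ℝ hv).pow 3).contDiffWithinAt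

theorem A_cs (f g : V → ℝ) : HasCompactSupport (A f g) :=
  HasCompactSupport.intro (isCompact_closedBall (0 : V) 3) fun v hv =>
    A_zero f g fun h => hv (mem_closedBall_zero_iff.2 h.2)

theorem A_co {f g : V → ℝ} (hf : Hom0 f) (hg : Hom0 g) (v e : V) (i : Fin 3) {L : V →L[ℝ] ℝ}
    (h : HasFDerivAt (fun x => A f g x i) L v) : fderiv ℝ (A f g) v e i = L e := by
  have h1 := ((A_c1 hf hg).differentiable one_ne_zero v).hasFDerivAt
  have h2 := (EuclideanSpace.proj (𝕜 := ℝ) i).hasFDerivAt.comp v h1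
  have h3 := h2.unique h
  rw [← h3]
  rfl

theorem A_det (h4 : SDET3) {f g : V → ℝ} (hf : Hom0 f) (hg : Hom0 g) (v : V) :
    (fderiv ℝ (A f g) v).det = 3 * chi ‖v‖ ^ 2 * br f g v := by
  by_cases hv : v = 0
  · subst hv
    have h1 : A f g =ᶠ[𝓝 0] fun _ => 0 := by
      filter_upwards [ball_mem_nhds (0 : V) one_pos] with x hx
      rw [mem_ball_zero_iff] at hx
      exact A_zero f g fun h => absurd h.1 (not_le.2 hx)
    rw [h4, h1.fderiv_eq]
    simp [trip, br, ev]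
  have hn := norm_der hv
  have h0 : ‖v‖ ≠ 0 := norm_ne_zero_iff.2 hv
  have hc : ContDiff ℝ 1 chi := chi.contDiff
  have hc' := (hc.differentiable one_ne_zero ‖v‖).hasDerivAt.comp_hasFDerivAt v hn
  have hf' := ((hf.c1.contDiffAt (isOpen_compl_singleton.mem_nhds hv)).differentiableAt
    one_ne_zero).hasFDerivAt
  have hg' := ((hg.c1.contDiffAt (isOpen_compl_singleton.mem_nhds hv)).differentiableAt
    one_ne_zero).hasFDerivAt
  obtain ⟨d, hd, e⟩ := psi_der ‖v‖
  have a0 := fun x => A_co hf hg v x 0 (hc'.mul hf')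
  have a1 := fun x => A_co hf hg v x 1 (hc'.mul hg')
  have a2 := fun x => A_co hf hg v x 2 (hd.comp_hasFDerivAt v hn)
  have hi : ∀ j : Fin 3, ⟪v, bv j⟫ = v j := fun j => by
    simp [bv, EuclideanSpace.inner_single_right]
  rw [h4]
  simp only [trip, a0, a1, a2, br, ev, _root_.add_apply,
    _root_.smul_apply, innerSL_apply_apply, hi, smul_eq_mul, Function.comp]
  have e2 : ‖v‖ * ‖v‖⁻¹ = 1 := mul_inv_cancel₀ h0
  generalize ‖v‖⁻¹ = s at *
  generalize fderiv ℝ f v (bv 0) = f0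
  generalize fderiv ℝ f v (bv 1) = f1
  generalize fderiv ℝ f v (bv 2) = f2
  generalize fderiv ℝ g v (bv 0) = g0
  generalize fderiv ℝ g v (bv 1) = g1
  generalize fderiv ℝ g v (bv 2) = g2
  linear_combination (s * (v 0 * (f1 * g2 - f2 * g1) + v 1 * (f2 * g0 - f0 * g2) +
    v 2 * (f0 * g1 - f1 * g0))) * e + (3 * chi ‖v‖ ^ 2 * ‖v‖ * (v 0 * (f1 * g2 - f2 * g1) +
    v 1 * (f2 * g0 - f0 * g2) + v 2 * (f0 * g1 - f1 * g0))) * e2

theorem int_pos : 0 < ∫ r : ℝ, 3 * chi r ^ 2 * r ^ 2 := by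
  have hc : Continuous chi := chi.continuous
  refine Continuous.integral_pos_of_hasCompactSupport_nonneg_nonzero (x := (2 : ℝ))
    (by fun_prop) ?_ (fun r => by positivity) ?_
  · exact HasCompactSupport.intro (isCompact_Icc (a := (1 : ℝ)) (b := 3)) fun r hr => by
      simp [chi_zero hr]
  · have : chi (2 : ℝ) = 1 := chi.one_of_mem_closedBall (mem_closedBall_self chi.rIn_pos.le)
    rw [this]
    norm_num

end RBR

theorem rBR (h1 : SNL) (h2 : SPOL) (_h3 : SHOM) (h4 : SDET3) (h5 : SJC) : SBR := by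
  intro f g hf hg
  have hc : Continuous RBR.chi := RBR.chi.continuous
  have e1 := h1 _ (RBR.A_c1 hf hg) (RBR.A_cs f g)
  have e2 := (h2 (br f g) (fun r => 3 * RBR.chi r ^ 2) 1 3 (h5.2 f g hf hg) (by fun_prop) one_pos
    (fun r hr => by simp [RBR.chi_zero hr])).2
  simp only [RBR.A_det h4 hf hg] at e1
  rw [e1] at e2
  have e3 := RBR.int_pos
  rcases mul_eq_zero.1 e2.symm with h | h
  · exact absurd h (by positivity)
  · exact h

end Pool.Agent.MP_3ee8cb_gt.D3GB
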