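import Pool.Agent.MP_3ee8cb_gt.D3GB.Spec

/-! The integral of the Jacobian is invariant under continuous homotopies. -/

namespace Pool.Agent.MP_3ee8cb_gt.D3GB

open Set MeasureTheory Metric

namespace RCH

lemma ne0 {p : V} (hp : p ∈ sphere (0 : V) 1) : p ≠ 0 := by
  rintro rfl
  simp at hp

lemma close (h1 : SNA) {H H' : V → V} (hH : Sph H) (hH' : Sph H')
    (h : ∀ p ∈ sphere (0 : V) 1, ‖H p - H' p‖ < 2) :
    ∫ v in ball (0 : V) 1, jac H v = ∫ v in ball (0 : V) 1, jac H' v := by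
  refine h1 H H' hH hH' fun v hv h0 => ?_
  have hn : 0 < ‖v‖ := norm_pos_iff.2 hv
  have hp : ‖v‖⁻¹ • v ∈ sphere (0 : V) 1 := by
    rw [mem_sphere_zero_iff_norm, norm_smul, norm_inv, norm_norm, inv_mul_cancel₀ hn.ne']
  have h2 := h _ hp
  rw [hH.h0.hom v _ (inv_pos.2 hn), hH'.h0.hom v _ (inv_pos.2 hn),
    eq_neg_of_add_eq_zero_right h0, sub_neg_eq_add, ← two_smul ℝ, norm_smul, hH.unit v hv] at h2
  norm_num at h2

/-- the direction of a vector -/
noncomputable def dir (w : V) : V := ‖w‖⁻¹ • w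

lemma dir_norm {w : V} (hw : w ≠ 0) : ‖dir w‖ = 1 := by
  rw [dir, norm_smul, norm_inv, norm_norm, inv_mul_cancel₀ (norm_pos_iff.2 hw).ne']

lemma dir_smul {w : V} {t : ℝ} (ht : 0 < t) (hw : ‖w‖ = 1) : dir (t • w) = w := by
  rw [dir, norm_smul, hw, mul_one, Real.norm_of_nonneg ht.le, smul_smul, inv_mul_cancel₀ ht.ne',
    one_smul]

end RCH

open RCH in
theorem rCH (h1 : SNA) (h2 : SAPP) : SCH := by
  intro H₀ H₁ K h₀ h₁ hK
  have hc : ContinuousOn (fun x => dir (K x)) (Icc 0 1 ×ˢ sphere (0 : V) 1) :=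
    (hK.cont.norm.inv₀ fun x hx => (norm_pos_iff.2 (hK.ne x.1 hx.1 x.2 hx.2)).ne').smul hK.cont
  have hex : ∀ s : Icc (0 : ℝ) 1, ∃ H, Sph H ∧
      ∀ p ∈ sphere (0 : V) 1, ‖H p - dir (K (s, p))‖ ≤ 1 / 2 := fun s =>
    h2 (fun p => dir (K (s, p)))
      (hc.comp (Continuous.prodMk_right (s : ℝ)).continuousOn fun p hp => ⟨s.2, hp⟩)
      fun p hp => dir_norm (hK.ne s s.2 p hp)
  choose G hG hGK using hex
  have hu := (isCompact_Icc.prod (isCompact_sphere (0 : V) 1)).uniformContinuousOn_of_continuous hc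
  obtain ⟨δ, hδ, hu⟩ := Metric.uniformContinuousOn_iff.1 hu 1 one_pos
  have hl : IsLocallyConstant fun s : Icc (0 : ℝ) 1 => ∫ v in ball (0 : V) 1, jac (G s) v := by
    refine (IsLocallyConstant.iff_eventually_eq _).2 fun s => ?_
    filter_upwards [ball_mem_nhds s hδ] with s' hs'
    refine close h1 (hG s') (hG s) fun p hp => ?_
    have hd : dist ((s' : ℝ), p) ((s : ℝ), p) < δ := by
      rw [Prod.dist_eq, dist_self]
      exact max_lt (mem_ball.1 hs') hδ
    have h3 : dist (dir (K (s', p))) (dir (K (s, p))) < 1 :=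
      hu ((s' : ℝ), p) (mk_mem_prod s'.2 hp) ((s : ℝ), p) (mk_mem_prod s.2 hp) hd
    rw [dist_eq_norm] at h3
    have e : G s' p - G s p = (G s' p - dir (K (s', p))) + (dir (K (s', p)) - dir (K (s, p))) -
        (G s p - dir (K (s, p))) := by abel
    have h4 := norm_sub_le ((G s' p - dir (K (s', p))) + (dir (K (s', p)) - dir (K (s, p))))
      (G s p - dir (K (s, p)))
    have h5 := norm_add_le (G s' p - dir (K (s', p))) (dir (K (s', p)) - dir (K (s, p)))
    have h6 := hGK s' p hp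
    have h7 := hGK s p hp
    rw [e]
    linarith
  have : PreconnectedSpace (Icc (0 : ℝ) 1) := Subtype.preconnectedSpace isPreconnected_Icc
  have h01 := hl.apply_eq_of_preconnectedSpace ⟨0, left_mem_Icc.2 zero_le_one⟩
    ⟨1, right_mem_Icc.2 zero_le_one⟩
  refine ((close h1 (hG _) h₀ fun p hp => ?_).symm.trans h01).trans
    (close h1 (hG _) h₁ fun p hp => ?_)
  · obtain ⟨t, ht, e⟩ := hK.zero p hp
    have h3 := hGK ⟨0, left_mem_Icc.2 zero_le_one⟩ p hp
    simp only [e, dir_smul ht (h₀.unit p (ne0 hp))] at h3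
    linarith
  · obtain ⟨t, ht, e⟩ := hK.one p hp
    have h3 := hGK ⟨1, right_mem_Icc.2 zero_le_one⟩ p hp
    simp only [e, dir_smul ht (h₁.unit p (ne0 hp))] at h3
    linarith

end Pool.Agent.MP_3ee8cb_gt.D3GB
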