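import Pool.Agent.MP_3ee8cb_gt.D3GB.Spec

/-! An injective self map of the sphere has total Jacobian at most the area of the sphere. -/

namespace Pool.Agent.MP_3ee8cb_gt.D3GB

open Set MeasureTheory Metric
open scoped RealInnerProductSpace

namespace RINJ

theorem der_norm {v : V} (hv : v ≠ 0) :
    HasFDerivAt (fun x : V => ‖x‖) (innerSL ℝ (‖v‖⁻¹ • v)) v := by
  have h0 : ‖v‖ ≠ 0 := norm_ne_zero_iff.2 hv
  have h1 := (hasStrictFDerivAt_norm_sq v).hasFDerivAt.sqrt (pow_ne_zero 2 h0)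
  simp only [Real.sqrt_sq (norm_nonneg _)] at h1
  refine h1.congr_fderiv (ContinuousLinearMap.ext fun e => ?_)
  simp only [smul_apply, innerSL_apply_apply, inner_smul_left, smul_eq_mul,
    nsmul_eq_mul, conj_trivial]
  push_cast
  field_simp

theorem inj {H : V → V} (hH : Sph H) (hi : InjOn H (sphere 0 1)) :
    InjOn (fun v : V => ‖v‖ • H v) {0}ᶜ := by
  intro v hv w hw e
  have hv' : ‖v‖ ≠ 0 := norm_ne_zero_iff.2 hv
  have e1 : ‖v‖ = ‖w‖ := by
    simpa [norm_smul, hH.unit v hv, hH.unit w hw] using congrArg norm e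
  have e2 : H v = H w := smul_right_injective V hv' (by simpa [← e1] using e)
  have p : 0 < ‖v‖⁻¹ := inv_pos.2 (norm_pos_iff.2 hv)
  have e3 : ‖v‖⁻¹ • v = ‖v‖⁻¹ • w := hi (by simp [norm_smul, hv']) (by simp [norm_smul, ← e1, hv'])
    (by rw [hH.h0.hom v _ p, hH.h0.hom w _ p, e2])
  exact smul_right_injective V p.ne' e3

end RINJ

open RINJ in
theorem rINJ (h3 : SHOM) (_h5 : SJC) (_h6 : SCI) : SINJ := by
  intro H hH hi
  have hs : MeasurableSet (ball (0 : V) 1 \ {0}) :=
    measurableSet_ball.diff (measurableSet_singleton 0)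
  have h1 := lintegral_abs_det_fderiv_eq_addHaar_image volume hs
    (f := fun v : V => ‖v‖ • H v) (f' := fun v => ext v (H v) (fderiv ℝ H v))
    (fun v hv => ((der_norm hv.2).smul
      ((h3 V H hH.h0).2.1 v hv.2).hasFDerivAt).hasFDerivWithinAt)
    ((inj hH hi).mono fun v hv => hv.2)
  have h2 : (fun v : V => ‖v‖ • H v) '' (ball (0 : V) 1 \ {0}) ⊆ ball 0 1 := by
    rintro _ ⟨v, hv, rfl⟩
    simpa [norm_smul, hH.unit v hv.2] using hv.1
  rw [← setIntegral_congr_set (sdiff_ae_eq_self.2 (measure_mono_null inter_subset_right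
    (measure_singleton (0 : V))))]
  have h4 := norm_integral_le_lintegral_norm (μ := volume.restrict (ball (0 : V) 1 \ {0})) (jac H)
  exact h4.trans (ENNReal.toReal_mono (measure_ball_lt_top (μ := volume)).ne
    (h1.le.trans (measure_mono h2)))

end Pool.Agent.MP_3ee8cb_gt.D3GB
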