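import Pool.Agent.MP_3ee8cb_gt.D3GB.Spec

/-! Two self maps of the sphere that are nowhere antipodal have the same total Jacobian. -/

namespace Pool.Agent.MP_3ee8cb_gt.D3GB

open Pool.Agent.MP_3ee8cb_gt.CR Pool.Agent.MP_3ee8cb_gt.TB Set MeasureTheory Metric Filter
open scoped RealInnerProductSpace Topology

namespace RNA

theorem norm_der (v : V) (hv : v ≠ 0) :
    HasFDerivAt (fun x : V => ‖x‖) (innerSL ℝ (‖v‖⁻¹ • v)) v := by
  have hn : ‖v‖ ≠ 0 := norm_ne_zero_iff.mpr hv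
  have h := (hasStrictFDerivAt_norm_sq v).hasFDerivAt.sqrt (pow_ne_zero 2 hn)
  have e : (fun x : V => √(‖x‖ ^ 2)) = fun x : V => ‖x‖ :=
    funext fun x => Real.sqrt_sq (norm_nonneg x)
  rw [e] at h
  refine h.congr_fderiv ?_
  ext x
  simp only [Real.sqrt_sq (norm_nonneg v), ContinuousLinearMap.smul_apply, innerSL_apply_apply,
    real_inner_smul_left, smul_eq_mul, nsmul_eq_mul]
  field_simp
  push_cast
  ring

theorem zone (h3 : SHOM) (h4 : SDET) (φ : ℝ → ℝ) (hφ : Differentiable ℝ φ) (H : V → V)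
    (hH : Hom0 H) (v : V) (hv : v ≠ 0) :
    (fderiv ℝ (fun x : V => φ ‖x‖ • H x) v).det =
      φ ‖v‖ ^ 2 * deriv φ ‖v‖ / ‖v‖ ^ 2 * jac H v := by
  have hn : ‖v‖ ≠ 0 := norm_ne_zero_iff.mpr hv
  obtain ⟨-, hd, hr, -⟩ := h3 V H hH
  have h1 := ((hφ ‖v‖).hasDerivAt.comp_hasFDerivAt v (norm_der v hv)).smul (hd v hv).hasFDerivAt
  have h2 : fderiv ℝ (fun x : V => φ ‖x‖ • H x) v =
      ext v (deriv φ ‖v‖ • H v) ((φ ‖v‖ / ‖v‖) • fderiv ℝ H v) := by
    refine (HasFDerivAt.fderiv h1).trans ?_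
    ext1 x
    simp only [ext, ContinuousLinearMap.add_apply, ContinuousLinearMap.smul_apply,
      ContinuousLinearMap.smulRight_apply, smul_smul, Function.comp, smul_eq_mul]
    rw [mul_div_cancel₀ _ hn, mul_comm (deriv φ ‖v‖)]
  rw [h2, jac, h4 v _ _ hv (by simp [hr v hv]), h4 v _ _ hv (hr v hv)]
  simp only [ev, trip, ContinuousLinearMap.smul_apply, PiLp.smul_apply, smul_eq_mul]
  field_simp

theorem mid (A : V → V) (v : V) (hA : DifferentiableAt ℝ A v) (h : ∀ᶠ x in 𝓝 v, ‖A x‖ = 1) :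
    (fderiv ℝ A v).det = 0 := by
  by_contra hne
  obtain ⟨e, he⟩ := (LinearMap.equivOfDetNeZero (fderiv ℝ A v : V →ₗ[ℝ] V) hne).surjective (A v)
  have he' : fderiv ℝ A v e = A v := he
  have h1 := hA.hasFDerivAt.norm_sq
  have h2 : (fun x => ‖A x‖ ^ 2) =ᶠ[𝓝 v] fun _ => (1 : ℝ) := h.mono fun x hx => by simp [hx]
  have h3 := (h1.congr_of_eventuallyEq h2.symm).unique (hasFDerivAt_const (1 : ℝ) v)
  have h4 := congrArg (fun L : V →L[ℝ] ℝ => L e) h3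
  simp [he', h.self_of_nhds] at h4

/-- the radial weight -/
noncomputable def wt (φ : ℝ → ℝ) (r : ℝ) : ℝ := φ r ^ 2 * deriv φ r / max r 1 ^ 2

theorem wt_eq (φ : ℝ → ℝ) (a b : ℝ) (ha : 1 ≤ a) (h0 : ∀ r, r ∉ Icc a b → deriv φ r = 0)
    (r : ℝ) : wt φ r = φ r ^ 2 * deriv φ r / r ^ 2 := by
  by_cases hr : r ∈ Icc a b
  · rw [wt, max_eq_left (ha.trans hr.1)]
  · simp [wt, h0 r hr]

theorem shell (h2 : SPOL) (φ : ℝ → ℝ) (hφ : ContDiff ℝ 1 φ) (a b : ℝ) (ha : 1 ≤ a) (hab : a ≤ b)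
    (h0 : ∀ r, r ∉ Icc a b → deriv φ r = 0) (J : V → ℝ) (hJ : Con0 J) :
    Integrable (fun v : V => wt φ ‖v‖ * J v) ∧
      ∫ v : V, wt φ ‖v‖ * J v = (φ b ^ 3 - φ a ^ 3) * ∫ v in ball (0 : V) 1, J v := by
  have hc : Continuous φ := hφ.continuous
  have hc' : Continuous (deriv φ) := hφ.continuous_deriv le_rfl
  have hd : Differentiable ℝ φ := hφ.differentiable one_ne_zero
  have hw : Continuous (wt φ) :=
    ((hc.pow 2).mul hc').div ((continuous_id.max continuous_const).pow 2) fun r =>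
      pow_ne_zero 2 (lt_of_lt_of_le one_pos (le_max_right r 1)).ne'
  obtain ⟨hi, he⟩ := h2 J (wt φ) a b hJ hw (lt_of_lt_of_le one_pos ha)
    fun r hr => by simp [wt, h0 r hr]
  refine ⟨hi, he.trans ?_⟩
  have e1 : (fun r => wt φ r * r ^ 2) = fun r => φ r ^ 2 * deriv φ r := by
    funext r
    by_cases hr : r ∈ Icc a b
    · have : r ≠ 0 := (lt_of_lt_of_le one_pos (ha.trans hr.1)).ne'
      rw [wt_eq φ a b ha h0]
      field_simp
    · simp [wt, h0 r hr]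
  have e2 : ∫ r, φ r ^ 2 * deriv φ r = ∫ r in a..b, φ r ^ 2 * deriv φ r := by
    rw [intervalIntegral.integral_of_le hab, ← integral_Icc_eq_integral_Ioc]
    exact (setIntegral_eq_integral_of_forall_compl_eq_zero fun r hr => by simp [h0 r hr]).symm
  have e3 : ∫ r in a..b, φ r ^ 2 * deriv φ r = φ b ^ 3 / 3 - φ a ^ 3 / 3 := by
    refine intervalIntegral.integral_eq_sub_of_hasDerivAt (f := fun r => φ r ^ 3 / 3)
      (fun r _ => ?_) (((hc.pow 2).mul hc').intervalIntegrable a b)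
    refine (((hd r).hasDerivAt.pow 3).div_const 3).congr_deriv ?_
    push_cast
    ring
  rw [e1, e2, e3]
  ring

/-- goes up from zero to one on `[a, a + 1]` -/
noncomputable def up (a r : ℝ) : ℝ := Real.smoothTransition (r - a)

/-- goes down from one to zero on `[a, a + 1]` -/
noncomputable def dn (a r : ℝ) : ℝ := 1 - up a r

theorem up_cd (a : ℝ) : ContDiff ℝ 1 (up a) :=
  Real.smoothTransition.contDiff.comp (contDiff_id.sub contDiff_const)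

theorem dn_cd (a : ℝ) : ContDiff ℝ 1 (dn a) := contDiff_const.sub (up_cd a)

theorem up_lo {a r : ℝ} (h : r ≤ a) : up a r = 0 :=
  Real.smoothTransition.zero_of_nonpos (by linarith)

theorem up_hi {a r : ℝ} (h : a + 1 ≤ r) : up a r = 1 :=
  Real.smoothTransition.one_of_one_le (by linarith)

theorem up_der (a r : ℝ) (hr : r ∉ Icc a (a + 1)) : deriv (up a) r = 0 := by
  rcases lt_or_ge r a with h | h
  · have : up a =ᶠ[𝓝 r] fun _ => (0 : ℝ) := (eventually_lt_nhds h).mono fun x hx => up_lo hx.le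
    rw [this.deriv_eq, deriv_const]
  · have h' : a + 1 < r := lt_of_not_ge fun h' => hr ⟨h, h'⟩
    have : up a =ᶠ[𝓝 r] fun _ => (1 : ℝ) := (eventually_gt_nhds h').mono fun x hx => up_hi hx.le
    rw [this.deriv_eq, deriv_const]

theorem dn_der (a r : ℝ) (hr : r ∉ Icc a (a + 1)) : deriv (dn a) r = 0 := by
  have : deriv (dn a) r = -deriv (up a) r := deriv_const_sub 1
  rw [this, up_der a r hr, neg_zero]

/-- the segment between the two maps -/
noncomputable def sg (H₀ H₁ : V → V) (v : V) : V := dn 3 ‖v‖ • H₀ v + up 3 ‖v‖ • H₁ v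

/-- the map with compact support -/
noncomputable def mp (H₀ H₁ : V → V) (v : V) : V :=
  (up 1 ‖v‖ * dn 5 ‖v‖) • (‖sg H₀ H₁ v‖⁻¹ • sg H₀ H₁ v)

theorem sg_ne {H₀ H₁ : V → V} (s0 : Sph H₀) (s1 : Sph H₁) (hne : ∀ v, v ≠ 0 → H₀ v + H₁ v ≠ 0)
    (v : V) (hv : v ≠ 0) : sg H₀ H₁ v ≠ 0 := by
  intro h
  have t0 : 0 ≤ up 3 ‖v‖ := Real.smoothTransition.nonneg _
  have t1 : up 3 ‖v‖ ≤ 1 := Real.smoothTransition.le_one _
  have h1 : dn 3 ‖v‖ • H₀ v = -(up 3 ‖v‖ • H₁ v) := eq_neg_of_add_eq_zero_left h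
  have h2 := congrArg norm h1
  rw [norm_neg, norm_smul, norm_smul, s0.unit v hv, s1.unit v hv, dn, Real.norm_eq_abs,
    Real.norm_eq_abs, abs_of_nonneg t0, abs_of_nonneg (sub_nonneg.mpr t1)] at h2
  have h3 : up 3 ‖v‖ = 1 / 2 := by linarith
  have h4 : dn 3 ‖v‖ = 1 / 2 := by rw [dn, h3]; norm_num
  rw [sg, h3, h4, ← smul_add] at h
  exact hne v hv ((smul_eq_zero.mp h).resolve_left (by norm_num))

theorem ev_lt (v : V) {c : ℝ} (h : ‖v‖ < c) : ∀ᶠ x in 𝓝 v, ‖x‖ < c :=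
  continuous_norm.continuousAt.eventually_lt continuousAt_const h

theorem ev_gt (v : V) {c : ℝ} (h : c < ‖v‖) : ∀ᶠ x in 𝓝 v, c < ‖x‖ :=
  continuousAt_const.eventually_lt continuous_norm.continuousAt h

theorem mp_zero (H₀ H₁ : V → V) : mp H₀ H₁ =ᶠ[𝓝 0] fun _ => 0 :=
  (ev_lt (0 : V) (c := 1) (by simp)).mono fun x hx => by simp [mp, up_lo hx.le]

theorem mp_cd {H₀ H₁ : V → V} (s0 : Sph H₀) (s1 : Sph H₁) (hne : ∀ v, v ≠ 0 → H₀ v + H₁ v ≠ 0) :
    ContDiff ℝ 1 (mp H₀ H₁) := by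
  refine contDiff_iff_contDiffAt.mpr fun v => ?_
  by_cases hv : v = 0
  · subst hv
    exact contDiffAt_const.congr_of_eventuallyEq (mp_zero H₀ H₁)
  have hn : ContDiffAt ℝ 1 (fun x : V => ‖x‖) v := contDiffAt_norm ℝ hv
  have hc : ({0}ᶜ : Set V) ∈ 𝓝 v := isOpen_compl_singleton.mem_nhds hv
  have hs : ContDiffAt ℝ 1 (sg H₀ H₁) v :=
    (((dn_cd 3).contDiffAt.comp v hn).smul (s0.h0.c1.contDiffAt hc)).add
      (((up_cd 3).contDiffAt.comp v hn).smul (s1.h0.c1.contDiffAt hc))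
  have h0 := sg_ne s0 s1 hne v hv
  exact (((up_cd 1).contDiffAt.comp v hn).mul ((dn_cd 5).contDiffAt.comp v hn)).smul
    (((hs.norm ℝ h0).inv (norm_ne_zero_iff.mpr h0)).smul hs)

theorem mp_cs (H₀ H₁ : V → V) : HasCompactSupport (mp H₀ H₁) := by
  refine HasCompactSupport.intro (isCompact_closedBall (0 : V) 6) fun x hx => ?_
  have : 6 < ‖x‖ := by simpa using hx
  simp [mp, dn, up_hi (a := 5) (r := ‖x‖) (by linarith)]

theorem mp_det (h3 : SHOM) (h4 : SDET) {H₀ H₁ : V → V} (s0 : Sph H₀) (s1 : Sph H₁)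
    (hne : ∀ v, v ≠ 0 → H₀ v + H₁ v ≠ 0) (v : V) :
    (fderiv ℝ (mp H₀ H₁) v).det = wt (up 1) ‖v‖ * jac H₀ v + wt (dn 5) ‖v‖ * jac H₁ v := by
  have w0 : ∀ r : ℝ, 2 < r → wt (up 1) r = 0 := fun r hr => by
    simp [wt, up_der 1 r fun h => by linarith [h.2]]
  have w1 : ∀ r : ℝ, r < 5 → wt (dn 5) r = 0 := fun r hr => by
    simp [wt, dn_der 5 r fun h => by linarith [h.1]]
  by_cases hv : v = 0
  · subst hv
    rw [(mp_zero H₀ H₁).fderiv_eq, w1 _ (by simp)]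
    simp [wt, up_lo (a := 1) (r := 0) zero_le_one, ContinuousLinearMap.det]
  have hc : ∀ᶠ x in 𝓝 v, x ≠ 0 := isOpen_compl_singleton.mem_nhds hv
  rcases lt_or_ge ‖v‖ 3 with h | h
  · have e : mp H₀ H₁ =ᶠ[𝓝 v] fun x => up 1 ‖x‖ • H₀ x := by
      filter_upwards [hc, ev_lt v h] with x hx0 hx
      simp [mp, sg, dn, up_lo hx.le, up_lo (a := 5) (r := ‖x‖) (by linarith), s0.unit x hx0]
    rw [e.fderiv_eq, zone h3 h4 _ ((up_cd 1).differentiable one_ne_zero) H₀ s0.h0 v hv,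
      w1 _ (by linarith), wt_eq _ 1 (1 + 1) le_rfl (up_der 1)]
    ring
  rcases lt_or_ge ‖v‖ 5 with h' | h'
  · rw [w0 _ (by linarith), w1 _ h', mid _ v
      ((mp_cd s0 s1 hne).differentiable one_ne_zero v)]
    · ring
    filter_upwards [hc, ev_lt v h', ev_gt v (c := 2) (by linarith)] with x hx0 hx hx'
    have h0 := norm_ne_zero_iff.mpr (sg_ne s0 s1 hne x hx0)
    simp [mp, dn, up_lo hx.le, up_hi (a := 1) (r := ‖x‖) (by linarith), norm_smul, h0]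
  · have e : mp H₀ H₁ =ᶠ[𝓝 v] fun x => dn 5 ‖x‖ • H₁ x := by
      filter_upwards [hc, ev_gt v (c := 4) (by linarith)] with x hx0 hx
      simp [mp, sg, dn, up_hi (a := 3) (r := ‖x‖) (by linarith),
        up_hi (a := 1) (r := ‖x‖) (by linarith), s1.unit x hx0]
    rw [e.fderiv_eq, zone h3 h4 _ ((dn_cd 5).differentiable one_ne_zero) H₁ s1.h0 v hv,
      w0 _ (by linarith), wt_eq _ 5 (5 + 1) (by norm_num) (dn_der 5)]
    ring

end RNA

open RNA in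
theorem rNA (h1 : SNL) (h2 : SPOL) (h3 : SHOM) (h4 : SDET) (h5 : SJC) : SNA := by
  intro H₀ H₁ s0 s1 hne
  have e := h1 _ (mp_cd s0 s1 hne) (mp_cs H₀ H₁)
  obtain ⟨i0, e0⟩ := shell h2 _ (up_cd 1) 1 (1 + 1) le_rfl (by norm_num) (up_der 1) _
    (h5.1 H₀ s0.h0)
  obtain ⟨i1, e1⟩ := shell h2 _ (dn_cd 5) 5 (5 + 1) (by norm_num) (by norm_num) (dn_der 5) _
    (h5.1 H₁ s1.h0)
  simp only [mp_det h3 h4 s0 s1 hne] at e
  rw [integral_add i0 i1, e0, e1, dn, dn, up_hi le_rfl, up_lo le_rfl, up_hi le_rfl,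
    up_lo le_rfl] at e
  linarith

end Pool.Agent.MP_3ee8cb_gt.D3GB
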