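import Pool.Agent.MP_3ee8cb_gt.D3GB.Spec

/-! Row NL: the Jacobian determinant of a compactly supported `C¹` map has integral zero. -/

namespace Pool.Agent.MP_3ee8cb_gt.D3GB

open Pool.Agent.MP_3ee8cb_gt.CR Pool.Agent.MP_3ee8cb_gt.TB Set MeasureTheory Metric

namespace RNL

lemma det3 (D : V →L[ℝ] V) : D.det = trip (D (bv 0)) (D (bv 1)) (D (bv 2)) := by
  have h := LinearMap.det_toMatrix (EuclideanSpace.basisFun (Fin 3) ℝ).toBasis (D : V →ₗ[ℝ] V)
  rw [ContinuousLinearMap.det, ← h, Matrix.det_fin_three]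
  simp only [LinearMap.toMatrix_apply, OrthonormalBasis.coe_toBasis,
    OrthonormalBasis.coe_toBasis_repr_apply, EuclideanSpace.basisFun_apply,
    EuclideanSpace.basisFun_repr, ContinuousLinearMap.coe_coe, trip, bv]
  ring

lemma diff3 (M : V →L[ℝ] V) (t : ℝ) : 6 * t ^ 3 * M.det =
    (1 + (3 * t) • M).det - 3 * (1 + (2 * t) • M).det + 3 * (1 + t • M).det -
      (1 + (0 : ℝ) • M).det := by
  simp [det3, trip, bv]
  ring

lemma det_ne (N : V →L[ℝ] V) (h : ‖N‖ < 1) : (1 + N).det ≠ 0 := by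
  intro h0
  rw [ContinuousLinearMap.det, LinearMap.det_eq_zero_iff_ker_ne_bot, Submodule.ne_bot_iff] at h0
  obtain ⟨x, hx, hx0⟩ := h0
  have h1 : x + N x = 0 := by simpa using hx
  have h2 : x = -N x := eq_neg_of_add_eq_zero_left h1
  have h3 : ‖x‖ ≤ ‖N‖ * ‖x‖ := by
    calc ‖x‖ = ‖N x‖ := by rw [← norm_neg (N x), ← h2]
      _ ≤ _ := N.le_opNorm x
  have h4 : 0 < ‖x‖ := norm_pos_iff.2 hx0
  nlinarith

lemma det_pos (N : V →L[ℝ] V) (h : ‖N‖ < 1) : 0 < (1 + N).det := by
  by_contra hle
  rw [not_lt] at hle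
  have hc : Continuous fun s : ℝ => (1 + s • N).det :=
    ContinuousLinearMap.continuous_det.comp (continuous_const.add (continuous_id.smul
      continuous_const))
  have h0 : (0 : ℝ) ∈ Icc ((1 + (1 : ℝ) • N).det) ((1 + (0 : ℝ) • N).det) := by
    refine ⟨by simpa using hle, ?_⟩
    simp [det3, trip, bv]
  obtain ⟨s, hs, hs0⟩ := intermediate_value_Icc' zero_le_one hc.continuousOn h0
  refine det_ne (s • N) ?_ hs0
  rw [norm_smul, Real.norm_eq_abs, abs_of_nonneg hs.1]
  nlinarith [hs.1, hs.2, norm_nonneg N]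

lemma vol (A : V → V) (hA : ContDiff ℝ 1 A) (L : NNReal) (hL : ∀ v, ‖fderiv ℝ A v‖₊ ≤ L)
    (R : ℝ) (hR : ∀ v, v ∉ closedBall (0 : V) R → A v = 0) (t : ℝ) (ht : |t| * L < 1) :
    ∫ v in closedBall (0 : V) R, (1 + t • fderiv ℝ A v).det =
      volume.real (closedBall (0 : V) R) := by
  have hd : Differentiable ℝ A := hA.differentiable one_ne_zero
  have hlip : LipschitzWith L A := lipschitzWith_of_nnnorm_fderiv_le hd hL
  set f : V → V := fun v => v + t • A v with hf
  have happ : ApproximatesLinearOn f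
      ((ContinuousLinearEquiv.refl ℝ V : V ≃L[ℝ] V) : V →L[ℝ] V) univ (‖t‖₊ * L) := by
    intro x _ y _
    have e : f x - f y - ((ContinuousLinearEquiv.refl ℝ V : V ≃L[ℝ] V) : V →L[ℝ] V) (x - y) =
        t • (A x - A y) := by
      simp only [hf, smul_sub, ContinuousLinearEquiv.coe_refl, ContinuousLinearMap.id_apply]
      abel
    rw [e, norm_smul, NNReal.coe_mul, coe_nnnorm, mul_assoc]
    exact mul_le_mul_of_nonneg_left (hlip.norm_sub_le x y) (norm_nonneg t)
  have hc : Subsingleton V ∨ ‖t‖₊ * L <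
      ‖(((ContinuousLinearEquiv.refl ℝ V).symm : V ≃L[ℝ] V) : V →L[ℝ] V)‖₊⁻¹ := by
    right
    rw [← NNReal.coe_lt_coe]
    simpa using ht
  have hinj : Function.Injective f := injOn_univ.1 (happ.injOn hc)
  have hsur : Function.Surjective f := happ.surjective hc
  have hfix : ∀ v, v ∉ closedBall (0 : V) R → f v = v := fun v hv => by simp [hf, hR v hv]
  have him : f '' closedBall (0 : V) R = closedBall (0 : V) R := by
    ext y
    constructor
    · rintro ⟨x, hx, rfl⟩
      by_contra hy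
      have e : f x = x := hinj (hfix _ hy)
      exact hy (by rw [e]; exact hx)
    · intro hy
      obtain ⟨x, rfl⟩ := hsur y
      refine ⟨x, ?_, rfl⟩
      by_contra hx
      rw [hfix x hx] at hy
      exact hx hy
  have hder : ∀ v ∈ closedBall (0 : V) R, HasFDerivWithinAt f (1 + t • fderiv ℝ A v)
      (closedBall (0 : V) R) v := fun v _ =>
    ((hasFDerivAt_id v).add ((hd v).hasFDerivAt.const_smul t)).hasFDerivWithinAt
  have key := integral_image_eq_integral_abs_det_fderiv_smul volume measurableSet_closedBall hder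
    hinj.injOn (fun _ => (1 : ℝ))
  rw [him] at key
  have hpos : ∀ v, |(1 + t • fderiv ℝ A v).det| = (1 + t • fderiv ℝ A v).det := fun v => by
    refine abs_of_pos (det_pos _ ?_)
    rw [norm_smul, Real.norm_eq_abs]
    have h1 : ‖fderiv ℝ A v‖ ≤ L := hL v
    exact lt_of_le_of_lt (mul_le_mul_of_nonneg_left h1 (abs_nonneg t)) ht
  simp only [hpos, smul_eq_mul, mul_one] at key
  rw [← key]
  simp

end RNL

theorem rNL : SNL := by
  intro A hA hK
  have hcf : Continuous (fderiv ℝ A) := hA.continuous_fderiv one_ne_zero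
  obtain ⟨C, hC⟩ := hcf.bounded_above_of_compact_support (hK.fderiv ℝ)
  have hC0 : 0 ≤ C := (norm_nonneg _).trans (hC 0)
  obtain ⟨R, hR⟩ := hK.isCompact.isBounded.subset_closedBall (0 : V)
  have hR0 : ∀ v, v ∉ closedBall (0 : V) R → A v = 0 := fun v hv =>
    image_eq_zero_of_notMem_tsupport fun h => hv (hR h)
  have hR1 : ∀ v, v ∉ closedBall (0 : V) R → (fderiv ℝ A v).det = 0 := fun v hv => by
    have e : fderiv ℝ A v = 0 := by
      by_contra hne
      exact hv (hR (support_fderiv_subset ℝ (f := A) hne))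
    simp [e, RNL.det3, trip]
  set t : ℝ := 1 / (4 * (C + 1)) with ht
  have ht0 : 0 < t := by positivity
  have htC : t * (C + 1) = 1 / 4 := by rw [ht]; field_simp
  have hv : ∀ s : ℝ, 0 ≤ s → s ≤ 3 * t →
      ∫ v in closedBall (0 : V) R, (1 + s • fderiv ℝ A v).det =
        volume.real (closedBall (0 : V) R) := fun s h0 h1 =>
    RNL.vol A hA (NNReal.mk C hC0) (fun v => hC v) R hR0 s (by
      rw [abs_of_nonneg h0, NNReal.coe_mk]
      nlinarith)
  have hi : ∀ s : ℝ, IntegrableOn (fun v => (1 + s • fderiv ℝ A v).det)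
      (closedBall (0 : V) R) := fun s =>
    (ContinuousLinearMap.continuous_det.comp (continuous_const.add
      (hcf.const_smul s))).continuousOn.integrableOn_compact (isCompact_closedBall _ _)
  have h6 : 6 * t ^ 3 * ∫ v in closedBall (0 : V) R, (fderiv ℝ A v).det = 0 := by
    rw [← integral_const_mul]
    simp only [RNL.diff3]
    have i1 : IntegrableOn (fun v => (1 + (3 * t) • fderiv ℝ A v).det -
        3 * (1 + (2 * t) • fderiv ℝ A v).det) (closedBall (0 : V) R) :=
      (hi _).sub ((hi _).const_mul 3)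
    have i2 : IntegrableOn (fun v => (1 + (3 * t) • fderiv ℝ A v).det -
        3 * (1 + (2 * t) • fderiv ℝ A v).det + 3 * (1 + t • fderiv ℝ A v).det)
        (closedBall (0 : V) R) := i1.add ((hi _).const_mul 3)
    rw [integral_sub i2 (hi _), integral_add i1 ((hi _).const_mul 3),
      integral_sub (hi _) ((hi _).const_mul 3), integral_const_mul, integral_const_mul,
      hv _ (by positivity) le_rfl, hv _ (by positivity) (by linarith),
      hv _ ht0.le (by linarith), hv _ le_rfl (by positivity)]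
    ring
  rw [← setIntegral_eq_integral_of_forall_compl_eq_zero hR1]
  have h7 : 6 * t ^ 3 ≠ 0 := by positivity
  exact (mul_eq_zero.1 h6).resolve_left h7

end Pool.Agent.MP_3ee8cb_gt.D3GB
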