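import Pool.Agent.MP_3ee8cb_gt.D3GB.Spec2

/-! Row P2: the pointwise Gauss-Bonnet identity in moving frames. -/

namespace Pool.Agent.MP_3ee8cb_gt.D3GB

open Set MeasureTheory Metric
open Pool.Agent.MP_3ee8cb_gt.D3 (MF)
open scoped RealInnerProductSpace

namespace RP2

theorem inner3 (a b : V) : ⟪a, b⟫ = a 0 * b 0 + a 1 * b 1 + a 2 * b 2 := by
  simp only [PiLp.inner_apply, Fin.sum_univ_three, RCLike.inner_apply, conj_trivial]
  ring

theorem cr0 (a b : V) : cr a b 0 = a 1 * b 2 - a 2 * b 1 := rfl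

theorem cr1 (a b : V) : cr a b 1 = a 2 * b 0 - a 0 * b 2 := rfl

theorem cr2 (a b : V) : cr a b 2 = a 0 * b 1 - a 1 * b 0 := rfl

theorem alg (n p q A B : V) (hn : ⟪n, n⟫ = 1) (hp : ⟪n, p⟫ = 0) (hq : ⟪n, q⟫ = 0) :
    trip n (p + cr A n) (q + cr B n) = trip n p q - ⟪p, B⟫ + ⟪q, A⟫ + ⟪n, cr A B⟫ := by
  simp only [inner3] at hn hp hq ⊢
  simp only [trip, PiLp.add_apply, cr0, cr1, cr2]
  linear_combination
    (-(p 0 * B 0 + p 1 * B 1 + p 2 * B 2) + (q 0 * A 0 + q 1 * A 1 + q 2 * A 2) +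
      (n 0 * (A 1 * B 2 - A 2 * B 1) + n 1 * (A 2 * B 0 - A 0 * B 2) +
        n 2 * (A 0 * B 1 - A 1 * B 0))) * hn +
    (n 0 * B 0 + n 1 * B 1 + n 2 * B 2) * hp - (n 0 * A 0 + n 1 * A 1 + n 2 * A 2) * hq

theorem sum_bv (u : V) : u = u 0 • bv 0 + u 1 • bv 1 + u 2 • bv 2 := by
  ext i
  fin_cases i <;> simp [bv]

theorem inner_sum (p : V) (L : V →L[ℝ] V) (u : V) :
    ⟪p, L u⟫ = ⟪p, L (bv 0)⟫ * u 0 + ⟪p, L (bv 1)⟫ * u 1 + ⟪p, L (bv 2)⟫ * u 2 := by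
  have e : L u = u 0 • L (bv 0) + u 1 • L (bv 1) + u 2 • L (bv 2) := by
    conv_lhs => rw [sum_bv u]
    simp only [map_add, map_smul]
  rw [e]
  simp only [inner_add_right, inner_smul_right]
  ring

theorem fd_app {A : V → V →L[ℝ] V} {Y W : V → V} {v : V} (hA : DifferentiableAt ℝ A (Y v))
    (hY : DifferentiableAt ℝ Y v) (hW : DifferentiableAt ℝ W v) (e : V) :
    fderiv ℝ (fun x => A (Y x) (W x)) v e =
      fderiv ℝ A (Y v) (fderiv ℝ Y v e) (W v) + A (Y v) (fderiv ℝ W v e) := by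
  have h1 := (hA.hasFDerivAt.comp v hY.hasFDerivAt).clm_apply hW.hasFDerivAt
  have h2 : fderiv ℝ (fun x => A (Y x) (W x)) v = _ := h1.fderiv
  rw [h2]
  simp only [add_apply, ContinuousLinearMap.comp_apply,
    ContinuousLinearMap.flip_apply, Function.comp]
  rw [add_comm]

theorem fd_orth {H : V → V} {v : V} (hv : v ≠ 0) (hH : DifferentiableAt ℝ H v)
    (hu : ∀ x, x ≠ 0 → ‖H x‖ = 1) (e : V) : ⟪H v, fderiv ℝ H v e⟫ = 0 := by
  have h1 := hH.hasFDerivAt.inner ℝ hH.hasFDerivAt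
  have h2 : (fun x => ⟪H x, H x⟫) =ᶠ[nhds v] fun _ => (1 : ℝ) := by
    filter_upwards [isOpen_ne.mem_nhds hv] with x hx
    rw [real_inner_self_eq_norm_sq, hu x hx]
    norm_num
  have h3 := (hasFDerivAt_const (𝕜 := ℝ) (1 : ℝ) v).congr_of_eventuallyEq h2
  have h4 := congrArg (fun L : V →L[ℝ] ℝ => L e) (h1.unique h3)
  simp only [ContinuousLinearMap.comp_apply, ContinuousLinearMap.prod_apply, fderivInnerCLM_apply,
    zero_apply] at h4
  rw [real_inner_comm (H v) (fderiv ℝ H v e)] at h4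
  linarith

theorem fd_be {N Y : V → V} {Ξ : V → V →L[ℝ] V} {v : V} (hN : DifferentiableAt ℝ N v)
    (hΞ : DifferentiableAt ℝ Ξ (Y v)) (hY : DifferentiableAt ℝ Y v) (c e : V) :
    fderiv ℝ (fun x => ⟪N x, Ξ (Y x) c⟫) v e =
      ⟪N v, fderiv ℝ Ξ (Y v) (fderiv ℝ Y v e) c⟫ + ⟪fderiv ℝ N v e, Ξ (Y v) c⟫ := by
  have hd : DifferentiableAt ℝ (fun x => Ξ (Y x) c) v :=
    (hΞ.comp v hY).clm_apply (differentiableAt_const c)
  rw [fderiv_inner_apply ℝ hN hd, fd_app hΞ hY (differentiableAt_const c)]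
  simp

theorem fd_co {Y : V → V} {v : V} (hY : DifferentiableAt ℝ Y v) (j : Fin 3) (e : V) :
    fderiv ℝ (fun x => Y x j) v e = fderiv ℝ Y v e j := by
  have h1 := (EuclideanSpace.proj j : V →L[ℝ] ℝ).hasFDerivAt.comp v hY.hasFDerivAt
  have h2 : fderiv ℝ (fun x => Y x j) v = _ := h1.fderiv
  rw [h2]
  rfl

theorem ev_comb (v : V) (κ : ℝ) (P A J B0 B1 B2 : V → V → ℝ)
    (h : ∀ a b, P a b - κ * A a b = J a b - (B0 a b + B1 a b + B2 a b)) :
    ev v P - κ * ev v A = ev v J - (ev v B0 + ev v B1 + ev v B2) := by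
  unfold ev
  linear_combination ‖v‖ * v 0 * h (bv 1) (bv 2) + ‖v‖ * v 1 * h (bv 2) (bv 0) +
    ‖v‖ * v 2 * h (bv 0) (bv 1)

/-- the axial vector of a skew map -/
noncomputable def ac : (V →L[ℝ] V) →L[ℝ] V :=
  ((EuclideanSpace.proj 2 : V →L[ℝ] ℝ).comp (ContinuousLinearMap.apply ℝ V (bv 1))).smulRight
    (bv 0) +
  ((EuclideanSpace.proj 0 : V →L[ℝ] ℝ).comp (ContinuousLinearMap.apply ℝ V (bv 2))).smulRight
    (bv 1) +
  ((EuclideanSpace.proj 1 : V →L[ℝ] ℝ).comp (ContinuousLinearMap.apply ℝ V (bv 0))).smulRight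
    (bv 2)

theorem ac0 (L : V →L[ℝ] V) : ac L 0 = L (bv 1) 2 := by simp [ac, bv]

theorem ac1 (L : V →L[ℝ] V) : ac L 1 = L (bv 2) 0 := by simp [ac, bv]

theorem ac2 (L : V →L[ℝ] V) : ac L 2 = L (bv 0) 1 := by simp [ac, bv]

theorem ext3 {a b : V} (h0 : a 0 = b 0) (h1 : a 1 = b 1) (h2 : a 2 = b 2) : a = b := by
  ext i
  fin_cases i
  exacts [h0, h1, h2]

theorem in_bv (a : V) (j : Fin 3) : ⟪a, bv j⟫ = a j := by
  simp [bv, EuclideanSpace.inner_single_right]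

theorem skew_cr (L : V →L[ℝ] V) (hL : ∀ a b, ⟪L a, b⟫ = -⟪a, L b⟫) (c : V) :
    L c = cr (ac L) c := by
  have s : ∀ i j, L (bv i) j = -L (bv j) i := fun i j => by
    have e := hL (bv i) (bv j)
    rw [in_bv, real_inner_comm, in_bv] at e
    exact e
  have e : L c = c 0 • L (bv 0) + c 1 • L (bv 1) + c 2 • L (bv 2) := by
    conv_lhs => rw [sum_bv c]
    simp only [map_add, map_smul]
  rw [e]
  refine ext3 ?_ ?_ ?_
  · simp only [PiLp.add_apply, PiLp.smul_apply, smul_eq_mul, cr0, ac1, ac2]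
    linear_combination c 0 / 2 * s 0 0 + c 1 * s 1 0
  · simp only [PiLp.add_apply, PiLp.smul_apply, smul_eq_mul, cr1, ac0, ac2]
    linear_combination c 1 / 2 * s 1 1 + c 2 * s 2 1
  · simp only [PiLp.add_apply, PiLp.smul_apply, smul_eq_mul, cr2, ac0, ac1]
    linear_combination c 2 / 2 * s 2 2 + c 0 * s 0 2

/-- the axial vector of the connection form as a linear map -/
noncomputable def xi (m : MF) (y : V) : V →L[ℝ] V :=
  ContinuousLinearMap.compL ℝ V (V →L[ℝ] V) V ac (m.om y)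

theorem xi_app (m : MF) (y u : V) : xi m y u = ac (m.om y u) := rfl

theorem ax_eq (m : MF) (y u : V) : ax m y u = xi m y u :=
  ext3 (ac0 _).symm (ac1 _).symm (ac2 _).symm

theorem xi_fd {m : MF} (hm : m.OK) (y : V) : HasFDerivAt (xi m)
    ((ContinuousLinearMap.compL ℝ V (V →L[ℝ] V) V ac).comp (fderiv ℝ m.om y)) y :=
  (ContinuousLinearMap.compL ℝ V (V →L[ℝ] V) V ac).hasFDerivAt.comp y
    ((hm.com.differentiable (by norm_num)) y).hasFDerivAt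

theorem om_cr {m : MF} (hm : m.OK) (y u c : V) : m.om y u c = cr (xi m y u) c :=
  skew_cr _ (hm.skew y u) c

theorem aO_eq {m : MF} (hm : m.OK) (y u v : V) : aO m y u v =
    fderiv ℝ (xi m) y u v - fderiv ℝ (xi m) y v u + cr (xi m y u) (xi m y v) := by
  have e : ∀ p q, fderiv ℝ (xi m) y p q = ac (fderiv ℝ m.om y p q) := fun p q => by
    rw [(xi_fd hm y).fderiv]
    rfl
  have b : ∀ i j : Fin 3, bv i j = if j = i then 1 else 0 := fun i j => by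
    simp [bv]
  rw [e, e]
  refine ext3 ?_ ?_ ?_
  · change m.Om y u v (bv 1) 2 = _
    simp only [MF.Om, om_cr hm, PiLp.add_apply, PiLp.sub_apply, cr0, cr1, cr2, ac0, b]
    simp
    ring
  · change m.Om y u v (bv 2) 0 = _
    simp only [MF.Om, om_cr hm, PiLp.add_apply, PiLp.sub_apply, cr0, cr1, cr2, ac1, b]
    simp
    ring
  · change m.Om y u v (bv 0) 1 = _
    simp only [MF.Om, om_cr hm, PiLp.add_apply, PiLp.sub_apply, cr0, cr1, cr2, ac2, b]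
    simp
    ring

theorem leg {m : MF} {σ : V → V × V} (hσ : m.Front σ) {a : V} (ha : a ≠ 0) (e : V) :
    ⟪nn σ a, m.S (yy σ a) (fderiv ℝ (yy σ) a e)⟫ = 0 := by
  have d : DifferentiableAt ℝ σ a :=
    (hσ.c1.contDiffAt (isOpen_ne.mem_nhds ha)).differentiableAt (by norm_num)
  have e1 : fderiv ℝ (yy σ) a = _ := d.hasFDerivAt.fst.fderiv
  have e2 : ⟪(σ a).2, m.S (σ a).1 (fderiv ℝ σ a e).1⟫ = 0 := hσ.leg a e ha
  rw [e1]
  change ⟪‖a‖⁻¹ • (σ a).2, m.S (σ a).1 (fderiv ℝ σ a e).1⟫ = 0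
  rw [real_inner_smul_left, e2, mul_zero]

end RP2

open RP2 in
theorem rP2 (h3 : SHOM) (h4 : SDET) (h7 : SG2) : SP2 := by
  intro m σ v κ hm hσ hv hκ
  obtain ⟨hS, hY, -⟩ := h7 m σ hm hσ
  obtain ⟨-, dY, zY, -⟩ := h3 V (yy σ) hY
  obtain ⟨-, dN, zN, -⟩ := h3 V (nn σ) hS.h0
  have dΞ : DifferentiableAt ℝ (xi m) (yy σ v) := (xi_fd hm _).differentiableAt
  have hn : ⟪nn σ v, nn σ v⟫ = 1 := by
    rw [real_inner_self_eq_norm_sq, hS.unit v hv]
    norm_num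
  have ho := fd_orth hv (dN v hv) hS.unit
  unfold fP fQ jac
  rw [h4 v _ _ hv (zN v hv), h4 v _ _ hv (by simp [zY v hv, zN v hv]),
    h4 v _ _ hv (by simp [zY v hv]), Fin.sum_univ_three]
  unfold br
  refine ev_comb v κ _ _ _ _ _ _ fun a b => ?_
  have e1 : ∀ j, bm m σ j = fun x => ⟪nn σ x, xi m (yy σ x) (bv j)⟫ := fun j => by
    funext x
    rw [bm, ax_eq]
  have k := hκ _ _ (leg hσ hv a) (leg hσ hv b)
  simp only [add_apply, ContinuousLinearMap.comp_apply, ContinuousLinearMap.flip_apply]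
  rw [← k, om_cr hm, om_cr hm, alg _ _ _ _ _ hn (ho a) (ho b), aO_eq hm]
  simp only [e1, fd_be (dN v hv) dΞ (dY v hv), fd_co (dY v hv), inner_add_right, inner_sub_right]
  rw [inner_sum (fderiv ℝ (nn σ) v a) (xi m (yy σ v)) (fderiv ℝ (yy σ) v b),
    inner_sum (fderiv ℝ (nn σ) v b) (xi m (yy σ v)) (fderiv ℝ (yy σ) v a),
    inner_sum (nn σ v) (fderiv ℝ (xi m) (yy σ v) (fderiv ℝ (yy σ) v a)) (fderiv ℝ (yy σ) v b),
    inner_sum (nn σ v) (fderiv ℝ (xi m) (yy σ v) (fderiv ℝ (yy σ) v b)) (fderiv ℝ (yy σ) v a)]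
  ring

end Pool.Agent.MP_3ee8cb_gt.D3GB
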