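import Pool.Agent.MP_3ee8cb_gt.D3GB.Spec2

/-! Regularity of the data of a front, and the link with the determinants of `D3.MF`. -/

namespace Pool.Agent.MP_3ee8cb_gt.D3GB

open Set MeasureTheory Metric
open Pool.Agent.MP_3ee8cb_gt.D3 (MF)
open scoped RealInnerProductSpace

namespace XG2

variable {m : MF} {σ : V → V × V}

theorem c1 (fr : m.Front σ) : ContDiffOn ℝ 1 σ {0}ᶜ := fr.c1

theorem hy (fr : m.Front σ) : Hom0 (yy σ) := by
  refine ⟨(c1 fr).fst, fun v t ht => ?_⟩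
  by_cases hv : v = 0
  · rw [hv, smul_zero]
  · rw [yy, fr.hom t v ht.ne' hv]
    rfl

theorem hn (fr : m.Front σ) : Sph (nn σ) := by
  refine ⟨⟨?_, fun v t ht => ?_⟩, fun v hv => ?_⟩
  · have h1 : ContDiffOn ℝ 1 (fun v : V => ‖v‖) {0}ᶜ :=
      contDiffOn_id.norm ℝ fun v hv => hv
    exact (h1.inv fun v hv => norm_ne_zero_iff.2 hv).smul (c1 fr).snd
  · by_cases hv : v = 0
    · rw [hv, smul_zero]
    · rw [nn, nn, fr.hom t v ht.ne' hv, norm_smul, Real.norm_eq_abs, abs_of_pos ht, smul_smul]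
      congr 1
      have : ‖v‖ ≠ 0 := norm_ne_zero_iff.2 hv
      field_simp
  · have : ‖v‖ ≠ 0 := norm_ne_zero_iff.2 hv
    rw [nn, norm_smul, fr.norm v hv, norm_inv, norm_norm, inv_mul_cancel₀ this]

theorem co {F : V → V} (h : ContDiffOn ℝ 1 F {0}ᶜ) (j : Fin 3) :
    ContDiffOn ℝ 1 (fun v => F v j) {0}ᶜ :=
  (EuclideanSpace.proj j : V →L[ℝ] ℝ).contDiff.comp_contDiffOn h

theorem bm_eq (j : Fin 3) (a : V) : bm m σ j a =
    nn σ a 0 * m.om (yy σ a) (bv j) (bv 1) 2 + nn σ a 1 * m.om (yy σ a) (bv j) (bv 2) 0 +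
      nn σ a 2 * m.om (yy σ a) (bv j) (bv 0) 1 := by
  simp only [bm, PiLp.inner_apply, Fin.sum_univ_three, RCLike.inner_apply, conj_trivial]
  change m.om (yy σ a) (bv j) (bv 1) 2 * _ + m.om (yy σ a) (bv j) (bv 2) 0 * _ +
    m.om (yy σ a) (bv j) (bv 0) 1 * _ = _
  ring

theorem hb (ok : m.OK) (fr : m.Front σ) (j : Fin 3) : Hom0 (bm m σ j) := by
  refine ⟨?_, fun v t ht => ?_⟩
  · have h1 : ∀ i, ContDiffOn ℝ 1 (fun a => m.om (yy σ a) (bv j) (bv i)) {0}ᶜ := fun i =>
      ((ok.com.comp_contDiffOn (hy fr).c1).clm_apply contDiffOn_const).clm_apply contDiffOn_const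
    have h2 := (hn fr).h0.c1
    rw [funext (bm_eq j)]
    exact (((co h2 0).mul (co (h1 1) 2)).add ((co h2 1).mul (co (h1 2) 0))).add
      ((co h2 2).mul (co (h1 0) 1))
  · rw [bm, bm, (hn fr).h0.hom v t ht, (hy fr).hom v t ht]

theorem con_det {w : V → V} {D : V → V →L[ℝ] V} (hw : ContinuousOn w {0}ᶜ)
    (hD : ContinuousOn D {0}ᶜ) (ew : ∀ (v : V) (t : ℝ), 0 < t → w (t • v) = w v)
    (eD : ∀ (v : V) (t : ℝ), 0 < t → ‖t • v‖ • D (t • v) = ‖v‖ • D v) :
    Con0 fun v => (ext v (w v) (D v)).det := by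
  refine ⟨ContinuousLinearMap.continuous_det.comp_continuousOn ?_, fun v t ht => ?_⟩
  · have h1 : ContinuousOn (fun v : V => ‖v‖⁻¹ • v) {0}ᶜ :=
      (continuous_norm.continuousOn.inv₀ fun v hv => norm_ne_zero_iff.2 hv).smul continuousOn_id
    refine (continuous_norm.continuousOn.smul hD).add ?_
    have h2 : Continuous fun q : (V →L[ℝ] ℝ) × V => q.1.smulRight q.2 :=
      (ContinuousLinearMap.smulRightL ℝ V V).continuous₂
    exact h2.comp_continuousOn (((innerSL ℝ).continuous.comp_continuousOn h1).prodMk hw)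
  · have e : ‖t • v‖⁻¹ • t • v = ‖v‖⁻¹ • v := by
      by_cases hv : v = 0
      · simp [hv]
      · rw [norm_smul, Real.norm_eq_abs, abs_of_pos ht, smul_smul]
        congr 1
        have : ‖v‖ ≠ 0 := norm_ne_zero_iff.2 hv
        field_simp
    simp only [ext, ew v t ht, eD v t ht, e]

end XG2

open XG2 in
theorem xG2 (h3 : SHOM) : SG2 := by
  intro m σ ok fr
  obtain ⟨cY, -, -, eY⟩ := h3 V _ (hy fr)
  obtain ⟨cN, -, -, eN⟩ := h3 V _ (hn fr).h0
  have c0Y := (hy fr).c1.continuousOn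
  have c0N := (hn fr).h0.c1.continuousOn
  refine ⟨hn fr, hy fr, hb ok fr, fun j => ⟨co (hy fr).c1 j, fun v t ht => ?_⟩,
    con_det c0N ?_ (hn fr).h0.hom fun v t ht => ?_,
    con_det c0N ?_ (hn fr).h0.hom fun v t ht => ?_⟩
  · rw [(hy fr).hom v t ht]
  · refine cN.add (ContinuousOn.clm_comp ?_ cY)
    have h1 : ContinuousOn (fun a => (m.om (yy σ a)).flip) {0}ᶜ :=
      (ContinuousLinearMap.flipₗᵢ ℝ V V V).continuous.comp_continuousOn
        (ok.com.continuous.comp_continuousOn c0Y)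
    exact h1.clm_apply c0N
  · rw [smul_add, smul_add, eN v t ht, ← ContinuousLinearMap.comp_smul,
      ← ContinuousLinearMap.comp_smul, eY v t ht, (hn fr).h0.hom v t ht, (hy fr).hom v t ht]
  · exact (ok.cS.continuous.comp_continuousOn c0Y).clm_comp cY
  · rw [← ContinuousLinearMap.comp_smul, ← ContinuousLinearMap.comp_smul, eY v t ht,
      (hy fr).hom v t ht]

open XG2 in
theorem xLK : SLK := by
  intro m σ ok fr a ha
  have h0 : a ≠ 0 := by
    rintro rfl
    simp at ha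
  have mem : ({0}ᶜ : Set V) ∈ nhds a := isOpen_ne.mem_nhds h0
  have d : DifferentiableAt ℝ σ a := ((c1 fr).contDiffAt mem).differentiableAt (by norm_num)
  have dN : DifferentiableAt ℝ (nn σ) a :=
    ((hn fr).h0.c1.contDiffAt mem).differentiableAt (by norm_num)
  have eY : fderiv ℝ (yy σ) a = _ := d.hasFDerivAt.fst.fderiv
  have en : nn σ a = (σ a).2 := by rw [nn, ha, inv_one, one_smul]
  have e2 : (fun x => (σ x).2) =ᶠ[nhds a] fun x => ‖x‖ • nn σ x := by
    filter_upwards [mem] with x hx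
    rw [nn, smul_smul, mul_inv_cancel₀ (norm_ne_zero_iff.2 hx), one_smul]
  have dn : HasFDerivAt (fun x : V => ‖x‖) (innerSL ℝ a) a := by
    have h1 := (hasStrictFDerivAt_norm_sq a).hasFDerivAt.sqrt (by rw [ha]; norm_num)
    simp only [Real.sqrt_sq (norm_nonneg _), ha] at h1
    refine h1.congr_fderiv ?_
    ext x
    simp
  have e3 : (ContinuousLinearMap.snd ℝ V V).comp (fderiv ℝ σ a) =
      ‖a‖ • fderiv ℝ (nn σ) a + (innerSL ℝ a).smulRight (nn σ a) :=
    d.hasFDerivAt.snd.unique ((dn.smul dN.hasFDerivAt).congr_of_eventuallyEq e2)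
  constructor
  · rw [MF.dt, fP]
    congr 1
    ext1 e
    have := congrArg (fun L : V →L[ℝ] V => L e) e3
    simp only [ContinuousLinearMap.comp_apply, add_apply, smul_apply, ha, one_smul] at this
    simp only [MF.A', MF.ver, ext, ContinuousLinearMap.comp_apply, add_apply, smul_apply, ha,
      one_smul, inv_one, this, eY, en, yy, zero_smul, add_zero, ContinuousLinearMap.flip_apply]
    abel
  · rw [MF.dl, fQ]
    congr 1
    ext1 e
    simp only [MF.A, MF.hor, ext, ContinuousLinearMap.comp_apply, add_apply, smul_apply, ha,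
      one_smul, inv_one, eY, en, yy]

end Pool.Agent.MP_3ee8cb_gt.D3GB
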