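import Pool.Agent.MP_3ee8cb_gt.D3GB.Spec

/-! The curvature form on the plane orthogonal to a unit vector. -/

namespace Pool.Agent.MP_3ee8cb_gt.D3GB

open Pool.Agent.MP_3ee8cb_gt.CR Pool.Agent.MP_3ee8cb_gt.TB
open scoped RealInnerProductSpace

namespace RKP

theorem inner3 (a b : V) : ⟪a, b⟫ = a 0 * b 0 + a 1 * b 1 + a 2 * b 2 := by
  simp only [PiLp.inner_apply, Fin.sum_univ_three, RCLike.inner_apply, conj_trivial]
  ring

theorem cr0 (a b : V) : cr a b 0 = a 1 * b 2 - a 2 * b 1 := rfl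
theorem cr1 (a b : V) : cr a b 1 = a 2 * b 0 - a 0 * b 2 := rfl
theorem cr2 (a b : V) : cr a b 2 = a 0 * b 1 - a 1 * b 0 := rfl

theorem dec (X : V) : X = X 0 • bv 0 + X 1 • bv 1 + X 2 • bv 2 := by
  ext i
  fin_cases i <;> simp [bv]

theorem expand (b : V → V → ℝ) (ha : ∀ x y z, b (x + y) z = b x z + b y z)
    (hs : ∀ (c : ℝ) x z, b (c • x) z = c * b x z) (hn : ∀ x y, b x y = -b y x) (X Y : V) :
    b X Y = b (bv 1) (bv 2) * cr X Y 0 + b (bv 2) (bv 0) * cr X Y 1 +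
      b (bv 0) (bv 1) * cr X Y 2 := by
  have h1 : ∀ X Z : V, b X Z = X 0 * b (bv 0) Z + X 1 * b (bv 1) Z + X 2 * b (bv 2) Z := by
    intro X Z
    have := congrArg (fun x => b x Z) (dec X)
    simp only [ha, hs] at this
    exact this
  have h0 : ∀ x, b x x = 0 := fun x => by linarith [hn x x]
  rw [h1 X Y, hn (bv 0) Y, hn (bv 1) Y, hn (bv 2) Y, h1 Y (bv 0), h1 Y (bv 1), h1 Y (bv 2),
    h0, h0, h0, hn (bv 1) (bv 0), hn (bv 2) (bv 1), hn (bv 0) (bv 2), cr0, cr1, cr2]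
  ring

/-- the cross product of two vectors orthogonal to a unit vector -/
theorem cr_perp (n X Y : V) (hn : ⟪n, n⟫ = 1) (hX : ⟪n, X⟫ = 0) (hY : ⟪n, Y⟫ = 0) :
    cr X Y 0 = trip n X Y * n 0 ∧ cr X Y 1 = trip n X Y * n 1 ∧ cr X Y 2 = trip n X Y * n 2 := by
  rw [inner3] at hn hX hY
  rw [cr0, cr1, cr2, trip]
  refine ⟨?_, ?_, ?_⟩
  · linear_combination -(X 1 * Y 2 - X 2 * Y 1) * hn + (n 1 * Y 2 - n 2 * Y 1) * hX -
      (n 1 * X 2 - n 2 * X 1) * hY
  · linear_combination -(X 2 * Y 0 - X 0 * Y 2) * hn + (n 2 * Y 0 - n 0 * Y 2) * hX -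
      (n 2 * X 0 - n 0 * X 2) * hY
  · linear_combination -(X 0 * Y 1 - X 1 * Y 0) * hn + (n 0 * Y 1 - n 1 * Y 0) * hX -
      (n 0 * X 1 - n 1 * X 0) * hY

end RKP

open RKP in
theorem rKP : SKP := by
  intro h C θ Ξ lo hi y w F hR hlh hP hw
  have hinj : Function.Injective (θ y : V →ₗ[ℝ] V) :=
    (injective_iff_map_eq_zero _).2 fun x hx => F.pos y x 0 le_rfl (by simpa using hx)
  let e : V ≃ₗ[ℝ] V := LinearEquiv.ofInjectiveEndo _ hinj
  have he : ∀ u, e.symm (θ y u) = u := fun u => e.symm_apply_apply u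
  have hn : ⟪θ y w, θ y w⟫ = 1 := by rw [F.iso, hw]
  obtain ⟨m0, m1, m2, hm⟩ : ∃ m0 m1 m2 : ℝ, ∀ u v, ⟪θ y w, Om Ξ y u v⟫ =
      m0 * cr (θ y u) (θ y v) 0 + m1 * cr (θ y u) (θ y v) 1 + m2 * cr (θ y u) (θ y v) 2 := by
    have := expand (fun X Y => ⟪θ y w, Om Ξ y (e.symm X) (e.symm Y)⟫) ?_ ?_ ?_
    · exact ⟨_, _, _, fun u v => by simpa only [he] using this (θ y u) (θ y v)⟩
    · intro a b c
      simp only [inner3, Om, map_add, add_apply, PiLp.add_apply,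
        PiLp.sub_apply, cr0, cr1, cr2]
      ring
    · intro c a b
      simp only [inner3, Om, map_smul, smul_apply, PiLp.add_apply,
        PiLp.sub_apply, PiLp.smul_apply, smul_eq_mul, cr0, cr1, cr2]
      ring
    · intro a b
      simp only [inner3, Om, PiLp.add_apply, PiLp.sub_apply, cr0, cr1, cr2]
      ring
  have key : ∀ u v, h y w u = 0 → h y w v = 0 → ⟪θ y w, Om Ξ y u v⟫ =
      (m0 * θ y w 0 + m1 * θ y w 1 + m2 * θ y w 2) * trip (θ y w) (θ y u) (θ y v) := by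
    intro u v hu hv
    obtain ⟨c0, c1, c2⟩ := cr_perp (θ y w) (θ y u) (θ y v) hn (by rw [F.iso, hu])
      (by rw [F.iso, hv])
    rw [hm, c0, c1, c2]
    ring
  by_cases hT : ∀ u v, h y w u = 0 → h y w v = 0 → trip (θ y w) (θ y u) (θ y v) = 0
  · exact ⟨lo, le_rfl, hlh, fun u v hu hv => by rw [key u v hu hv, hT u v hu hv]; ring⟩
  · push Not at hT
    obtain ⟨u, v, hu, hv, hT⟩ := hT
    obtain ⟨c0, c1, c2⟩ := cr_perp (θ y w) (θ y u) (θ y v) hn (by rw [F.iso, hu])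
      (by rw [F.iso, hv])
    have k := key u v hu hv
    generalize m0 * θ y w 0 + m1 * θ y w 1 + m2 * θ y w 2 = κ at k key
    have g1 : h y u u * h y v v - h y u v ^ 2 = trip (θ y w) (θ y u) (θ y v) ^ 2 := by
      rw [← F.iso, ← F.iso, ← F.iso, inner3, inner3, inner3]
      rw [inner3] at hn
      rw [cr0] at c0
      rw [cr1] at c1
      rw [cr2] at c2
      generalize trip (θ y w) (θ y u) (θ y v) = T at c0 c1 c2
      linear_combination (θ y u 1 * θ y v 2 - θ y u 2 * θ y v 1 + T * θ y w 0) * c0 +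
        (θ y u 2 * θ y v 0 - θ y u 0 * θ y v 2 + T * θ y w 1) * c1 +
        (θ y u 0 * θ y v 1 - θ y u 1 * θ y v 0 + T * θ y w 2) * c2 + T ^ 2 * hn
    have g2 : h y (Rm C y u v v) u = -(κ * trip (θ y w) (θ y u) (θ y v) ^ 2) := by
      rw [← F.iso, hR, inner3, cr0, cr1, cr2]
      rw [inner3] at k
      rw [cr0] at c0
      rw [cr1] at c1
      rw [cr2] at c2
      generalize trip (θ y w) (θ y u) (θ y v) = T at c0 c1 c2 k
      linear_combination -Om Ξ y u v 0 * c0 - Om Ξ y u v 1 * c1 - Om Ξ y u v 2 * c2 - T * k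
    obtain ⟨p1, p2⟩ := hP y u v
    rw [g1, g2] at p1 p2
    have hpos : 0 < trip (θ y w) (θ y u) (θ y v) ^ 2 := by positivity
    exact ⟨κ, le_of_mul_le_mul_right (by linarith) hpos,
      le_of_mul_le_mul_right (by linarith) hpos, key⟩

end Pool.Agent.MP_3ee8cb_gt.D3GB
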