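import Pool.Agent.MP_3ee8cb_gt.D3GB.Spec

/-! Row PT: the pointwise Gauss-Bonnet identity. -/

namespace Pool.Agent.MP_3ee8cb_gt.D3GB

open Pool.Agent.MP_3ee8cb_gt.CR Pool.Agent.MP_3ee8cb_gt.TB Set MeasureTheory Metric
open scoped RealInnerProductSpace

namespace RPT

theorem inner3 (a b : V) : ⟪a, b⟫ = a 0 * b 0 + a 1 * b 1 + a 2 * b 2 := by
  simp only [PiLp.inner_apply, Fin.sum_univ_three, RCLike.inner_apply, conj_trivial]
  ring

theorem cr0 (a b : V) : cr a b 0 = a 1 * b 2 - a 2 * b 1 := rfl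

theorem cr1 (a b : V) : cr a b 1 = a 2 * b 0 - a 0 * b 2 := rfl

theorem cr2 (a b : V) : cr a b 2 = a 0 * b 1 - a 1 * b 0 := rfl

theorem alg (n p q A B : V) (hn : ⟪n, n⟫ = 1) (hp : ⟪n, p⟫ = 0) (hq : ⟪n, q⟫ = 0) :
    trip n (p + cr A n) (q + cr B n) = trip n p q - ⟪p, B⟫ + ⟪q, A⟫ + ⟪n, cr A B⟫ := by
  simp only [inner3] at hn hp hq ⊢
  simp only [trip, PiLp.add_apply, cr0, cr1, cr2]
  linear_combination
    (-(p 0 * B 0 + p 1 * B 1 + p 2 * B 2) + (q 0 * A 0 + q 1 * A 1 + q 2 * A 2) +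
      (n 0 * (A 1 * B 2 - A 2 * B 1) + n 1 * (A 2 * B 0 - A 0 * B 2) +
        n 2 * (A 0 * B 1 - A 1 * B 0))) * hn +
    (n 0 * B 0 + n 1 * B 1 + n 2 * B 2) * hp - (n 0 * A 0 + n 1 * A 1 + n 2 * A 2) * hq

theorem comp_ext (T : V →L[ℝ] V) (v w : V) (D : V →L[ℝ] V) :
    T.comp (ext v w D) = ext v (T w) (T.comp D) := by
  ext1 e
  simp only [ext, ContinuousLinearMap.comp_apply, add_apply,
    smul_apply, ContinuousLinearMap.smulRight_apply, map_add, map_smul]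

theorem det_mul (T : V →L[ℝ] V) (v w : V) (D : V →L[ℝ] V) :
    T.det * (ext v w D).det = (ext v (T w) (T.comp D)).det := by
  rw [← comp_ext]
  unfold ContinuousLinearMap.det
  exact (LinearMap.det_comp _ _).symm

theorem det_ev (h4 : SDET) (T : V →L[ℝ] V) (v w : V) (D : V →L[ℝ] V) (hv : v ≠ 0)
    (hD : D v = 0) :
    T.det * (ext v w D).det = ev v fun a b => trip (T w) (T (D a)) (T (D b)) := by
  rw [det_mul, h4 v (T w) (T.comp D) hv (by simp [hD])]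
  rfl

theorem sum_bv (u : V) : u = u 0 • bv 0 + u 1 • bv 1 + u 2 • bv 2 := by
  ext i
  fin_cases i <;> simp [bv]

theorem inner_sum (p : V) (L : V →L[ℝ] V) (u : V) :
    ⟪p, L u⟫ = ⟪p, L (bv 0)⟫ * u 0 + ⟪p, L (bv 1)⟫ * u 1 + ⟪p, L (bv 2)⟫ * u 2 := by
  have e : L u = u 0 • L (bv 0) + u 1 • L (bv 1) + u 2 • L (bv 2) := by
    conv_lhs => rw [sum_bv u]
    simp only [map_add, map_smul]
  rw [e]
  simp only [inner_add_right, inner_smul_right]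
  ring

theorem fd_app {A : V → V →L[ℝ] V} {Y W : V → V} {v : V} (hA : DifferentiableAt ℝ A (Y v))
    (hY : DifferentiableAt ℝ Y v) (hW : DifferentiableAt ℝ W v) (e : V) :
    fderiv ℝ (fun x => A (Y x) (W x)) v e =
      fderiv ℝ A (Y v) (fderiv ℝ Y v e) (W v) + A (Y v) (fderiv ℝ W v e) := by
  have h1 := (hA.hasFDerivAt.comp v hY.hasFDerivAt).clm_apply hW.hasFDerivAt
  have h2 : fderiv ℝ (fun x => A (Y x) (W x)) v = _ := h1.fderiv
  rw [h2]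
  simp only [add_apply, ContinuousLinearMap.comp_apply,
    ContinuousLinearMap.flip_apply, Function.comp]
  rw [add_comm]

theorem fd_orth {H : V → V} {v : V} (hv : v ≠ 0) (hH : DifferentiableAt ℝ H v)
    (hu : ∀ x, x ≠ 0 → ‖H x‖ = 1) (e : V) : ⟪H v, fderiv ℝ H v e⟫ = 0 := by
  have h1 := hH.hasFDerivAt.inner ℝ hH.hasFDerivAt
  have h2 : (fun x => ⟪H x, H x⟫) =ᶠ[nhds v] fun _ => (1 : ℝ) := by
    filter_upwards [isOpen_ne.mem_nhds hv] with x hx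
    rw [real_inner_self_eq_norm_sq, hu x hx]
    norm_num
  have h3 := (hasFDerivAt_const (𝕜 := ℝ) (1 : ℝ) v).congr_of_eventuallyEq h2
  have h4 := congrArg (fun L : V →L[ℝ] ℝ => L e) (h1.unique h3)
  simp only [ContinuousLinearMap.comp_apply, ContinuousLinearMap.prod_apply, fderivInnerCLM_apply,
    zero_apply] at h4
  rw [real_inner_comm (H v) (fderiv ℝ H v e)] at h4
  linarith

theorem fd_be {N Y : V → V} {Ξ : V → V →L[ℝ] V} {v : V} (hN : DifferentiableAt ℝ N v)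
    (hΞ : DifferentiableAt ℝ Ξ (Y v)) (hY : DifferentiableAt ℝ Y v) (c e : V) :
    fderiv ℝ (fun x => ⟪N x, Ξ (Y x) c⟫) v e =
      ⟪N v, fderiv ℝ Ξ (Y v) (fderiv ℝ Y v e) c⟫ + ⟪fderiv ℝ N v e, Ξ (Y v) c⟫ := by
  have hd : DifferentiableAt ℝ (fun x => Ξ (Y x) c) v :=
    (hΞ.comp v hY).clm_apply (differentiableAt_const c)
  rw [fderiv_inner_apply ℝ hN hd, fd_app hΞ hY (differentiableAt_const c)]
  simp

theorem fd_co {Y : V → V} {v : V} (hY : DifferentiableAt ℝ Y v) (j : Fin 3) (e : V) :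
    fderiv ℝ (fun x => Y x j) v e = fderiv ℝ Y v e j := by
  have h1 := (EuclideanSpace.proj j : V →L[ℝ] ℝ).hasFDerivAt.comp v hY.hasFDerivAt
  have h2 : fderiv ℝ (fun x => Y x j) v = _ := h1.fderiv
  rw [h2]
  rfl

theorem ev_comb (v : V) (κ : ℝ) (P A J B0 B1 B2 : V → V → ℝ)
    (h : ∀ a b, P a b - κ * A a b = J a b - (B0 a b + B1 a b + B2 a b)) :
    ev v P - κ * ev v A = ev v J - (ev v B0 + ev v B1 + ev v B2) := by
  unfold ev
  linear_combination ‖v‖ * v 0 * h (bv 1) (bv 2) + ‖v‖ * v 1 * h (bv 2) (bv 0) +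
    ‖v‖ * v 2 * h (bv 0) (bv 1)

end RPT

open RPT in
theorem rPT (h3 : SHOM) (h4 : SDET) (h7 : SGS) : SPT := by
  intro h C θ Ξ Y W v κ hF hC hW hv hκ
  obtain ⟨hS, -, -⟩ := h7 h θ Ξ Y W hF hC.smooth hW
  obtain ⟨-, dY, zY, -⟩ := h3 V Y hW.hY
  obtain ⟨-, dW, zW, -⟩ := h3 V W hW.hW
  obtain ⟨-, dN, zN, -⟩ := h3 V (gs θ Y W) hS.h0
  have dθ : DifferentiableAt ℝ θ (Y v) := (hF.smooth.differentiable (by norm_num)) _
  have dΞ : DifferentiableAt ℝ Ξ (Y v) := (hC.smooth.differentiable (by norm_num)) _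
  have hz : cvd C Y W v v = 0 := by
    simp [cvd, zY v hv, zW v hv]
  have hcv : ∀ e, θ (Y v) (cvd C Y W v e) = fderiv ℝ (gs θ Y W) v e +
      cr (Ξ (Y v) (fderiv ℝ Y v e)) (gs θ Y W v) := by
    intro e
    have e1 : fderiv ℝ (gs θ Y W) v e = _ := fd_app dθ (dY v hv) (dW v hv) e
    have e2 := hC.conn (Y v) (fderiv ℝ Y v e) (W v)
    have e3 : cvd C Y W v e = fderiv ℝ W v e + C (Y v) (fderiv ℝ Y v e) (W v) := rfl
    have e4 : gs θ Y W v = θ (Y v) (W v) := rfl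
    rw [e1, e3, e4, ← e2, map_add]
    abel
  have hn : ⟪gs θ Y W v, gs θ Y W v⟫ = 1 := by
    rw [real_inner_self_eq_norm_sq, hS.unit v hv]
    norm_num
  have ho := fd_orth hv (dN v hv) hS.unit
  unfold dP dA jac
  rw [← hF.det, det_ev h4 _ v _ _ hv hz, det_ev h4 _ v _ _ hv (zY v hv),
    h4 v _ _ hv (zN v hv), Fin.sum_univ_three]
  unfold br
  refine ev_comb v κ _ _ _ _ _ _ fun a b => ?_
  have hb : ∀ j e, fderiv ℝ (be θ Ξ Y W j) v e = _ := fun j e =>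
    fd_be (dN v hv) dΞ (dY v hv) (bv j) e
  have k := hκ _ _ (hW.leg v hv a) (hW.leg v hv b)
  have e4 : θ (Y v) (W v) = gs θ Y W v := rfl
  rw [← k, hcv a, hcv b, e4, alg _ _ _ _ _ hn (ho a) (ho b)]
  simp only [hb, fd_co (dY v hv), Om, inner_add_right, inner_sub_right]
  rw [inner_sum (fderiv ℝ (gs θ Y W) v a) (Ξ (Y v)) (fderiv ℝ Y v b),
    inner_sum (fderiv ℝ (gs θ Y W) v b) (Ξ (Y v)) (fderiv ℝ Y v a),
    inner_sum (gs θ Y W v) (fderiv ℝ Ξ (Y v) (fderiv ℝ Y v a)) (fderiv ℝ Y v b),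
    inner_sum (gs θ Y W v) (fderiv ℝ Ξ (Y v) (fderiv ℝ Y v b)) (fderiv ℝ Y v a)]
  ring

end Pool.Agent.MP_3ee8cb_gt.D3GB
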