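import Pool.Agent.MP_3ee8cb_gt.D3GB.Spec2
import Pool.Agent.MP_3ee8cb_gt.D3GB.RPT
import Pool.Agent.MP_3ee8cb_gt.D3GB.RKP

/-! The curvature bound in moving frames. -/

namespace Pool.Agent.MP_3ee8cb_gt.D3GB

open Set MeasureTheory Metric
open Pool.Agent.MP_3ee8cb_gt.D3 (MF)
open scoped RealInnerProductSpace

namespace XP2

open RPT

theorem inner_bv (x : V) (i : Fin 3) : ⟪x, bv i⟫ = x i := by
  simp [bv, EuclideanSpace.inner_single_right]

theorem bv_inner (x : V) (i : Fin 3) : ⟪bv i, x⟫ = x i := by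
  rw [real_inner_comm, inner_bv]

/-- a skew map is a cross product -/
theorem skew_cr (L : V →L[ℝ] V) (hL : ∀ a b, ⟪L a, b⟫ = -⟪a, L b⟫) (c : V) :
    L c = cr (WithLp.toLp 2 ![L (bv 1) 2, L (bv 2) 0, L (bv 0) 1]) c := by
  have h : ∀ i j, L (bv i) j = -L (bv j) i := fun i j => by
    have := hL (bv i) (bv j)
    rwa [inner_bv, bv_inner] at this
  have e : L c = c 0 • L (bv 0) + c 1 • L (bv 1) + c 2 • L (bv 2) := by
    conv_lhs => rw [sum_bv c]
    simp only [map_add, map_smul]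
  have h0 := h 0 0
  have h1 := h 1 1
  have h2 := h 2 2
  have h01 := h 0 1
  have h12 := h 1 2
  have h20 := h 2 0
  rw [e]
  ext i
  fin_cases i
  · change c 0 * L (bv 0) 0 + c 1 * L (bv 1) 0 + c 2 * L (bv 2) 0 =
      L (bv 2) 0 * c 2 - L (bv 0) 1 * c 1
    linear_combination (c 0 / 2) * h0 + c 1 * h01
  · change c 0 * L (bv 0) 1 + c 1 * L (bv 1) 1 + c 2 * L (bv 2) 1 =
      L (bv 0) 1 * c 0 - L (bv 1) 2 * c 2
    linear_combination (c 1 / 2) * h1 + c 2 * h12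
  · change c 0 * L (bv 0) 2 + c 1 * L (bv 1) 2 + c 2 * L (bv 2) 2 =
      L (bv 1) 2 * c 1 - L (bv 2) 0 * c 0
    linear_combination (c 2 / 2) * h2 + c 0 * h20

/-- evaluation of a matrix entry -/
noncomputable def ent (i j : Fin 3) : (V →L[ℝ] V) →L[ℝ] ℝ :=
  (EuclideanSpace.proj j : V →L[ℝ] ℝ).comp (ContinuousLinearMap.apply ℝ V (bv i))

/-- the axial vector as a linear map -/
noncomputable def axl : (V →L[ℝ] V) →L[ℝ] V :=
  (ent 1 2).smulRight (bv 0) + (ent 2 0).smulRight (bv 1) + (ent 0 1).smulRight (bv 2)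

theorem axl_eq (L : V →L[ℝ] V) :
    axl L = WithLp.toLp 2 ![L (bv 1) 2, L (bv 2) 0, L (bv 0) 1] := by
  ext i
  fin_cases i <;> simp [axl, ent, bv]

end XP2

open RKP in
theorem xK2 : SK2 := by
  intro m lo hi y n ok jc up dn hn1
  have hn : ⟪n, n⟫ = 1 := by
    rw [real_inner_self_eq_norm_sq, hn1]
    norm_num
  obtain ⟨L, hL⟩ := jc.lK y
  have hK : ∀ u v c, m.Om y u v c = L (m.S y u) (m.S y v) c := fun u v c => by
    rw [← hL, MF.K, ok.RS, ok.RS]
  have hs : ∀ X Y a b, ⟪L X Y a, b⟫ = -⟪a, L X Y b⟫ := fun X Y a b => by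
    rw [← hL, ← hL]
    exact jc.sK y X Y a b
  have hO : ∀ u v, aO m y u v = XP2.axl (L (m.S y u) (m.S y v)) := fun u v => by
    rw [XP2.axl_eq, aO, hK, hK, hK]
  have hc : ∀ X Y c, L X Y c = cr (XP2.axl (L X Y)) c := fun X Y c => by
    rw [XP2.axl_eq]
    exact XP2.skew_cr _ (hs X Y) c
  obtain ⟨m0, m1, m2, hm⟩ : ∃ m0 m1 m2 : ℝ, ∀ X Y, ⟪n, XP2.axl (L X Y)⟫ =
      m0 * cr X Y 0 + m1 * cr X Y 1 + m2 * cr X Y 2 := by
    refine ⟨_, _, _, expand (fun X Y => ⟪n, XP2.axl (L X Y)⟫) ?_ ?_ ?_⟩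
    · intro a b c
      simp only [map_add, add_apply, inner_add_right]
    · intro c a b
      simp only [map_smul, smul_apply, inner_smul_right]
    · intro a b
      have : L a b = -L b a := by
        ext1 c
        rw [neg_apply, ← hL, ← hL]
        exact jc.aK y a b c
      rw [this, map_neg, inner_neg_right]
  have key : ∀ X Y, ⟪n, X⟫ = 0 → ⟪n, Y⟫ = 0 → ⟪n, XP2.axl (L X Y)⟫ =
      (m0 * n 0 + m1 * n 1 + m2 * n 2) * trip n X Y := by
    intro X Y hu hv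
    obtain ⟨c0, c1, c2⟩ := cr_perp n X Y hn hu hv
    rw [hm, c0, c1, c2]
    ring
  have hlh : lo ≤ hi := by
    have p1 := up y (bv 0) (bv 1)
    have p2 := dn y (bv 0) (bv 1)
    have e : ‖bv 0‖ ^ 2 * ‖bv 1‖ ^ 2 - ⟪bv 0, bv 1⟫ ^ 2 = 1 := by
      rw [XP2.inner_bv]
      simp [bv]
    rw [e] at p1 p2
    linarith
  by_cases hT : ∀ X Y, ⟪n, X⟫ = 0 → ⟪n, Y⟫ = 0 → trip n X Y = 0
  · exact ⟨lo, le_rfl, hlh, fun u v hu hv => by
      rw [hO, key _ _ hu hv, hT _ _ hu hv]; ring⟩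
  · push Not at hT
    obtain ⟨u, v, hu, hv, hT⟩ := hT
    obtain ⟨c0, c1, c2⟩ := cr_perp n u v hn hu hv
    have k := key u v hu hv
    generalize m0 * n 0 + m1 * n 1 + m2 * n 2 = κ at k key
    have g1 : ‖u‖ ^ 2 * ‖v‖ ^ 2 - ⟪u, v⟫ ^ 2 = trip n u v ^ 2 := by
      rw [← real_inner_self_eq_norm_sq, ← real_inner_self_eq_norm_sq, inner3, inner3, inner3]
      rw [inner3] at hn
      rw [cr0] at c0
      rw [cr1] at c1
      rw [cr2] at c2
      generalize trip n u v = T at c0 c1 c2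
      linear_combination (u 1 * v 2 - u 2 * v 1 + T * n 0) * c0 +
        (u 2 * v 0 - u 0 * v 2 + T * n 1) * c1 + (u 0 * v 1 - u 1 * v 0 + T * n 2) * c2 +
        T ^ 2 * hn
    have g2 : -⟪m.K y u v v, u⟫ = κ * trip n u v ^ 2 := by
      rw [hL, hc, inner3, cr0, cr1, cr2]
      rw [inner3] at k
      rw [cr0] at c0
      rw [cr1] at c1
      rw [cr2] at c2
      generalize trip n u v = T at c0 c1 c2 k
      linear_combination XP2.axl (L u v) 0 * c0 + XP2.axl (L u v) 1 * c1 +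
        XP2.axl (L u v) 2 * c2 + T * k
    have p1 := up y u v
    have p2 := dn y u v
    rw [g1, g2] at p1 p2
    have hpos : 0 < trip n u v ^ 2 := by positivity
    exact ⟨κ, le_of_mul_le_mul_right p1 hpos, le_of_mul_le_mul_right p2 hpos,
      fun a b ha hb => by rw [hO, key _ _ ha hb]⟩

end Pool.Agent.MP_3ee8cb_gt.D3GB
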