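import Pool.Agent.MP_3ee8cb_gt.D3GB.Spec2
import Pool.Agent.MP_3ee8cb_gt.D3IN.RSph

/-! Integrals over the sphere and over the ball. -/

namespace Pool.Agent.MP_3ee8cb_gt.D3GB

theorem rSPH : SSPH := by
  intro J hJ
  have h := D3IN.sph 3 J (by norm_num) (hJ.c0.mono fun v hv e => by
    rw [Set.mem_singleton_iff.1 e] at hv
    simp at hv)
  have e : ∀ v : V, J (‖v‖⁻¹ • v) = J v := fun v => by
    by_cases h0 : v = 0
    · rw [h0, smul_zero]
    · exact hJ.hom v _ (inv_pos.2 (norm_pos_iff.2 h0))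
  simp only [e] at h
  rw [h, D3.sph]
  push_cast
  ring

end Pool.Agent.MP_3ee8cb_gt.D3GB
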