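import Pool.Agent.MP_3ee8cb_gt.D3GB.Spec2
import Pool.Agent.MP_3ee8cb_gt.D3GB.RSPH

/-! Polar coordinates. -/

namespace Pool.Agent.MP_3ee8cb_gt.D3GB

open Set MeasureTheory Metric

namespace XPOL

theorem bdd {J : V → ℝ} (hJ : Con0 J) : ∃ C, ∀ v, v ≠ 0 → ‖J v‖ ≤ C := by
  have hc : ContinuousOn J (sphere (0 : V) 1) := hJ.c0.mono fun v hv e => by
    rw [mem_singleton_iff.1 e] at hv
    simp at hv
  obtain ⟨C, hC⟩ := (isCompact_sphere (0 : V) 1).exists_bound_of_continuousOn hc
  refine ⟨C, fun v hv => ?_⟩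
  have h : ‖v‖ ≠ 0 := norm_ne_zero_iff.2 hv
  rw [← hJ.hom v ‖v‖⁻¹ (inv_pos.2 (norm_pos_iff.2 hv))]
  exact hC _ (by simp [norm_smul, h])

theorem ae_ne : ∀ᵐ v : V, v ≠ 0 := compl_mem_ae_iff.2 (measure_singleton (0 : V))

theorem meas {J : V → ℝ} (hJ : Con0 J) : AEStronglyMeasurable J volume := by
  have h := hJ.c0.aestronglyMeasurable (μ := volume) (measurableSet_singleton (0 : V)).compl
  rwa [restrict_compl_singleton] at h

end XPOL

open XPOL in
theorem xCI : SCI := by
  intro J hJ
  obtain ⟨C, hC⟩ := bdd hJ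
  exact Measure.integrableOn_of_bounded measure_ball_lt_top.ne (meas hJ)
    (ae_restrict_of_ae (ae_ne.mono hC))

open XPOL in
theorem xPOL : SPOL := by
  intro J f a b hJ hf ha h0
  obtain ⟨C, hC⟩ := bdd hJ
  constructor
  · have hs : HasCompactSupport fun v : V => f ‖v‖ :=
      HasCompactSupport.intro (isCompact_closedBall (0 : V) b) fun v hv => h0 _ fun h =>
        hv (mem_closedBall_zero_iff.2 h.2)
    exact ((hf.comp continuous_norm).integrable_of_hasCompactSupport hs).mul_bdd (meas hJ)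
      (ae_ne.mono hC)
  have hd : Module.finrank ℝ V = 3 := finrank_euclideanSpace_fin
  have h1 := (volume : Measure V).measurePreserving_homeomorphUnitSphereProd.integral_comp
    (Homeomorph.measurableEmbedding _) fun z => J z.1 * f z.2
  have h2 : ∫ r : Ioi (0 : ℝ), f r ∂Measure.volumeIoiPow (Module.finrank ℝ V - 1) =
      ∫ r, f r * r ^ 2 := by
    rw [hd]
    simp only [Measure.volumeIoiPow, ENNReal.ofReal]
    rw [integral_withDensity_eq_integral_smul (by fun_prop),
      integral_subtype_comap measurableSet_Ioi fun a => Real.toNNReal (a ^ (3 - 1)) • f a,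
      ← setIntegral_eq_integral_of_forall_compl_eq_zero (s := Ioi (0 : ℝ))
        (f := fun r => f r * r ^ 2) fun r hr => by
          rw [h0 r fun h => hr (ha.trans_le h.1), zero_mul]]
    refine setIntegral_congr_fun measurableSet_Ioi fun x _ => ?_
    simp only [NNReal.smul_def, Real.coe_toNNReal _ (sq_nonneg x), smul_eq_mul]
    ring
  rw [integral_prod_mul (fun s : sphere (0 : V) 1 => J s) fun r : Ioi (0 : ℝ) => f r, h2] at h1
  have h3 := rSPH J hJ
  rw [D3.sph] at h3
  rw [h3] at h1
  have h4 : ∫ v : V, f ‖v‖ * J v = ∫ x : ({0}ᶜ : Set V), J (homeomorphUnitSphereProd V x).1 *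
      f (homeomorphUnitSphereProd V x).2 ∂(Measure.comap Subtype.val volume) := by
    refine ((congrArg (integral · _) (restrict_compl_singleton 0)).symm.trans
      (integral_subtype_comap (measurableSet_singleton _).compl _).symm).trans ?_
    refine integral_congr_ae (.of_forall fun x => ?_)
    simp only [homeomorphUnitSphereProd_apply_fst_coe, homeomorphUnitSphereProd_apply_snd_coe]
    rw [hJ.hom _ _ (inv_pos.2 (norm_pos_iff.2 x.2)), mul_comm]
  rw [h4, h1]
  ring

end Pool.Agent.MP_3ee8cb_gt.D3GB
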