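import Pool.Agent.MP_3ee8cb_gt.D3GB.Spec2

/-! The sign of `det A'` is constant. -/

namespace Pool.Agent.MP_3ee8cb_gt.D3GB

open Set MeasureTheory Metric
open Pool.Agent.MP_3ee8cb_gt.D3 (MF)
open scoped RealInnerProductSpace

namespace XSG

theorem ne_zero {m : MF} {σ : V → V × V} {T : ℝ} (ok : m.OK) (fr : m.Front σ) (gd : m.Good σ T)
    {a : V} (ha : ‖a‖ = 1) : m.dt σ 0 a ≠ 0 := by
  have h0 : a ≠ 0 := by
    rintro rfl
    simp at ha
  have mem : ({0}ᶜ : Set V) ∈ nhds a := isOpen_ne.mem_nhds h0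
  have d : DifferentiableAt ℝ σ a := (fr.c1.contDiffAt mem).differentiableAt (by norm_num)
  have hZ : m.Z 0 = id := funext ok.zero
  have hin : ∀ e, ⟪(σ a).2, (fderiv ℝ σ a e).2⟫ = ⟪a, e⟫ := fun e => by
    have h1 := d.hasFDerivAt.snd.inner ℝ d.hasFDerivAt.snd
    have h2 := (hasFDerivAt_id a).inner ℝ (hasFDerivAt_id a)
    have h3 : (fun x => ⟪(σ x).2, (σ x).2⟫) =ᶠ[nhds a] fun x => ⟪id x, id x⟫ := by
      filter_upwards [mem] with x hx
      rw [real_inner_self_eq_norm_sq, real_inner_self_eq_norm_sq, fr.norm x hx]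
      rfl
    have h4 := congrArg (fun L : V →L[ℝ] ℝ => L e) (h1.unique (h2.congr_of_eventuallyEq h3))
    simp only [ContinuousLinearMap.comp_apply, ContinuousLinearMap.prod_apply,
      fderivInnerCLM_apply, ContinuousLinearMap.coe_snd', ContinuousLinearMap.id_apply, id] at h4
    rw [real_inner_comm (σ a).2 (fderiv ℝ σ a e).2, real_inner_comm a e] at h4
    linarith
  have hinj : ∀ e, m.A' σ a e = 0 → e = 0 := fun e he => by
    have h1 : m.A' σ a e = (fderiv ℝ σ a e).2 + m.om (σ a).1 (fderiv ℝ σ a e).1 (σ a).2 := rfl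
    have h2 := ok.skew (σ a).1 (fderiv ℝ σ a e).1 (σ a).2 (σ a).2
    rw [real_inner_comm] at h2
    have h3 : ⟪(σ a).2, m.A' σ a e⟫ = ⟪a, e⟫ := by
      rw [h1, inner_add_right, hin]
      linarith
    rw [he, inner_zero_right] at h3
    refine gd.inj a e 0 ha h3.symm ?_
    rw [MF.J', hZ, fderiv_id]
    exact he
  intro hd
  have h5 : m.A' σ a + (0 : ℝ) • m.A σ a = m.A' σ a := by
    ext1 e
    simp
  rw [MF.dt, h5] at hd
  obtain ⟨e, he, h6⟩ := (LinearMap.det_eq_zero_iff_ker_ne_bot.1 hd |> Submodule.exists_mem_ne_zero_of_ne_bot)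
  exact h6 (hinj e he)

end XSG

theorem xSG (h7 : SG2) (h8 : SLK) : SSG := by
  intro m σ T ok fr gd
  obtain ⟨-, -, -, -, cP, -⟩ := h7 m σ ok fr
  have hc : ContinuousOn (fP m σ) (sphere (0 : V) 1) := cP.c0.mono fun v hv e => by
    rw [mem_singleton_iff.1 e] at hv
    simp at hv
  have hne : ∀ a ∈ sphere (0 : V) 1, fP m σ a ≠ 0 := fun a ha => by
    have ha' : ‖a‖ = 1 := by simpa using ha
    rw [← (h8 m σ ok fr a ha').1]
    exact XSG.ne_zero ok fr gd ha'
  have hp : IsPreconnected (sphere (0 : V) 1) := isPreconnected_sphere (by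
    rw [← Module.finrank_eq_rank]
    simp) _ _
  by_cases hpos : ∀ a ∈ sphere (0 : V) 1, 0 < fP m σ a
  · exact ⟨1, Or.inl rfl, fun a ha => by
      rw [one_mul, (h8 m σ ok fr a ha).1]
      exact hpos a (by simpa using ha)⟩
  · push Not at hpos
    obtain ⟨b, hb, hb0⟩ := hpos
    refine ⟨-1, Or.inr rfl, fun a ha => ?_⟩
    have ha' : a ∈ sphere (0 : V) 1 := by simpa using ha
    rw [(h8 m σ ok fr a ha).1]
    by_contra hcon
    obtain ⟨c, hc1, hc2⟩ := hp.intermediate_value hb ha' hc ⟨hb0, by linarith⟩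
    exact hne c hc1 hc2

end Pool.Agent.MP_3ee8cb_gt.D3GB
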