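import Pool.Agent.MP_3ee8cb_gt.D3GB.Asm2
import Pool.Agent.MP_3ee8cb_gt.D3GB.RNL
import Pool.Agent.MP_3ee8cb_gt.D3GB.RHOM
import Pool.Agent.MP_3ee8cb_gt.D3GB.RBR
import Pool.Agent.MP_3ee8cb_gt.D3GB.RNA
import Pool.Agent.MP_3ee8cb_gt.D3GB.RAPP
import Pool.Agent.MP_3ee8cb_gt.D3GB.RCH
import Pool.Agent.MP_3ee8cb_gt.D3GB.RINJ
import Pool.Agent.MP_3ee8cb_gt.D3GB.RP2
import Pool.Agent.MP_3ee8cb_gt.D3GB.RHT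
import Pool.Agent.MP_3ee8cb_gt.D3GB.XK2
import Pool.Agent.MP_3ee8cb_gt.D3GB.XG2
import Pool.Agent.MP_3ee8cb_gt.D3GB.XSG
import Pool.Agent.MP_3ee8cb_gt.D3GB.XPOL

/-! Gauss-Bonnet for fronts of constant width. -/

namespace Pool.Agent.MP_3ee8cb_gt.D3GB

theorem sBR : SBR := rBR rNL xPOL rHOM rDET3 rJC

theorem sCH : SCH := rCH (rNA rNL xPOL rHOM rDET rJC) rAPP

theorem sGB : D3.SGB :=
  gb2_of (xG2 rHOM) xLK xK2 (rP2 rHOM rDET (xG2 rHOM)) (xSG (xG2 rHOM) xLK) rHT rSPH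
    (rINJ rHOM rJC xCI) sCH sBR rJC xCI

end Pool.Agent.MP_3ee8cb_gt.D3GB
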