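import Pool.Agent.MP_3ee8cb_gt.D3GB.Spec

/-! Gauss-Bonnet from the rows. -/

namespace Pool.Agent.MP_3ee8cb_gt.D3GB

open Pool.Agent.MP_3ee8cb_gt.CR Pool.Agent.MP_3ee8cb_gt.TB Set MeasureTheory Metric
open scoped RealInnerProductSpace

namespace Asm

/-- normalisation -/
noncomputable def nz (W : V → V) (v : V) : V := ‖W v‖⁻¹ • W v

theorem unit_mem {v : V} (hv : v ≠ 0) : ‖v‖⁻¹ • v ∈ sphere (0 : V) 1 := by
  have : ‖v‖ ≠ 0 := norm_ne_zero_iff.2 hv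
  simp [norm_smul, this]

theorem ne_of_mem {p : V} (hp : p ∈ sphere (0 : V) 1) : p ≠ 0 := by
  rintro rfl
  simp at hp

theorem sph_nz {W : V → V} (hW : Hom0 W) (hne : ∀ v, v ≠ 0 → W v ≠ 0) : Sph (nz W) := by
  refine ⟨⟨?_, fun v t ht => ?_⟩, fun v hv => ?_⟩
  · have h1 : ContDiffOn ℝ 1 (fun v => ‖W v‖) {0}ᶜ :=
      hW.c1.norm ℝ fun v hv => hne v hv
    exact (h1.inv fun v hv => norm_ne_zero_iff.2 (hne v hv)).smul hW.c1
  · simp only [nz, hW.hom v t ht]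
  · have : ‖W v‖ ≠ 0 := norm_ne_zero_iff.2 (hne v hv)
    simp [nz, norm_smul, this]

theorem eq_nz {W : V → V} {p : V} (hne : W p ≠ 0) (t : ℝ) :
    t • W p = (t * ‖W p‖) • nz W p := by
  have : ‖W p‖ ≠ 0 := norm_ne_zero_iff.2 hne
  rw [nz, smul_smul, mul_assoc, mul_inv_cancel₀ this, mul_one]

end Asm

open Asm in
theorem gb_of (rGS : SGS) (rPT : SPT) (rKP : SKP) (rCURV : SCURV) (rCONN : SCONN)
    (rFRAME : SFRAME) (rINJ : SINJ) (rCH : SCH) (rNA : SNA) (rBR : SBR) (rJC : SJC) (rCI : SCI)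
    (rCD : SCD) : SGB := by
  intro h C lo hi ε Y W W₁ K rh gam hlh pin fr h1 inj ht hε
  obtain ⟨θ, hθ⟩ := rFRAME h rh
  obtain ⟨Ξ, hΞ⟩ := rCONN h C θ gam hθ
  obtain ⟨sg, hb, hy⟩ := rGS h θ Ξ Y W hθ hΞ.smooth fr
  have neW : ∀ v, v ≠ 0 → W v ≠ 0 := fun v hv h0 => by
    have := fr.unit v hv
    rw [h0] at this
    simp at this
  have neW₁' : ∀ p ∈ sphere (0 : V) 1, W₁ p ≠ 0 := fun p hp h0 => by
    obtain ⟨t, -, e⟩ := ht.one p hp
    rw [h0, smul_zero] at e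
    exact ht.ne 1 ⟨zero_le_one, le_rfl⟩ p hp e
  have neW₁ : ∀ v, v ≠ 0 → W₁ v ≠ 0 := fun v hv => by
    rw [← h1.hom v ‖v‖⁻¹ (inv_pos.2 (norm_pos_iff.2 hv))]
    exact neW₁' _ (unit_mem hv)
  have s0 := sph_nz fr.hW neW
  have s1 := sph_nz h1 neW₁
  have e1 : ∫ v in ball (0 : V) 1, jac (gs θ Y W) v = ∫ v in ball (0 : V) 1, jac (nz W) v := by
    refine rNA _ _ sg s0 fun v hv h0 => neW v hv ?_
    exact hθ.pos (Y v) (W v) ‖W v‖⁻¹ (inv_nonneg.2 (norm_nonneg _)) h0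
  have e2 : ∫ v in ball (0 : V) 1, jac (nz W) v = ∫ v in ball (0 : V) 1, jac (nz W₁) v := by
    refine rCH _ _ K s0 s1 ⟨ht.cont, ht.ne, fun p hp => ?_, fun p hp => ?_⟩
    · obtain ⟨t, h0, e⟩ := ht.zero p hp
      exact ⟨_, mul_pos h0 (norm_pos_iff.2 (neW p (ne_of_mem hp))),
        e.trans (eq_nz (neW p (ne_of_mem hp)) t)⟩
    · obtain ⟨t, h0, e⟩ := ht.one p hp
      exact ⟨_, mul_pos h0 (norm_pos_iff.2 (neW₁' p hp)), e.trans (eq_nz (neW₁' p hp) t)⟩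
  have e3 : |∫ v in ball (0 : V) 1, jac (nz W₁) v| ≤ volume.real (ball (0 : V) 1) := by
    refine rINJ _ s1 fun p hp q hq e => ?_
    have hq0 : ‖W₁ q‖ ≠ 0 := norm_ne_zero_iff.2 (neW₁' q hq)
    refine inj p hp q hq (‖W₁ p‖ * ‖W₁ q‖⁻¹)
      (mul_pos (norm_pos_iff.2 (neW₁' p hp)) (inv_pos.2 (norm_pos_iff.2 (neW₁' q hq)))) ?_
    have := eq_nz (neW₁' p hp) 1
    rw [one_smul, one_mul, e, nz, smul_smul] at this
    exact this
  have ij : IntegrableOn (jac (gs θ Y W)) (ball (0 : V) 1) := rCI _ (rJC.1 _ sg.h0)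
  have ib : ∀ j, IntegrableOn (br (be θ Ξ Y W j) fun x => Y x j) (ball (0 : V) 1) :=
    fun j => rCI _ (rJC.2 _ _ (hb j) (hy j))
  obtain ⟨cA, cP⟩ := rCD h C Y W rh gam fr.hY fr.hW
  have iA := rCI _ cA
  have iP := rCI _ cP
  have is : IntegrableOn (fun v => ∑ j, br (be θ Ξ Y W j) (fun x => Y x j) v) (ball (0 : V) 1) :=
    integrable_finsetSum _ fun j _ => ib j
  have key : ∫ v in ball (0 : V) 1, (ε * dP h C Y W v - (lo + hi) / 2 * (ε * dA h Y W v) -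
      (hi - lo) / 2 * |dA h Y W v|) ≤ ∫ v in ball (0 : V) 1,
        ε * (jac (gs θ Y W) v - ∑ j, br (be θ Ξ Y W j) (fun x => Y x j) v) := by
    refine integral_mono_ae ?_ ((ij.sub is).const_mul ε) ?_
    · exact ((iP.const_mul ε).sub ((iA.const_mul ε).const_mul _)).sub (iA.abs.const_mul _)
    · have h0 : ∀ᵐ v : V ∂(volume.restrict (ball (0 : V) 1)), v ≠ 0 :=
        ae_restrict_of_ae (compl_mem_ae_iff.2 (measure_singleton (0 : V)))
      filter_upwards [h0] with v hv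
      obtain ⟨κ, k1, k2, hk⟩ := rKP h C θ Ξ lo hi (Y v) (W v) hθ
        (rCURV h C θ Ξ gam hθ hΞ (Y v)) hlh pin (fr.unit v hv)
      rw [← rPT h C θ Ξ Y W v κ hθ hΞ fr hv hk]
      have a1 := le_abs_self (dA h Y W v)
      have a2 := neg_abs_le (dA h Y W v)
      rcases hε with rfl | rfl <;> nlinarith [mul_nonneg (sub_nonneg.2 k1) (sub_nonneg.2 a1),
        mul_nonneg (sub_nonneg.2 k1) (sub_nonneg.2 a2), mul_nonneg (sub_nonneg.2 k2)
        (sub_nonneg.2 a1), mul_nonneg (sub_nonneg.2 k2) (sub_nonneg.2 a2)]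
  refine key.trans ?_
  rw [integral_const_mul, integral_sub ij is, integral_finsetSum _ fun j _ => ib j,
    Finset.sum_eq_zero fun j _ => rBR _ _ (hb j) (hy j), sub_zero, e1, e2]
  have := abs_le.1 e3
  rcases hε with rfl | rfl <;> linarith [this.1, this.2]

end Pool.Agent.MP_3ee8cb_gt.D3GB
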