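import Pool.Agent.MP_3ee8cb_gt.D3GB.Spec2
import Pool.Agent.MP_3ee8cb_gt.D3GB.Asm

/-! Gauss-Bonnet in moving frames from the rows. -/

namespace Pool.Agent.MP_3ee8cb_gt.D3GB

open Set MeasureTheory Metric
open Pool.Agent.MP_3ee8cb_gt.D3 (MF sph zz Wid)
open scoped RealInnerProductSpace

open Asm in
theorem gb2_of (rG2 : SG2) (rLK : SLK) (rK2 : SK2) (rP2 : SP2) (rSG : SSG) (rHT : SHT)
    (rSPH : SSPH) (rINJ : SINJ) (rCH : SCH) (rBR : SBR) (rJC : SJC) (rCI : SCI) : D3.SGB := by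
  intro m lg σ T ok jc up0 had fr good hT wid lo hi up dn
  obtain ⟨sg, -, hb, hy, cP, cQ⟩ := rG2 m σ ok fr
  obtain ⟨ε, hε, hs⟩ := rSG m σ T ok fr good
  obtain ⟨W₁, K, h1, inj, ht⟩ := rHT m lg σ T ok jc up0 had fr good hT wid
  have neW₁' : ∀ p ∈ sphere (0 : V) 1, W₁ p ≠ 0 := fun p hp h0 => by
    obtain ⟨t, -, e⟩ := ht.one p hp
    rw [h0, smul_zero] at e
    exact ht.ne 1 ⟨zero_le_one, le_rfl⟩ p hp e
  have neW₁ : ∀ v, v ≠ 0 → W₁ v ≠ 0 := fun v hv => by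
    rw [← h1.hom v ‖v‖⁻¹ (inv_pos.2 (norm_pos_iff.2 hv))]
    exact neW₁' _ (unit_mem hv)
  have s1 := sph_nz h1 neW₁
  have e2 : ∫ v in ball (0 : V) 1, jac (nn σ) v = ∫ v in ball (0 : V) 1, jac (nz W₁) v := by
    refine rCH _ _ K sg s1 ⟨ht.cont, ht.ne, ht.zero, fun p hp => ?_⟩
    obtain ⟨t, h0, e⟩ := ht.one p hp
    exact ⟨_, mul_pos h0 (norm_pos_iff.2 (neW₁' p hp)), e.trans (eq_nz (neW₁' p hp) t)⟩
  have e3 : |∫ v in ball (0 : V) 1, jac (nz W₁) v| ≤ volume.real (ball (0 : V) 1) := by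
    refine rINJ _ s1 fun p hp q hq e => ?_
    have hq0 : ‖W₁ q‖ ≠ 0 := norm_ne_zero_iff.2 (neW₁' q hq)
    refine inj p hp q hq (‖W₁ p‖ * ‖W₁ q‖⁻¹)
      (mul_pos (norm_pos_iff.2 (neW₁' p hp)) (inv_pos.2 (norm_pos_iff.2 (neW₁' q hq)))) ?_
    have := eq_nz (neW₁' p hp) 1
    rw [one_smul, one_mul, e, nz, smul_smul] at this
    exact this
  have ij : IntegrableOn (jac (nn σ)) (ball (0 : V) 1) := rCI _ (rJC.1 _ sg.h0)
  have ib : ∀ j, IntegrableOn (br (bm m σ j) fun x => yy σ x j) (ball (0 : V) 1) :=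
    fun j => rCI _ (rJC.2 _ _ (hb j) (hy j))
  have iA := rCI _ cQ
  have iP := rCI _ cP
  have is : IntegrableOn (fun v => ∑ j, br (bm m σ j) (fun x => yy σ x j) v) (ball (0 : V) 1) :=
    integrable_finsetSum _ fun j _ => ib j
  have key : ∫ v in ball (0 : V) 1, (ε * fP m σ v - (hi - lo) / 2 * |fQ m σ v| -
      (hi + lo) / 2 * (ε * fQ m σ v)) ≤ ∫ v in ball (0 : V) 1,
        ε * (jac (nn σ) v - ∑ j, br (bm m σ j) (fun x => yy σ x j) v) := by
    refine integral_mono_ae ?_ ((ij.sub is).const_mul ε) ?_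
    · exact ((iP.const_mul ε).sub (iA.abs.const_mul _)).sub ((iA.const_mul ε).const_mul _)
    · have h0 : ∀ᵐ v : V ∂(volume.restrict (ball (0 : V) 1)), v ≠ 0 :=
        ae_restrict_of_ae (compl_mem_ae_iff.2 (measure_singleton (0 : V)))
      filter_upwards [h0] with v hv
      obtain ⟨κ, k1, k2, hk⟩ := rK2 m lo hi (yy σ v) (nn σ v) ok jc up dn (sg.unit v hv)
      rw [← rP2 m σ v κ ok fr hv hk]
      have a1 := le_abs_self (fQ m σ v)
      have a2 := neg_abs_le (fQ m σ v)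
      rcases hε with rfl | rfl <;> nlinarith [mul_nonneg (sub_nonneg.2 k1) (sub_nonneg.2 a1),
        mul_nonneg (sub_nonneg.2 k1) (sub_nonneg.2 a2), mul_nonneg (sub_nonneg.2 k2)
        (sub_nonneg.2 a1), mul_nonneg (sub_nonneg.2 k2) (sub_nonneg.2 a2)]
  have key2 : ∫ v in ball (0 : V) 1, (ε * fP m σ v - (hi - lo) / 2 * |fQ m σ v| -
      (hi + lo) / 2 * (ε * fQ m σ v)) ≤ volume.real (ball (0 : V) 1) := by
    refine key.trans ?_
    rw [integral_const_mul, integral_sub ij is, integral_finsetSum _ fun j _ => ib j,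
      Finset.sum_eq_zero fun j _ => rBR _ _ (hb j) (hy j), sub_zero, e2]
    have := abs_le.1 e3
    rcases hε with rfl | rfl <;> linarith [this.1, this.2]
  have c0 : Con0 fun v => ε * fP m σ v - (hi - lo) / 2 * |fQ m σ v| -
      (hi + lo) / 2 * (ε * fQ m σ v) := by
    refine ⟨((continuousOn_const.mul cP.c0).sub (continuousOn_const.mul cQ.c0.abs)).sub
      (continuousOn_const.mul (continuousOn_const.mul cQ.c0)), fun v t ht => ?_⟩
    simp only [cP.hom v t ht, cQ.hom v t ht]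
  have c1 : Con0 fun _ => (1 : ℝ) := ⟨continuousOn_const, fun _ _ _ => rfl⟩
  have e4 : sph (fun a => |m.dt σ 0 a| - (hi - lo) / 2 * |m.dl σ a| - (hi + lo) / 2 * m.ar σ a) =
      sph fun v => ε * fP m σ v - (hi - lo) / 2 * |fQ m σ v| -
        (hi + lo) / 2 * (ε * fQ m σ v) := by
    refine integral_congr_ae (Filter.Eventually.of_forall fun a => ?_)
    have ha : ‖(a : V)‖ = 1 := by simpa using a.2
    obtain ⟨l1, l2⟩ := rLK m σ ok fr a ha
    have h2 := hs a ha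
    have h3 : |m.dt σ 0 a| = ε * m.dt σ 0 a := by
      rcases hε with rfl | rfl
      · rw [one_mul] at h2 ⊢
        exact abs_of_pos h2
      · rw [abs_of_neg (by linarith)]
        ring
    have h4 : m.dt σ 0 a ≠ 0 := fun h0 => by
      rw [h0, mul_zero] at h2
      exact lt_irrefl _ h2
    have h5 : m.ar σ a = ε * m.dl σ a := by
      rw [MF.ar, h3, mul_div_assoc, div_self h4, mul_one]
    simp only [h3, h5]
    rw [l1, l2]
  rw [e4, rSPH _ c0, rSPH _ c1]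
  simp only [integral_const, smul_eq_mul, mul_one, MeasurableSet.univ, measureReal_restrict_apply,
    univ_inter]
  linarith

end Pool.Agent.MP_3ee8cb_gt.D3GB
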