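import Pool.Agent.MP_3ee8cb_gt.D3GB.Spec

/-! The connection form of an orthonormal coframe. -/

namespace Pool.Agent.MP_3ee8cb_gt.D3GB

open Pool.Agent.MP_3ee8cb_gt.CR Pool.Agent.MP_3ee8cb_gt.TB
open scoped RealInnerProductSpace

namespace RCONN

/-- The axial vector. -/
noncomputable def ax : (V →L[ℝ] V) →ₗ[ℝ] V where
  toFun S := WithLp.toLp 2 ![S (bv 1) 2, S (bv 2) 0, S (bv 0) 1]
  map_add' S T := by
    ext i
    fin_cases i <;> simp
  map_smul' c S := by
    ext i
    fin_cases i <;> simp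

theorem skew (S : V →L[ℝ] V) (h : ∀ a b, ⟪S a, b⟫ = -⟪a, S b⟫) (z : V) : S z = cr (ax S) z := by
  have e : ∀ i j, S (bv i) j = -S (bv j) i := fun i j => by
    simpa [bv, EuclideanSpace.inner_single_left, EuclideanSpace.inner_single_right] using
      h (bv i) (bv j)
  have hz : z = z 0 • bv 0 + z 1 • bv 1 + z 2 • bv 2 := by
    ext i
    fin_cases i <;> simp [bv]
  have e0 : ∀ i, S (bv i) i = 0 := fun i => by linarith [e i i]
  have h1 : ∀ i, S z i = z 0 * S (bv 0) i + z 1 * S (bv 1) i + z 2 * S (bv 2) i := fun i => by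
    conv_lhs => rw [hz]
    simp
  have a0 : S z 0 = ax S 1 * z 2 - ax S 2 * z 1 := by
    rw [h1, e0, e 1 0]
    simp [ax]
    ring
  have a1 : S z 1 = ax S 2 * z 0 - ax S 0 * z 2 := by
    rw [h1, e0, e 2 1]
    simp [ax]
    ring
  have a2 : S z 2 = ax S 0 * z 1 - ax S 1 * z 0 := by
    rw [h1, e0, e 0 2]
    simp [ax]
    ring
  ext i
  fin_cases i
  exacts [a0, a1, a2]

theorem d_app {F : Type} [NormedAddCommGroup F] [NormedSpace ℝ F] {c : V → V →L[ℝ] F} {y : V}
    (hc : DifferentiableAt ℝ c y) (w u : V) :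
    fderiv ℝ (fun x => c x w) y u = fderiv ℝ c y u w := by
  rw [fderiv_clm_apply hc (differentiableAt_const w)]
  simp

end RCONN

open RCONN

theorem rCONN : SCONN := by
  intro h C θ G F
  have inv : ∀ y, (θ y).IsInvertible := fun y =>
    ⟨(LinearEquiv.ofInjectiveEndo (θ y : V →ₗ[ℝ] V) ((injective_iff_map_eq_zero _).2 fun w hw =>
      F.pos y w 0 le_rfl (by rw [zero_smul, add_zero]; exact hw))).toContinuousLinearEquiv,
      ContinuousLinearMap.ext fun _ => rfl⟩
  have c1 : ContDiff ℝ 1 θ := F.smooth.of_le (by norm_num)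
  have cR : ContDiff ℝ 1 fun y => (θ y).inverse := contDiff_iff_contDiffAt.2 fun y =>
    (inv y).contDiffAt_map_inverse.comp y c1.contDiffAt
  have cD : ContDiff ℝ 1 (fderiv ℝ θ) := F.smooth.fderiv_right (by norm_num)
  have ch : ContDiff ℝ 1 h := contDiff_clm_apply_iff.2 fun u => contDiff_clm_apply_iff.2 fun v => by
    simp only [← F.iso]
    exact (c1.clm_apply contDiff_const).inner ℝ (c1.clm_apply contDiff_const)
  have dθ : ∀ y, DifferentiableAt ℝ θ y := c1.differentiable one_ne_zero
  have dh : ∀ y, DifferentiableAt ℝ h y := ch.differentiable one_ne_zero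
  have key : ∀ y u w w', fderiv ℝ h y u w w' =
      ⟪θ y w, fderiv ℝ θ y u w'⟫ + ⟪fderiv ℝ θ y u w, θ y w'⟫ := fun y u w w' => by
    rw [← d_app (dh y), ← d_app ((dh y).clm_apply (differentiableAt_const w))]
    simp only [← F.iso]
    rw [fderiv_inner_apply ℝ ((dθ y).clm_apply (differentiableAt_const w))
      ((dθ y).clm_apply (differentiableAt_const w')), d_app (dθ y), d_app (dθ y)]
  let om : V → V →L[ℝ] V →L[ℝ] V := fun y =>
    ((ContinuousLinearMap.compL ℝ V V V).flip (θ y).inverse).comp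
      ((ContinuousLinearMap.compL ℝ V V V (θ y)).comp (C y) - fderiv ℝ θ y)
  have hom : ∀ y u z, om y u z =
      θ y (C y u ((θ y).inverse z)) - fderiv ℝ θ y u ((θ y).inverse z) := fun _ _ _ => rfl
  have com : ∀ u, ContDiff ℝ 1 fun y => om y u := fun u => contDiff_clm_apply_iff.2 fun z => by
    simp only [hom]
    have a := cR.clm_apply (contDiff_const (c := z))
    exact (c1.clm_apply ((G.smooth.clm_apply contDiff_const).clm_apply a)).sub
      ((cD.clm_apply contDiff_const).clm_apply a)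
  refine ⟨fun y => (LinearMap.toContinuousLinearMap ax).comp (om y),
    contDiff_clm_apply_iff.2 fun u => (LinearMap.toContinuousLinearMap ax).contDiff.comp (com u),
    fun y u w => ?_⟩
  have hs := skew (om y u) (fun a b => ?_) (θ y w)
  · rw [hom, (inv y).inverse_apply_self] at hs
    exact hs
  obtain ⟨a, rfl⟩ := (inv y).surjective a
  obtain ⟨b, rfl⟩ := (inv y).surjective b
  have k1 := key y u a b
  rw [G.compat] at k1
  rw [hom, hom, (inv y).inverse_apply_self, (inv y).inverse_apply_self, inner_sub_left,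
    inner_sub_right, F.iso, F.iso]
  linarith

end Pool.Agent.MP_3ee8cb_gt.D3GB
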