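import Pool.Agent.MP_3ee8cb_gt.D3GB.Spec2

/-! The normal and the foot of a front are functions on the sphere. -/

namespace Pool.Agent.MP_3ee8cb_gt.D3GB

open Set MeasureTheory Metric
open Pool.Agent.MP_3ee8cb_gt.D3 (MF sph zz Wid)
open scoped RealInnerProductSpace

namespace RG2

theorem ext_cont (W : V → V) (D : V → V →L[ℝ] V) (hW : ContinuousOn W {0}ᶜ)
    (hD : ContinuousOn D {0}ᶜ) : ContinuousOn (fun v => (ext v (W v) (D v)).det) {0}ᶜ := by
  refine ContinuousLinearMap.continuous_det.comp_continuousOn ?_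
  unfold ext
  refine (continuous_norm.continuousOn.smul hD).add ?_
  have h1 : ContinuousOn (fun v : V => ‖v‖⁻¹ • v) {0}ᶜ :=
    (continuous_norm.continuousOn.inv₀ fun v hv => norm_ne_zero_iff.mpr hv).smul continuousOn_id
  have h2 : ContinuousOn (fun v : V => innerSL ℝ (‖v‖⁻¹ • v)) {0}ᶜ :=
    (innerSL ℝ (E := V)).continuous.comp_continuousOn h1
  have h3 := ((ContinuousLinearMap.smulRightL ℝ V V).continuous.comp_continuousOn h2).clm_apply hW
  exact h3

theorem ext_hom (v w : V) (D D' : V →L[ℝ] V) (t : ℝ) (ht : 0 < t)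
    (hD : ‖t • v‖ • D' = ‖v‖ • D) : ext (t • v) w D' = ext v w D := by
  unfold ext
  rw [hD]
  have : ‖t • v‖⁻¹ • t • v = ‖v‖⁻¹ • v := by
    rw [norm_smul, Real.norm_of_nonneg ht.le, smul_smul, mul_inv, mul_right_comm,
      inv_mul_cancel₀ ht.ne', one_mul]
  rw [this]

theorem hyy {m : MF} {σ : V → V × V} (F : m.Front σ) : Hom0 (yy σ) := by
  refine ⟨F.c1.fst, fun v t ht => ?_⟩
  by_cases hv : v = 0
  · rw [hv, smul_zero]
  · unfold yy
    rw [F.hom t v ht.ne' hv]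

theorem hnn {m : MF} {σ : V → V × V} (F : m.Front σ) : Hom0 (nn σ) := by
  refine ⟨?_, fun v t ht => ?_⟩
  · have h1 : ContDiffOn ℝ 1 (fun a : V => ‖a‖) {0}ᶜ := fun a ha =>
      (contDiffAt_norm ℝ ha).contDiffWithinAt
    exact (h1.inv fun a ha => norm_ne_zero_iff.mpr ha).smul F.c1.snd
  · by_cases hv : v = 0
    · rw [hv, smul_zero]
    · unfold nn
      rw [F.hom t v ht.ne' hv, norm_smul, Real.norm_of_nonneg ht.le, smul_smul, mul_inv,
        mul_right_comm, inv_mul_cancel₀ ht.ne', one_mul]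

theorem ax_c1 {m : MF} (k : m.OK) (u : V) : ContDiff ℝ 1 fun y => ax m y u := by
  have h : ∀ (b : V) (i : Fin 3), ContDiff ℝ 1 fun y => m.om y u b i := fun b i =>
    (EuclideanSpace.proj (𝕜 := ℝ) i).contDiff.comp
      ((k.com.clm_apply contDiff_const).clm_apply contDiff_const)
  unfold ax
  refine contDiff_euclidean.mpr fun i => ?_
  fin_cases i
  · exact h _ _
  · exact h _ _
  · exact h _ _

theorem dnorm (a : V) (ha : ‖a‖ = 1) : HasFDerivAt (fun x : V => ‖x‖) (innerSL ℝ a) a := by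
  have h1 := (hasStrictFDerivAt_norm_sq a).hasFDerivAt
  have h2 := h1.sqrt (by rw [ha]; norm_num)
  have e1 : (fun y : V => √(‖y‖ ^ 2)) = fun y => ‖y‖ := by
    funext y
    exact Real.sqrt_sq (norm_nonneg y)
  have e2 : (1 / (2 * √(‖a‖ ^ 2))) • (2 • innerSL ℝ a) = innerSL ℝ a := by
    rw [ha]
    ext e
    simp
  rw [e1, e2] at h2
  exact h2

end RG2

theorem rG2 (h3 : SHOM) : SG2 := by
  intro m σ k F
  have hY := RG2.hyy F
  have hN := RG2.hnn F
  obtain ⟨y1, -, -, y4⟩ := h3 V _ hY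
  obtain ⟨w1, -, -, w4⟩ := h3 V _ hN
  have cY : ContinuousOn (yy σ) {0}ᶜ := hY.c1.continuousOn
  have cW : ContinuousOn (nn σ) {0}ᶜ := hN.c1.continuousOn
  refine ⟨⟨hN, fun v hv => ?_⟩, hY, fun j => ⟨?_, fun v t ht => ?_⟩,
    fun j => ⟨?_, fun v t ht => ?_⟩, ⟨RG2.ext_cont _ _ cW ?_, fun v t ht => ?_⟩,
    ⟨RG2.ext_cont _ _ cW ?_, fun v t ht => ?_⟩⟩
  · unfold nn
    rw [norm_smul, F.norm v hv, norm_inv, norm_norm, inv_mul_cancel₀ (norm_ne_zero_iff.mpr hv)]
  · exact hN.c1.inner ℝ ((RG2.ax_c1 k (bv j)).comp_contDiffOn hY.c1)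
  · unfold bm
    rw [hN.hom v t ht, hY.hom v t ht]
  · exact (EuclideanSpace.proj (𝕜 := ℝ) j).contDiff.comp_contDiffOn hY.c1
  · show yy σ (t • v) j = yy σ v j
    rw [hY.hom v t ht]
  · refine w1.add (ContinuousOn.clm_comp ?_ y1)
    have c1 : ContinuousOn (fun v => m.om (yy σ v)) {0}ᶜ := k.com.continuous.comp_continuousOn cY
    have c2 : ContinuousOn (fun v => (m.om (yy σ v)).flip) {0}ᶜ :=
      (ContinuousLinearMap.flipₗᵢ ℝ V V V).continuous.comp_continuousOn c1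
    exact c2.clm_apply cW
  · unfold fP
    rw [hY.hom v t ht, hN.hom v t ht]
    rw [RG2.ext_hom v (nn σ v) (fderiv ℝ (nn σ) v +
      ((m.om (yy σ v)).flip (nn σ v)).comp (fderiv ℝ (yy σ) v)) _ t ht]
    rw [smul_add, smul_add, w4 v t ht, ← ContinuousLinearMap.comp_smul,
      ← ContinuousLinearMap.comp_smul, y4 v t ht]
  · exact (k.cS.continuous.comp_continuousOn cY).clm_comp y1
  · unfold fQ
    rw [hY.hom v t ht, hN.hom v t ht]
    rw [RG2.ext_hom v (nn σ v) ((m.S (yy σ v)).comp (fderiv ℝ (yy σ) v)) _ t ht]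
    rw [← ContinuousLinearMap.comp_smul, ← ContinuousLinearMap.comp_smul, y4 v t ht]

theorem rLK : SLK := by
  intro m σ k F a ha
  have a0 : a ≠ 0 := by
    intro h
    rw [h, norm_zero] at ha
    exact zero_ne_one ha
  have nb : ({0}ᶜ : Set V) ∈ nhds a := isOpen_compl_singleton.mem_nhds a0
  have dσ : HasFDerivAt σ (fderiv ℝ σ a) a :=
    ((F.c1.contDiffAt nb).differentiableAt one_ne_zero).hasFDerivAt
  have dN : HasFDerivAt (nn σ) (fderiv ℝ (nn σ) a) a :=
    (((RG2.hnn F).c1.contDiffAt nb).differentiableAt one_ne_zero).hasFDerivAt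
  have eY : fderiv ℝ (yy σ) a = (ContinuousLinearMap.fst ℝ V V).comp (fderiv ℝ σ a) :=
    dσ.fst.fderiv
  have eN : nn σ a = (σ a).2 := by
    unfold nn
    rw [ha, inv_one, one_smul]
  have d2 : HasFDerivAt (fun x => (σ x).2)
      (‖a‖ • fderiv ℝ (nn σ) a + (innerSL ℝ a).smulRight (nn σ a)) a := by
    refine ((RG2.dnorm a ha).smul dN).congr_of_eventuallyEq ?_
    filter_upwards [nb] with x hx
    show (σ x).2 = ‖x‖ • nn σ x
    unfold nn
    rw [smul_smul, mul_inv_cancel₀ (norm_ne_zero_iff.mpr hx), one_smul]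
  have e2 := dσ.snd.unique d2
  rw [ha, one_smul] at e2
  constructor
  · unfold D3.MF.dt fP ext
    have z0 : m.A' σ a + (0 : ℝ) • m.A σ a = m.A' σ a := by
      ext e
      simp
    rw [z0, ha, one_smul, inv_one, one_smul, add_right_comm, ← e2, eY, eN]
    rfl
  · unfold D3.MF.dl fQ ext
    rw [ha, one_smul, inv_one, one_smul, eY, eN]
    rfl

end Pool.Agent.MP_3ee8cb_gt.D3GB
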