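import Pool.Agent.MP_3ee8cb_gt.D3GB.Spec

/-! A `C¹` map that preserves a one-form preserves its exterior derivative. -/

namespace Pool.Agent.MP_3ee8cb_gt.D3GB

open Set Filter Topology

namespace RGREEN

variable {Z F : Type} [NormedAddCommGroup Z] [NormedSpace ℝ Z] [NormedAddCommGroup F]
  [NormedSpace ℝ F]

theorem est (q : Z → F) (r : Z → F →L[ℝ] ℝ) (z : Z) (hq : ContDiffAt ℝ 1 q z)
    (hr : ContDiffAt ℝ 1 r z) {η : ℝ} (hη : 0 < η) :
    ∀ᶠ y in 𝓝 z, DifferentiableAt ℝ q y ∧ ∀ d, |r z (fderiv ℝ q y d) +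
      fderiv ℝ r z (y - z) (fderiv ℝ q z d) - r y (fderiv ℝ q y d)| ≤ η * ‖y - z‖ * ‖d‖ := by
  set L := fderiv ℝ r z with hL
  set M := fderiv ℝ q z with hM
  have hK : 0 < ‖M‖ + 1 + ‖L‖ := by positivity
  set δ := min 1 (η / (‖M‖ + 1 + ‖L‖)) with hδ
  have hδ0 : 0 < δ := lt_min one_pos (div_pos hη hK)
  have hδ1 : δ ≤ 1 := min_le_left _ _
  have hδ2 : δ * (‖M‖ + 1 + ‖L‖) ≤ η := (le_div_iff₀ hK).1 (min_le_right _ _)
  have h1 : ∀ᶠ y in 𝓝 z, ‖r y - r z - L (y - z)‖ ≤ δ * ‖y - z‖ :=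
    (hr.differentiableAt one_ne_zero).hasFDerivAt.isLittleO.def hδ0
  have hc : ContinuousAt (fderiv ℝ q) z :=
    (hq.fderiv_right (m := 0) (by norm_num)).continuousAt
  have h2 : ∀ᶠ y in 𝓝 z, ‖fderiv ℝ q y - M‖ ≤ δ := by
    have := Metric.tendsto_nhds.1 hc δ hδ0
    filter_upwards [this] with y hy
    rw [dist_eq_norm] at hy
    exact hy.le
  have h3 : ∀ᶠ y in 𝓝 z, ContDiffAt ℝ 1 q y := hq.eventually (by simp)
  filter_upwards [h1, h2, h3] with y h1 h2 h3
  refine ⟨h3.differentiableAt one_ne_zero, fun d => ?_⟩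
  have e : r z (fderiv ℝ q y d) + L (y - z) (M d) - r y (fderiv ℝ q y d) =
      -((r y - r z - L (y - z)) (fderiv ℝ q y d)) - L (y - z) ((fderiv ℝ q y - M) d) := by
    simp only [ContinuousLinearMap.sub_apply, map_sub]
    ring
  have hD : ‖fderiv ℝ q y‖ ≤ ‖M‖ + 1 := by
    have := norm_add_le M (fderiv ℝ q y - M)
    rw [add_sub_cancel] at this
    linarith
  have a1 : |(r y - r z - L (y - z)) (fderiv ℝ q y d)| ≤ δ * ‖y - z‖ * ((‖M‖ + 1) * ‖d‖) := by
    rw [← Real.norm_eq_abs]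
    refine (ContinuousLinearMap.le_opNorm _ _).trans ?_
    refine mul_le_mul h1 ((ContinuousLinearMap.le_opNorm _ _).trans ?_) (norm_nonneg _)
      (by positivity)
    exact mul_le_mul_of_nonneg_right hD (norm_nonneg _)
  have a2 : |L (y - z) ((fderiv ℝ q y - M) d)| ≤ ‖L‖ * ‖y - z‖ * (δ * ‖d‖) := by
    rw [← Real.norm_eq_abs]
    refine (ContinuousLinearMap.le_opNorm _ _).trans ?_
    refine mul_le_mul (ContinuousLinearMap.le_opNorm _ _)
      ((ContinuousLinearMap.le_opNorm _ _).trans ?_) (norm_nonneg _) (by positivity)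
    exact mul_le_mul_of_nonneg_right h2 (norm_nonneg _)
  rw [e]
  have a3 := abs_sub (-((r y - r z - L (y - z)) (fderiv ℝ q y d)))
    (L (y - z) ((fderiv ℝ q y - M) d))
  rw [abs_neg] at a3
  have a4 : δ * (‖M‖ + 1 + ‖L‖) * (‖y - z‖ * ‖d‖) ≤ η * (‖y - z‖ * ‖d‖) :=
    mul_le_mul_of_nonneg_right hδ2 (by positivity)
  nlinarith

/-- the comparison function along a segment -/
noncomputable def G (q : Z → F) (r : Z → F →L[ℝ] ℝ) (z x d : Z) (s : ℝ) : ℝ :=
  r z (q (x + s • d)) + s * fderiv ℝ r z (x - z) (fderiv ℝ q z d) +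
    s ^ 2 / 2 * fderiv ℝ r z d (fderiv ℝ q z d)

theorem hasDeriv_G (q : Z → F) (r : Z → F →L[ℝ] ℝ) (z x d : Z) (s : ℝ)
    (h : DifferentiableAt ℝ q (x + s • d)) :
    HasDerivAt (G q r z x d) (r z (fderiv ℝ q (x + s • d) d) +
      fderiv ℝ r z (x + s • d - z) (fderiv ℝ q z d)) s := by
  have h0 : HasDerivAt (fun t : ℝ => x + t • d) d s := by
    simpa using ((hasDerivAt_id s).smul_const d).const_add x
  have h1 : HasDerivAt (fun t : ℝ => q (x + t • d)) (fderiv ℝ q (x + s • d) d) s :=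
    h.hasFDerivAt.comp_hasDerivAt s h0
  have h2 : HasDerivAt (fun t : ℝ => r z (q (x + t • d))) (r z (fderiv ℝ q (x + s • d) d)) s :=
    (r z).hasFDerivAt.comp_hasDerivAt s h1
  have h3 := (hasDerivAt_id s).mul_const (fderiv ℝ r z (x - z) (fderiv ℝ q z d))
  have h4 := (((hasDerivAt_id s).pow 2).div_const 2).mul_const
    (fderiv ℝ r z d (fderiv ℝ q z d))
  have h5 := (h2.add h3).add h4
  have e : x + s • d - z = (x - z) + s • d := by abel
  refine HasDerivAt.congr_deriv h5 ?_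
  rw [e, map_add, map_smul]
  simp only [ContinuousLinearMap.add_apply, ContinuousLinearMap.smul_apply, smul_eq_mul, id]
  norm_num
  ring

theorem tri (q : Z → F) (r : Z → F →L[ℝ] ℝ) (z a b : Z) (ε : ℝ) :
    (G q r z z (ε • a) 1 - G q r z z (ε • a) 0) +
      (G q r z (z + ε • a) (ε • (b - a)) 1 - G q r z (z + ε • a) (ε • (b - a)) 0) +
      (G q r z (z + ε • b) (ε • (-b)) 1 - G q r z (z + ε • b) (ε • (-b)) 0) =
    ε ^ 2 / 2 * (fderiv ℝ r z a (fderiv ℝ q z b) - fderiv ℝ r z b (fderiv ℝ q z a)) := by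
  have e1 : z + ε • a + (1 : ℝ) • ε • (b - a) = z + ε • b := by
    rw [one_smul, smul_sub]; abel
  have e2 : z + ε • b + (1 : ℝ) • ε • (-b) = z := by
    rw [one_smul, smul_neg]; abel
  unfold G
  rw [e1, e2]
  simp only [one_smul, zero_smul, add_zero, sub_self, add_sub_cancel_left, map_smul, map_sub,
    map_neg, map_zero, ContinuousLinearMap.smul_apply, ContinuousLinearMap.sub_apply,
    ContinuousLinearMap.neg_apply, ContinuousLinearMap.zero_apply, smul_eq_mul]
  ring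

end RGREEN

open RGREEN in
theorem rGREEN : SGREEN := by
  intro Z F F' _ _ _ _ _ _ q r q' r' z hq hr hq' hr' hω a b
  set X := fderiv ℝ r z a (fderiv ℝ q z b) - fderiv ℝ r z b (fderiv ℝ q z a) with hX
  set X' := fderiv ℝ r' z a (fderiv ℝ q' z b) - fderiv ℝ r' z b (fderiv ℝ q' z a) with hX'
  set K := ‖a‖ + ‖b‖ + 1 with hK
  have hK0 : 0 < K := by positivity
  have key : ∀ η : ℝ, 0 < η → |X - X'| ≤ 12 * K ^ 2 * η := by
    intro η hη
    obtain ⟨ρ, hρ, hball⟩ := Metric.eventually_nhds_iff.1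
      ((est q r z hq hr hη).and ((est q' r' z hq' hr' hη).and hω))
    set ε := ρ / (2 * K) with hε
    have hε0 : 0 < ε := by positivity
    have hεK : ε * K < ρ := by
      rw [hε]; field_simp; linarith
    have seg : ∀ x d : Z, (∀ s ∈ Icc (0 : ℝ) 1, ‖x + s • d - z‖ ≤ ε * K) → ‖d‖ ≤ ε * K →
        |(G q r z x d 1 - G q r z x d 0) - (G q' r' z x d 1 - G q' r' z x d 0)| ≤
          2 * η * (ε * K) * (ε * K) := by
      intro x d hx hd
      have hb : ∀ s ∈ Icc (0 : ℝ) 1, dist (x + s • d) z < ρ := fun s hs => by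
        rw [dist_eq_norm]; exact (hx s hs).trans_lt hεK
      have hder : ∀ s ∈ Icc (0 : ℝ) 1, HasDerivWithinAt
          (fun t => G q r z x d t - G q' r' z x d t)
          ((r z (fderiv ℝ q (x + s • d) d) + fderiv ℝ r z (x + s • d - z) (fderiv ℝ q z d)) -
            (r' z (fderiv ℝ q' (x + s • d) d) +
              fderiv ℝ r' z (x + s • d - z) (fderiv ℝ q' z d))) (Icc 0 1) s := fun s hs =>
        ((hasDeriv_G q r z x d s (hball (hb s hs)).1.1).sub
          (hasDeriv_G q' r' z x d s (hball (hb s hs)).2.1.1)).hasDerivWithinAt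
      have hbd : ∀ s ∈ Ico (0 : ℝ) 1, ‖(r z (fderiv ℝ q (x + s • d) d) +
          fderiv ℝ r z (x + s • d - z) (fderiv ℝ q z d)) -
            (r' z (fderiv ℝ q' (x + s • d) d) +
              fderiv ℝ r' z (x + s • d - z) (fderiv ℝ q' z d))‖ ≤
          2 * η * (ε * K) * (ε * K) := by
        intro s hs
        have hs' : s ∈ Icc (0 : ℝ) 1 := Ico_subset_Icc_self hs
        obtain ⟨⟨-, b1⟩, ⟨-, b2⟩, b3⟩ := hball (hb s hs')
        have c1 := b1 d
        have c2 := b2 d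
        have c3 := b3 d
        have c4 : η * ‖x + s • d - z‖ * ‖d‖ ≤ η * (ε * K) * (ε * K) :=
          mul_le_mul (mul_le_mul_of_nonneg_left (hx s hs') hη.le) hd (norm_nonneg _)
            (by positivity)
        rw [Real.norm_eq_abs, abs_le]
        rw [abs_le] at c1 c2
        constructor <;> linarith [c1.1, c1.2, c2.1, c2.2]
      have := norm_image_sub_le_of_norm_deriv_le_segment_01' hder hbd
      rw [Real.norm_eq_abs] at this
      have e : (G q r z x d 1 - G q r z x d 0) - (G q' r' z x d 1 - G q' r' z x d 0) =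
          G q r z x d 1 - G q' r' z x d 1 - (G q r z x d 0 - G q' r' z x d 0) := by ring
      rw [e]
      exact this
    have nb : ∀ u v : ℝ, |u| ≤ 1 → |v| ≤ 1 → ‖ε • (u • a + v • b)‖ ≤ ε * K := by
      intro u v hu hv
      rw [norm_smul, Real.norm_eq_abs, abs_of_pos hε0]
      refine mul_le_mul_of_nonneg_left ((norm_add_le _ _).trans ?_) hε0.le
      rw [norm_smul, norm_smul, Real.norm_eq_abs, Real.norm_eq_abs]
      have := mul_le_mul_of_nonneg_right hu (norm_nonneg a)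
      have := mul_le_mul_of_nonneg_right hv (norm_nonneg b)
      linarith
    have ab : ∀ s ∈ Icc (0 : ℝ) 1, |s| ≤ 1 ∧ |1 - s| ≤ 1 := fun s hs =>
      ⟨abs_le.2 ⟨by linarith [hs.1], hs.2⟩, abs_le.2 ⟨by linarith [hs.2], by linarith [hs.1]⟩⟩
    have s1 := seg z (ε • a) (fun s hs => by
      have e : z + s • ε • a - z = ε • (s • a + (0 : ℝ) • b) := by module
      rw [e]; exact nb s 0 (ab s hs).1 (by simp)) (by
      have e : ε • a = ε • ((1 : ℝ) • a + (0 : ℝ) • b) := by module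
      rw [e]; exact nb 1 0 (by simp) (by simp))
    have s2 := seg (z + ε • a) (ε • (b - a)) (fun s hs => by
      have e : z + ε • a + s • ε • (b - a) - z = ε • ((1 - s) • a + s • b) := by module
      rw [e]; exact nb (1 - s) s (ab s hs).2 (ab s hs).1) (by
      have e : ε • (b - a) = ε • ((-1 : ℝ) • a + (1 : ℝ) • b) := by module
      rw [e]; exact nb (-1) 1 (by simp) (by simp))
    have s3 := seg (z + ε • b) (ε • (-b)) (fun s hs => by
      have e : z + ε • b + s • ε • (-b) - z = ε • ((0 : ℝ) • a + (1 - s) • b) := by module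
      rw [e]; exact nb 0 (1 - s) (by simp) (ab s hs).2) (by
      have e : ε • (-b) = ε • ((0 : ℝ) • a + (-1 : ℝ) • b) := by module
      rw [e]; exact nb 0 (-1) (by simp) (by simp))
    have t1 := tri q r z a b ε
    have t2 := tri q' r' z a b ε
    rw [← hX] at t1
    rw [← hX'] at t2
    have hε2 : 0 < ε ^ 2 / 2 := by positivity
    have fin : |ε ^ 2 / 2 * (X - X')| ≤ ε ^ 2 / 2 * (12 * K ^ 2 * η) := by
      rw [abs_le] at s1 s2 s3 ⊢
      constructor <;> nlinarith [s1.1, s1.2, s2.1, s2.2, s3.1, s3.2]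
    rw [abs_mul, abs_of_pos hε2] at fin
    exact le_of_mul_le_mul_left fin hε2
  have h0 : |X - X'| ≤ 0 := by
    refine le_of_forall_pos_le_add fun e he => ?_
    have := key (e / (12 * K ^ 2)) (by positivity)
    rw [mul_div_cancel₀ _ (by positivity)] at this
    linarith
  exact sub_eq_zero.1 (abs_nonpos_iff.1 h0)

end Pool.Agent.MP_3ee8cb_gt.D3GB
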