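import Pool.Agent.MP_3ee8cb_gt.D3GB.Spec2

/-! The homotopy from the normal of a front to a radial projection. -/

namespace Pool.Agent.MP_3ee8cb_gt.D3GB

open Set Metric
open Pool.Agent.MP_3ee8cb_gt.D3 (MF zz)

namespace RHT

theorem cZ {m : MF} (h : m.OK) (T : ℝ) : ContDiff ℝ 1 (m.Z T) :=
  h.cZ.comp (f := fun z : V × V => (T, z)) (contDiff_const.prodMk contDiff_id)

theorem czz {m : MF} {σ : V → V × V} (h : m.OK) (hσ : m.Front σ) (T : ℝ) :
    ContDiffOn ℝ 1 (zz m σ T) {a | a ≠ 0} :=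
  ((cZ h T).comp_contDiffOn hσ.c1).fst

theorem nrm : ContDiffOn ℝ 1 (fun a : V => ‖a‖⁻¹ • a) {0}ᶜ := fun _ ha =>
  (((contDiffAt_norm ℝ ha).inv (norm_ne_zero_iff.2 ha)).smul contDiffAt_id).contDiffWithinAt

end RHT

open RHT in
theorem rHT : SHT := by
  intro m lg σ T h1 h2 _ h4 h5 _ hT hW
  have a0 : ‖bv 0‖ = 1 := by simp [bv]
  have sp : ∀ p ∈ sphere (0 : V) 1, ‖p‖ = 1 := fun p hp => by simpa using hp
  refine ⟨fun a => lg ((σ (bv 0)).1, zz m σ T (‖a‖⁻¹ • a)),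
    fun q => lg ((m.Z q.1 ((σ q.2).1, lg ((σ q.2).1, (σ (bv 0)).1))).1, zz m σ T q.2),
    ⟨h4.c1.comp_contDiffOn (contDiffOn_const.prodMk ((czz h1 h5 T).comp nrm fun a ha =>
      smul_ne_zero (inv_ne_zero (norm_ne_zero_iff.2 ha)) ha)), fun v t ht => ?_⟩,
    fun p hp q hq t ht e => ?_, ?_, fun s hs p hp e => ?_, fun p hp => ⟨T, hT, ?_⟩,
    fun p hp => ⟨1, one_pos, ?_⟩⟩
  · rw [norm_smul, Real.norm_of_nonneg ht.le, smul_smul, mul_inv, mul_right_comm,
      inv_mul_cancel₀ ht.ne', one_mul]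
  · simp only [sp p hp, sp q hq, inv_one, one_smul] at e
    exact hW.rad p q _ t (sp p hp) (sp q hq) a0 ht e
  · have hm : MapsTo (Prod.snd : ℝ × V → V) (Icc 0 1 ×ˢ sphere 0 1) {a | a ≠ 0} :=
      fun q hq => norm_ne_zero_iff.1 (by rw [sp _ hq.2]; exact one_ne_zero)
    have c1 := (h5.c1.continuousOn.comp continuousOn_snd hm).fst
    exact h4.c1.continuous.comp_continuousOn ((h1.cZ.continuous.comp_continuousOn
      (continuousOn_fst.prodMk (c1.prodMk (h4.c1.continuous.comp_continuousOn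
        (c1.prodMk continuousOn_const))))).fst.prodMk
      ((czz h1 h5 T).continuousOn.comp continuousOn_snd hm))
  · refine hW.out p _ (sp p hp) a0 s hs ?_
    have h6 := h4.ex (m.Z s ((σ p).1, lg ((σ p).1, (σ (bv 0)).1))).1 (zz m σ T p)
    rw [show lg _ = 0 from e, ← zero_smul ℝ (0 : V), h2.scale, zero_mul, h1.zero] at h6
    exact h6
  · have h6 := h4.xe (σ p).1 (T • (σ p).2)
    rw [h2.scale, mul_one] at h6
    simp only [h1.zero, nn, sp p hp, inv_one, one_smul]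
    exact h6
  · simp only [h4.ex, sp p hp, inv_one, one_smul]

end Pool.Agent.MP_3ee8cb_gt.D3GB
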