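import Pool.Agent.MP_3ee8cb_gt.D3GB.Spec

/-! Polar coordinates for functions that are homogeneous of degree zero. -/

namespace Pool.Agent.MP_3ee8cb_gt.D3GB

open Pool.Agent.MP_3ee8cb_gt.CR Pool.Agent.MP_3ee8cb_gt.TB Set MeasureTheory Metric

namespace RPOL

theorem bdd {J : V → ℝ} (hJ : Con0 J) : ∃ C, ∀ v, |J v| ≤ C := by
  have hc : ContinuousOn J (sphere (0 : V) 1) := hJ.c0.mono fun p hp h0 => by
    have h1 : p = 0 := h0
    simp [h1] at hp
  obtain ⟨C, hC⟩ := (isCompact_sphere (0 : V) 1).exists_bound_of_continuousOn hc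
  refine ⟨max C |J 0|, fun v => ?_⟩
  by_cases hv : v = 0
  · rw [hv]; exact le_max_right _ _
  · have hn : 0 < ‖v‖⁻¹ := inv_pos.2 (norm_pos_iff.2 hv)
    have h1 : ‖v‖⁻¹ • v ∈ sphere (0 : V) 1 := by
      rw [mem_sphere_zero_iff_norm, norm_smul, norm_inv, norm_norm,
        inv_mul_cancel₀ (norm_ne_zero_iff.2 hv)]
    have h2 := hC _ h1
    rw [hJ.hom v _ hn, Real.norm_eq_abs] at h2
    exact h2.trans (le_max_left _ _)

theorem meas {J : V → ℝ} (hJ : Con0 J) : AEStronglyMeasurable J volume := by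
  have h := hJ.c0.aestronglyMeasurable (μ := volume) (measurableSet_singleton (0 : V)).compl
  rwa [restrict_compl_singleton] at h

theorem polar {J : V → ℝ} (hJ : Con0 J) (f : ℝ → ℝ) :
    ∫ v : V, f ‖v‖ * J v = (∫ p : sphere (0 : V) 1, J p ∂(volume : Measure V).toSphere) *
      ∫ r in Ioi (0 : ℝ), f r * r ^ 2 := by
  have hd : Module.finrank ℝ V - 1 = 2 := by simp
  calc ∫ v : V, f ‖v‖ * J v
      = ∫ x : ({0}ᶜ : Set V), f ‖x.1‖ * J x.1 ∂((volume : Measure V).comap (↑)) := by
        rw [integral_subtype_comap (measurableSet_singleton _).compl fun v => f ‖v‖ * J v,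
          restrict_compl_singleton]
    _ = ∫ x : sphere (0 : V) 1 × Ioi (0 : ℝ), J x.1 * f x.2
          ∂(volume : Measure V).toSphere.prod (.volumeIoiPow (Module.finrank ℝ V - 1)) := by
        rw [← (volume : Measure V).measurePreserving_homeomorphUnitSphereProd.integral_comp
          (Homeomorph.measurableEmbedding _)]
        refine integral_congr_ae (.of_forall fun x => ?_)
        have hx : 0 < ‖x.1‖⁻¹ := inv_pos.2 (norm_pos_iff.2 x.2)
        simp only [homeomorphUnitSphereProd_apply_fst_coe, homeomorphUnitSphereProd_apply_snd_coe]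
        rw [hJ.hom _ _ hx, mul_comm]
    _ = (∫ p : sphere (0 : V) 1, J p ∂(volume : Measure V).toSphere) *
          ∫ x : Ioi (0 : ℝ), f x ∂.volumeIoiPow (Module.finrank ℝ V - 1) :=
        integral_prod_mul (fun p : sphere (0 : V) 1 => J p) (fun x : Ioi (0 : ℝ) => f x)
    _ = _ := by
        congr 1
        rw [hd]
        simp only [Measure.volumeIoiPow, ENNReal.ofReal]
        rw [integral_withDensity_eq_integral_smul,
          integral_subtype_comap measurableSet_Ioi fun a => Real.toNNReal (a ^ 2) • f a,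
          setIntegral_congr_fun measurableSet_Ioi fun x hx => ?_]
        · rw [NNReal.smul_def, Real.coe_toNNReal _ (pow_nonneg hx.out.le _), smul_eq_mul, mul_comm]
        · exact (measurable_subtype_coe.pow_const _).real_toNNReal

theorem ball_eq {J : V → ℝ} (hJ : Con0 J) : 3 * ∫ v in ball (0 : V) 1, J v =
    ∫ p : sphere (0 : V) 1, J p ∂(volume : Measure V).toSphere := by
  have h := polar hJ ((Iio (1 : ℝ)).indicator fun _ => 1)
  have h1 : ∫ v : V, (Iio (1 : ℝ)).indicator (fun _ => (1 : ℝ)) ‖v‖ * J v =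
      ∫ v in ball (0 : V) 1, J v := by
    rw [← integral_indicator measurableSet_ball]
    refine integral_congr_ae (.of_forall fun v => ?_)
    by_cases hv : ‖v‖ < 1 <;> simp [indicator, hv]
  have h2 : ∫ r in Ioi (0 : ℝ), (Iio (1 : ℝ)).indicator (fun _ => (1 : ℝ)) r * r ^ 2 = 1 / 3 := by
    have h3 : (fun r : ℝ => (Iio (1 : ℝ)).indicator (fun _ => (1 : ℝ)) r * r ^ 2) =
        (Iio (1 : ℝ)).indicator fun r => r ^ 2 := by
      funext r
      by_cases hr : r < 1 <;> simp [indicator, hr]
    rw [h3, setIntegral_indicator measurableSet_Iio, Ioi_inter_Iio, ← integral_Ioc_eq_integral_Ioo,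
      ← intervalIntegral.integral_of_le zero_le_one, integral_pow]
    norm_num
  rw [h1, h2] at h
  rw [h]
  ring

end RPOL

theorem rCI : SCI := by
  intro J hJ
  obtain ⟨C, hC⟩ := RPOL.bdd hJ
  exact Measure.integrableOn_of_bounded (M := C) measure_ball_lt_top.ne (RPOL.meas hJ)
    (.of_forall fun v => hC v)

theorem rPOL : SPOL := by
  intro J f a b hJ hf ha hs
  obtain ⟨C, hC⟩ := RPOL.bdd hJ
  constructor
  · have h1 : HasCompactSupport fun v : V => f ‖v‖ := by
      refine HasCompactSupport.intro (isCompact_closedBall (0 : V) b) fun v hv => hs _ fun h => ?_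
      exact hv (mem_closedBall_zero_iff.2 h.2)
    have h2 : Integrable fun v : V => f ‖v‖ :=
      (hf.comp continuous_norm).integrable_of_hasCompactSupport h1
    exact h2.mul_bdd (RPOL.meas hJ) (.of_forall fun v => hC v)
  · have h3 : ∫ r in Ioi (0 : ℝ), f r * r ^ 2 = ∫ r, f r * r ^ 2 :=
      setIntegral_eq_integral_of_forall_compl_eq_zero fun r hr => by
        rw [hs r fun h => hr (lt_of_lt_of_le ha h.1), zero_mul]
    rw [RPOL.polar hJ, ← RPOL.ball_eq hJ, h3]
    ring

end Pool.Agent.MP_3ee8cb_gt.D3GB
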