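import Pool.Agent.MP_3ee8cb_gt.D3GB.Spec2

/-! Row SG: the vertical determinant of a good front has a constant sign. -/

namespace Pool.Agent.MP_3ee8cb_gt.D3GB

open Set MeasureTheory Metric
open Pool.Agent.MP_3ee8cb_gt.D3 (MF sph zz Wid)
open scoped RealInnerProductSpace

namespace RSG

theorem inner_A' (m : MF) (σ : V → V × V) (hm : m.OK) (hσ : m.Front σ) (a e : V) (ha : a ≠ 0) :
    ⟪(σ a).2, m.A' σ a e⟫ = ⟪a, e⟫ := by
  have hopen : IsOpen {a : V | a ≠ 0} := isOpen_ne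
  have hd : DifferentiableAt ℝ σ a :=
    (hσ.c1.differentiableOn one_ne_zero).differentiableAt (hopen.mem_nhds ha)
  have h2 : HasFDerivAt (fun x => (σ x).2)
      ((ContinuousLinearMap.snd ℝ V V).comp (fderiv ℝ σ a)) a := hd.hasFDerivAt.snd
  have h3 := h2.norm_sq
  have h4 : HasFDerivAt (fun x : V => ‖x‖ ^ 2) (2 • (innerSL ℝ a).comp
      (ContinuousLinearMap.id ℝ V)) a := (hasFDerivAt_id a).norm_sq
  have heq : (fun x => ‖(σ x).2‖ ^ 2) =ᶠ[nhds a] fun x : V => ‖x‖ ^ 2 := by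
    filter_upwards [hopen.mem_nhds ha] with x hx
    rw [hσ.norm x hx]
  have h5 := (h3.congr_of_eventuallyEq heq.symm).unique h4
  have h6 := congrArg (fun L : V →L[ℝ] ℝ => L e) h5
  simp only [ContinuousLinearMap.smul_apply, ContinuousLinearMap.comp_apply, innerSL_apply_apply,
    ContinuousLinearMap.coe_snd', ContinuousLinearMap.id_apply, nsmul_eq_mul,
    Nat.cast_ofNat] at h6
  have h7 : ⟪(σ a).2, m.om (σ a).1 (fderiv ℝ σ a e).1 (σ a).2⟫ = 0 := by
    have := hm.skew (σ a).1 (fderiv ℝ σ a e).1 (σ a).2 (σ a).2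
    rw [real_inner_comm] at this
    linarith
  have h8 : m.A' σ a e = (fderiv ℝ σ a e).2 + m.om (σ a).1 (fderiv ℝ σ a e).1 (σ a).2 := rfl
  rw [h8, inner_add_right, h7]
  linarith

theorem dt_ne (m : MF) (σ : V → V × V) (T : ℝ) (hm : m.OK) (hσ : m.Front σ) (hg : m.Good σ T)
    (a : V) (ha : ‖a‖ = 1) : m.dt σ 0 a ≠ 0 := by
  have ha0 : a ≠ 0 := by
    intro h
    rw [h, norm_zero] at ha
    exact zero_ne_one ha
  have hZ : m.Z 0 = id := funext hm.zero
  have hinj : ∀ e, m.A' σ a e = 0 → e = 0 := by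
    intro e he
    have h1 := inner_A' m σ hm hσ a e ha0
    rw [he, inner_zero_right] at h1
    refine hg.inj a e 0 ha h1.symm ?_
    unfold MF.J'
    rw [hZ, fderiv_id]
    exact he
  have h0 : m.A' σ a + (0 : ℝ) • m.A σ a = m.A' σ a := by
    ext x i
    simp
  unfold MF.dt
  rw [h0]
  intro h
  have h' : LinearMap.det (m.A' σ a : V →ₗ[ℝ] V) = 0 := h
  rw [LinearMap.det_eq_zero_iff_ker_ne_bot] at h'
  exact h' (LinearMap.ker_eq_bot'.2 hinj)

end RSG

theorem rSG (h7 : SG2) (h8 : SLK) : SSG := by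
  intro m σ T hm hσ hg
  have hc : ContinuousOn (fP m σ) (sphere (0 : V) 1) := by
    refine (h7 m σ hm hσ).2.2.2.2.1.c0.mono ?_
    intro x hx h0
    rw [mem_singleton_iff] at h0
    rw [h0] at hx
    simp at hx
  have hpre : IsPreconnected (sphere (0 : V) 1) := by
    refine isPreconnected_sphere ?_ 0 1
    rw [← Module.finrank_eq_rank, finrank_euclideanSpace_fin]
    norm_num
  have hne : ∀ a, ‖a‖ = 1 → fP m σ a ≠ 0 := fun a ha => by
    rw [← (h8 m σ hm hσ a ha).1]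
    exact RSG.dt_ne m σ T hm hσ hg a ha
  by_cases h : ∃ b, ‖b‖ = 1 ∧ 0 < fP m σ b
  · obtain ⟨b, hb, hb'⟩ := h
    refine ⟨1, Or.inl rfl, fun a ha => ?_⟩
    rw [(h8 m σ hm hσ a ha).1, one_mul]
    by_contra hn
    have hle : fP m σ a ≤ 0 := not_lt.1 hn
    obtain ⟨c, hc1, hc2⟩ := hpre.intermediate_value (mem_sphere_zero_iff_norm.2 ha)
      (mem_sphere_zero_iff_norm.2 hb) hc ⟨hle, hb'.le⟩
    exact hne c (mem_sphere_zero_iff_norm.1 hc1) hc2
  · refine ⟨-1, Or.inr rfl, fun a ha => ?_⟩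
    rw [(h8 m σ hm hσ a ha).1]
    have h1 : ¬ 0 < fP m σ a := fun h' => h ⟨a, ha, h'⟩
    have h2 := lt_of_le_of_ne (not_lt.1 h1) (hne a ha)
    linarith

end Pool.Agent.MP_3ee8cb_gt.D3GB
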