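import Pool.Agent.MP_3ee8cb_gt.D3GB.Spec
import Pool.Agent.MP_3ee8cb_gt.D3.Spec

/-! Gauss-Bonnet in moving frames: the rows that link `D3.MF` with the sphere calculus. -/

namespace Pool.Agent.MP_3ee8cb_gt.D3GB

open Set MeasureTheory Metric
open Pool.Agent.MP_3ee8cb_gt.D3 (MF sph zz Wid)
open scoped RealInnerProductSpace

/-- the unit normal -/
noncomputable def nn (σ : V → V × V) (a : V) : V := ‖a‖⁻¹ • (σ a).2

/-- the foot -/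
def yy (σ : V → V × V) (a : V) : V := (σ a).1

/-- the axial vector of the connection form -/
noncomputable def ax (m : MF) (y u : V) : V :=
  WithLp.toLp 2 ![m.om y u (bv 1) 2, m.om y u (bv 2) 0, m.om y u (bv 0) 1]

/-- the axial vector of the curvature form -/
noncomputable def aO (m : MF) (y u v : V) : V :=
  WithLp.toLp 2 ![m.Om y u v (bv 1) 2, m.Om y u v (bv 2) 0, m.Om y u v (bv 0) 1]

/-- the coefficients of the potential -/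
noncomputable def bm (m : MF) (σ : V → V × V) (j : Fin 3) (a : V) : ℝ :=
  ⟪nn σ a, ax m (yy σ a) (bv j)⟫

/-- `det A'`, homogeneous of degree zero -/
noncomputable def fP (m : MF) (σ : V → V × V) (a : V) : ℝ := (ext a (nn σ a)
  (fderiv ℝ (nn σ) a + ((m.om (yy σ a)).flip (nn σ a)).comp (fderiv ℝ (yy σ) a))).det

/-- `det A`, homogeneous of degree zero -/
noncomputable def fQ (m : MF) (σ : V → V × V) (a : V) : ℝ :=
  (ext a (nn σ a) ((m.S (yy σ a)).comp (fderiv ℝ (yy σ) a))).det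

def SSPH : Prop := ∀ J : V → ℝ, Con0 J → sph J = 3 * ∫ v in ball (0 : V) 1, J v

def SG2 : Prop := ∀ (m : MF) (σ : V → V × V), m.OK → m.Front σ →
  Sph (nn σ) ∧ Hom0 (yy σ) ∧ (∀ j, Hom0 (bm m σ j)) ∧ (∀ j, Hom0 fun v => yy σ v j) ∧
    Con0 (fP m σ) ∧ Con0 (fQ m σ)

def SLK : Prop := ∀ (m : MF) (σ : V → V × V), m.OK → m.Front σ → ∀ a, ‖a‖ = 1 →
  m.dt σ 0 a = fP m σ a ∧ m.dl σ a = fQ m σ a

def SK2 : Prop := ∀ (m : MF) (lo hi : ℝ) (y n : V), m.OK → m.Jac → m.Up lo → m.Dn hi → ‖n‖ = 1 →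
  ∃ κ : ℝ, lo ≤ κ ∧ κ ≤ hi ∧ ∀ u v, ⟪n, m.S y u⟫ = 0 → ⟪n, m.S y v⟫ = 0 →
    ⟪n, aO m y u v⟫ = κ * trip n (m.S y u) (m.S y v)

def SP2 : Prop := ∀ (m : MF) (σ : V → V × V) (a : V) (κ : ℝ), m.OK → m.Front σ → a ≠ 0 →
  (∀ u v, ⟪nn σ a, m.S (yy σ a) u⟫ = 0 → ⟪nn σ a, m.S (yy σ a) v⟫ = 0 →
    ⟪nn σ a, aO m (yy σ a) u v⟫ = κ * trip (nn σ a) (m.S (yy σ a) u) (m.S (yy σ a) v)) →
  fP m σ a - κ * fQ m σ a = jac (nn σ) a - ∑ j, br (bm m σ j) (fun x => yy σ x j) a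

def SSG : Prop := ∀ (m : MF) (σ : V → V × V) (T : ℝ), m.OK → m.Front σ → m.Good σ T →
  ∃ ε : ℝ, (ε = 1 ∨ ε = -1) ∧ ∀ a, ‖a‖ = 1 → 0 < ε * m.dt σ 0 a

def SHT : Prop := D3.OnF fun m lg σ T => Wid m lg σ T →
  ∃ (W₁ : V → V) (K : ℝ × V → V), Hom0 W₁ ∧ RayInj W₁ ∧ Htp (nn σ) W₁ K

end Pool.Agent.MP_3ee8cb_gt.D3GB
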